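import Pool.Agent.Lib.MP_820b44_gt.Spec

/-!
# Adding a new element to `B (β, X)`
-/

set_option autoImplicit false
set_option linter.unusedSectionVars false
set_option linter.unusedVariables false

open Set

namespace Pool.Agent.B820

open Pool.Agent.SymExt
open Pool.Agent.Lib.MP_e6371f_lc (W b0 nx)
open Pool.Agent.Lib.MP_820b44_gt (Cl InC)

namespace GAddAux

theorem pd_zeros (t : List Bool) (n k : ℕ) : pd (t ++ List.replicate n false) k = pd t k := by
  by_cases hk : k < t.length
  · exact pd_append_left hk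
  · rw [pd_ge (not_lt.1 hk)]
    unfold pd
    rw [List.getD_eq_getElem?_getD, List.getElem?_append_right (not_lt.1 hk)]
    by_cases h : k - t.length < n
    · rw [List.getElem?_eq_getElem (by simpa using h)]
      simp
    · rw [List.getElem?_eq_none (by simpa using h)]
      rfl

/-- the new condition -/
noncomputable def addc (β : W) (X : Cd) (m : ℕ) (q r : Cn) : Cn where
  c := r.c
  t := fun δ => if δ < β then r.t δ else
    if δ = β then q.t δ ++ List.replicate (md m + 1) false else q.t δ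
  s := {z | z ∈ r.s ∧ z.1 < β ∨ z ∈ q.s ∧ β ≤ z.1 ∨ z = (β, X, m)}
  d := {z | z ∈ r.d ∧ z.1 < β ∨ z ∈ q.d ∧ β ≤ z.1}
  fc := r.fc
  ft := ((r.ft.union q.ft).union (finite_singleton β)).subset fun δ hδ => by
    simp only [mem_ofPred_eq, ne_eq] at hδ
    by_cases h : δ < β
    · rw [if_pos h] at hδ
      exact Or.inl (Or.inl hδ)
    · rw [if_neg h] at hδ
      by_cases h' : δ = β
      · exact Or.inr h'
      · rw [if_neg h'] at hδ
        exact Or.inl (Or.inr hδ)
  fs := ((r.fs.union q.fs).union (finite_singleton (β, X, m))).subset fun z hz => by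
    rcases hz with h | h | h
    · exact Or.inl (Or.inl h.1)
    · exact Or.inl (Or.inr h.1)
    · exact Or.inr h
  fd := (r.fd.union q.fd).subset fun z hz => hz.elim (fun h => Or.inl h.1) fun h => Or.inr h.1

theorem addc_eqv (β : W) (X : Cd) (m : ℕ) (q r : Cn) : Eqv β (addc β X m q r) r := by
  refine ⟨rfl, fun δ hδ => if_pos (coe_lt'.1 hδ), fun δ U k hδ => ?_, fun δ U a hδ => ?_⟩
  · have h := coe_lt'.1 hδ
    constructor
    · rintro (h1 | h1 | h1)
      · exact h1.1
      · exact absurd h (not_lt.2 h1.2)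
      · have : δ = β := congrArg (fun z => z.1) h1
        exact absurd h (by rw [this]; exact lt_irrefl _)
    · exact fun h1 => Or.inl ⟨h1, h⟩
  · have h := coe_lt'.1 hδ
    exact ⟨fun h1 => h1.elim (fun h2 => h2.1) fun h2 => absurd h (not_lt.2 h2.2),
      fun h1 => Or.inl ⟨h1, h⟩⟩

theorem addc_le {β : W} {X : Cd} {m : ℕ} {q r : Cn} (h : Le β r q) (he : ev (Le β) X m r)
    (hp : ∀ δ x, (β, X, Sd.pt δ x) ∈ q.d → δ < β → Din (Le δ) δ x m r)
    (hw : ∀ w : List Bool, (β, X, Sd.wd w) ∈ q.d → ∀ y : ℕ → Bool,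
      (∀ k < w.length, y k = pd w k) →
      (∀ k, w.length ≤ k → y k = true → pd (q.t β) k = true) → y ∈ cl m) :
    addc β X m q r ≤ q := by
  have H := h.body
  have hg : Le β (addc β X m q r) r := (addc_eqv β X m q r).le
  have htlt : ∀ δ, δ < β → (addc β X m q r).t δ = r.t δ := fun δ hδ => if_pos hδ
  have htpd : ∀ δ, ¬ δ < β → ∀ k, pd ((addc β X m q r).t δ) k = pd (q.t δ) k := by
    intro δ hδ k
    change pd (if δ < β then r.t δ else
      if δ = β then q.t δ ++ List.replicate (md m + 1) false else q.t δ) k = _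
    rw [if_neg hδ]
    by_cases h' : δ = β
    · rw [if_pos h', pd_zeros]
    · rw [if_neg h']
  rw [le_def]
  refine Le_iff.2 ⟨H.c, fun δ _ => ?_, fun δ _ hne k hk hp' δ' hδ' hne' => ?_,
    fun δ U k _ hk => ?_, fun δ U a _ ha => ?_, fun δ U k a _ h1 h2 h3 => ?_⟩
  · by_cases hδ : δ < β
    · rw [htlt δ hδ]; exact H.t δ (coe_lt'.2 hδ)
    · change _ <+: (if δ < β then r.t δ else
        if δ = β then q.t δ ++ List.replicate (md m + 1) false else q.t δ)
      rw [if_neg hδ]
      by_cases h' : δ = β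
      · rw [if_pos h']; exact List.prefix_append _ _
      · rw [if_neg h']
  · by_cases hδ : δ < β
    · rw [htlt δ hδ] at hp'
      rw [htlt δ' (hδ'.trans hδ)]
      exact H.tw δ (coe_lt'.2 hδ) hne k hk hp' δ' hδ' hne'
    · rw [htpd δ hδ, pd_ge hk] at hp'
      exact absurd hp' (by simp)
  · by_cases hδ : δ < β
    · exact Or.inl ⟨H.s δ U k (coe_lt'.2 hδ) hk, hδ⟩
    · exact Or.inr (Or.inl ⟨hk, not_lt.1 hδ⟩)
  · by_cases hδ : δ < β
    · exact Or.inl ⟨H.d δ U a (coe_lt'.2 hδ) ha, hδ⟩
    · exact Or.inr ⟨ha, not_lt.1 hδ⟩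
  · rcases h1 with ⟨h1, hδ⟩ | ⟨h1, _⟩ | h1
    · exact Okk_mono (coe_lt'.2 hδ) hg (H.ok δ U k a (coe_lt'.2 hδ) h1 h2 h3)
    · exact absurd h1 h2
    · obtain ⟨rfl, rfl, rfl⟩ : δ = β ∧ U = X ∧ k = m := by
        simpa [Prod.ext_iff] using h1
      have hev : ev (Le δ) U k (addc δ U k q r) := hg.ev he
      cases a with
      | pt δ' x =>
        refine ⟨hev, fun hδ' => ?_⟩
        refine Din_mono (L := Le δ') (fun _ _ _ h1 h2 => Le_trans h1 h2)
          (Le_mono (WithTop.coe_le_coe.2 hδ'.le) hg) ?_ (hp δ' x h3 hδ')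
        rw [htlt δ' hδ']
      | wd w =>
        refine ⟨hev, ?_, fun y hy1 hy2 => hw w h3 y hy1 fun k' hk' hy => ?_⟩
        · change md k ≤ (if δ < δ then r.t δ else
            if δ = δ then q.t δ ++ List.replicate (md k + 1) false else q.t δ).length
          rw [if_neg (lt_irrefl _), if_pos rfl]
          simp only [List.length_append, List.length_replicate]
          omega
        · rw [← htpd δ (lt_irrefl _)]
          exact hy2 k' hk' hy

end GAddAux

open GAddAux in
theorem tAdd : S_Add := by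
  intro β X m q r h he hp hw
  exact ⟨addc β X m q r, addc_le h he hp hw, Or.inr (Or.inr rfl), (addc_eqv β X m q r).le⟩

end Pool.Agent.B820
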