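import Mathlib
import Pool.Agent.SymExt.Basic

/-!
# The interface between the set of conditions and the model of `ZFC`

`RO P` (regular predicates on `P`) is the set of truth values.  A real (a subset of `ω`) of the
forcing extension is a function `x : ℕ → RO P`; `x k p` is read: `p` forces `k ∈ x`.
-/

namespace Pool.Agent.Lib.MP_820b44_gt

open Pool.Agent.SymExt

/-- an enumeration of the codes `(k, S)` of the clopen subsets `{x | x ∩ k ∈ S}` of the Cantor
space; each code is taken infinitely often -/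
noncomputable def Cl (m : ℕ) : ℕ × Finset (Finset ℕ) :=
  ((exists_surjective_nat ((ℕ × Finset (Finset ℕ)) × ℕ)).choose m).1

theorem Cl_surj (x : ℕ × Finset (Finset ℕ)) (n : ℕ) : ∃ m > n, Cl m = x := by
  obtain ⟨f, hf⟩ : ∃ f, f = (exists_surjective_nat ((ℕ × Finset (Finset ℕ)) × ℕ)).choose := ⟨_, rfl⟩
  have hs : Function.Surjective f := by
    rw [hf]
    exact (exists_surjective_nat ((ℕ × Finset (Finset ℕ)) × ℕ)).choose_spec
  have h1 : Set.Infinite {m | (f m).1 = x} := by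
    intro h
    have h2 : (f '' {m | (f m).1 = x}).Finite := h.image f
    have h3 : f '' {m | (f m).1 = x} = {z | z.1 = x} := by
      ext z
      constructor
      · rintro ⟨m, hm, rfl⟩
        exact hm
      · intro hz
        obtain ⟨m, rfl⟩ := hs z
        exact ⟨m, hz, rfl⟩
    rw [h3] at h2
    have h4 : Set.Infinite (Set.range fun k : ℕ => (x, k)) :=
      Set.infinite_range_of_injective fun a b h => (Prod.mk.inj h).2
    exact h4 (h2.subset (by rintro _ ⟨k, rfl⟩; rfl))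
  obtain ⟨m, hm, hn⟩ := h1.exists_gt n
  refine ⟨m, hn, ?_⟩
  unfold Cl
  rw [← hf]
  exact hm

section

variable {P : Type} [Preorder P]

/-- `p` forces `x ∩ k = s ∩ k` -/
def Dec (x : ℕ → RO P) (k : ℕ) (s : Finset ℕ) (p : P) : Prop :=
  ∀ i < k, (i ∈ s → x i p) ∧ (i ∉ s → ∀ q ≤ p, ¬ x i q)

/-- `p` forces that `x` is in the clopen set number `m` -/
def InC (x : ℕ → RO P) (m : ℕ) (p : P) : Prop :=
  ∀ q ≤ p, ∃ r ≤ q, ∃ s ∈ (Cl m).2, Dec x (Cl m).1 s r

end

/-- What the set of conditions `P` has to provide.  `a i` are the elements of `A`, `y j` are the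
elements of `Y`, and `D i j` is the image of the point `(a i, y j)` under a continuous map from
`A × Y` to `P(ω)`. -/
structure Core (P I J : Type) [PartialOrder P] [OrderTop P] where
  /-- the elements of `A` -/
  a : I → ℕ → RO P
  /-- the elements of `Y` -/
  y : J → ℕ → RO P
  /-- `a i` is infinite -/
  inf : ∀ i p n, ∃ q ≤ p, ∃ k > n, a i k q
  /-- `Y` is a `γ`-set: if (below `p`) every finite subset of `Y` is contained in the clopen set
  number `m` for arbitrarily large `m` in `U`, then there is an infinite subset `B` of `U` such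
  that every element of `Y` is in the clopen set number `m` for all but finitely many `m`
  in `B` -/
  gam : ∀ (p : P) (U : ℕ → RO P),
    (∀ (F : Finset J) (n : ℕ), ∀ q ≤ p, ∃ r ≤ q, ∃ m > n, U m r ∧ ∀ j ∈ F, InC (y j) m r) →
    ∃ p' ≤ p, ∃ B : ℕ → RO P,
      (∀ m, ∀ q ≤ p', B m q → U m q) ∧
      (∀ n, ∀ q ≤ p', ∃ r ≤ q, ∃ m > n, B m r) ∧
      ∀ j, ∀ q ≤ p', ∃ r ≤ q, ∃ n, ∀ m ≥ n, ∀ s ≤ r, B m s → InC (y j) m s
  /-- the continuous map from `A × Y` to `P(ω)` -/
  D : I → J → ℕ → RO P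
  /-- each coordinate of the map is locally constant -/
  cont : ∀ i j n p, ∃ q ≤ p, ∃ l, ∀ i' j', ∀ r ≤ q,
    (∀ k < l, ∀ s ≤ r, (a i k s ↔ a i' k s)) → (∀ k < l, ∀ s ≤ r, (y j k s ↔ y j' k s)) →
      ∀ s ≤ r, (D i j n s ↔ D i' j' n s)
  /-- the map is onto -/
  surj : ∀ (x : ℕ → RO P) p, ∃ q ≤ p, ∃ i j, ∀ n, ∀ r ≤ q, (D i j n r ↔ x n r)
  /-- the cardinality of `A` is smaller than the dominating number: for each family `g` of partial
  functions indexed by `I` there is a function `h` that is dominated by no `g i` -/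
  dom : ∀ (p : P) (g : I → ℕ → ℕ → RO P),
    (∀ i n k k', ∀ q ≤ p, g i n k q → g i n k' q → k = k') →
    ∃ p' ≤ p, ∃ h : ℕ → ℕ → RO P,
      (∀ n k k', ∀ q ≤ p', h n k q → h n k' q → k = k') ∧
      (∀ n, ∀ q ≤ p', ∃ r ≤ q, ∃ k, h n k r) ∧
      ∀ i N, ∀ q ≤ p', ¬ ∀ n ≥ N, ∀ r ≤ q, ∃ s ≤ r, ∃ k l, g i n k s ∧ h n l s ∧ l ≤ k

end Pool.Agent.Lib.MP_820b44_gt
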