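import Pool.Agent.Lib.MP_820b44_gt.Defs

/-!
# The countable chain condition
-/

set_option autoImplicit false

open Set

namespace Pool.Agent.B820

open Pool.Agent.Lib.MP_e6371f_lc (W)

namespace CccAux

/-- an uncountable family of finite partial functions into a countable set has two compatible
members -/
lemma exists_compat {I K V : Type} [Countable V] (n : ℕ) : ∀ (S : Set I) (dom : I → Finset K)
    (val : I → K → V), ¬ S.Countable → (∀ i ∈ S, (dom i).card = n) →
    ∃ i ∈ S, ∃ j ∈ S, i ≠ j ∧ ∀ k, k ∈ dom i → k ∈ dom j → val i k = val j k := by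
  classical
  induction n with
  | zero =>
    intro S dom val hS hc
    obtain ⟨i, hi⟩ : S.Nonempty := by
      rw [nonempty_iff_ne_empty]
      rintro rfl
      exact hS countable_empty
    obtain ⟨j, hj, hij⟩ : ∃ j ∈ S, j ≠ i := by
      by_contra h
      push Not at h
      exact hS ((countable_singleton i).mono fun j hj => h j hj)
    refine ⟨i, hi, j, hj, hij.symm, fun k hk _ => ?_⟩
    have := Finset.card_eq_zero.1 (hc i hi)
    rw [this] at hk
    simp at hk
  | succ n ih =>
    intro S dom val hS hc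
    by_cases h : ∃ k, ¬ {i ∈ S | k ∈ dom i}.Countable
    · obtain ⟨k, hk⟩ := h
      obtain ⟨v, hv⟩ : ∃ v, ¬ {i ∈ S | k ∈ dom i ∧ val i k = v}.Countable := by
        by_contra hcon
        push Not at hcon
        refine hk ((countable_iUnion hcon).mono fun i hi => ?_)
        rw [mem_iUnion]
        exact ⟨val i k, hi.1, hi.2, rfl⟩
      obtain ⟨i, hi, j, hj, hij, hcomp⟩ := ih {i ∈ S | k ∈ dom i ∧ val i k = v}
        (fun i => (dom i).erase k) val hv (fun i hi => by
          rw [Finset.card_erase_of_mem hi.2.1, hc i hi.1]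
          rfl)
      refine ⟨i, hi.1, j, hj.1, hij, fun l hl hl' => ?_⟩
      by_cases hlk : l = k
      · rw [hlk, hi.2.2, hj.2.2]
      · exact hcomp l (Finset.mem_erase.2 ⟨hlk, hl⟩) (Finset.mem_erase.2 ⟨hlk, hl'⟩)
    · push Not at h
      obtain ⟨i, hi⟩ : S.Nonempty := by
        rw [nonempty_iff_ne_empty]
        rintro rfl
        exact hS countable_empty
      have hT : (⋃ k ∈ (dom i : Set K), {j ∈ S | k ∈ dom j}).Countable :=
        (dom i).countable_toSet.biUnion fun k _ => h k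
      obtain ⟨j, hj, hjn⟩ : ∃ j ∈ S, j ∉ (⋃ k ∈ (dom i : Set K), {j ∈ S | k ∈ dom j}) ∧ j ≠ i := by
        by_contra hcon
        push Not at hcon
        refine hS ((hT.union (countable_singleton i)).mono fun j hj => ?_)
        by_cases hj' : j ∈ (⋃ k ∈ (dom i : Set K), {j ∈ S | k ∈ dom j})
        · exact Or.inl hj'
        · exact Or.inr (hcon j hj hj')
      refine ⟨i, hi, j, hj, hjn.2.symm, fun k hk hk' => ?_⟩
      exact (hjn.1 (mem_iUnion₂.2 ⟨k, hk, hj, hk'⟩)).elim

lemma exists_compat' {I K V : Type} [Countable V] (S : Set I) (dom : I → Finset K)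
    (val : I → K → V) (hS : ¬ S.Countable) :
    ∃ i ∈ S, ∃ j ∈ S, i ≠ j ∧ ∀ k, k ∈ dom i → k ∈ dom j → val i k = val j k := by
  obtain ⟨n, hn⟩ : ∃ n, ¬ {i ∈ S | (dom i).card = n}.Countable := by
    by_contra hcon
    push Not at hcon
    refine hS ((countable_iUnion hcon).mono fun i hi => ?_)
    rw [mem_iUnion]
    exact ⟨(dom i).card, hi, rfl⟩
  obtain ⟨i, hi, j, hj, h⟩ := exists_compat n {i ∈ S | (dom i).card = n} dom val hn
    (fun i hi => hi.2)
  exact ⟨i, hi.1, j, hj.1, h⟩

/-- the keys of a condition -/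
def keys (p : Cn) : Set (W × Cd) :=
  (fun z : W × Cd × ℕ => (z.1, z.2.1)) '' p.s ∪ (fun z : W × Cd × Sd Cd => (z.1, z.2.1)) '' p.d

lemma keys_finite (p : Cn) : (keys p).Finite := (p.fs.image _).union (p.fd.image _)

lemma mem_keys_s {p : Cn} {β : W} {U : Cd} {m : ℕ} (h : (β, U, m) ∈ p.s) : (β, U) ∈ keys p :=
  Or.inl (mem_image_of_mem (fun z : W × Cd × ℕ => (z.1, z.2.1)) h)

lemma mem_keys_d {p : Cn} {β : W} {U : Cd} {a : Sd Cd} (h : (β, U, a) ∈ p.d) :
    (β, U) ∈ keys p :=
  Or.inr (mem_image_of_mem (fun z : W × Cd × Sd Cd => (z.1, z.2.1)) h)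

/-- compatible data -/
structure Comp (p q : Cn) : Prop where
  c : ∀ ξ, p.c ξ ≠ [] → q.c ξ ≠ [] → p.c ξ = q.c ξ
  t : ∀ β, p.t β ≠ [] → q.t β ≠ [] → p.t β = q.t β
  s : ∀ β U, (β, U) ∈ keys p → (β, U) ∈ keys q → ∀ m, (β, U, m) ∈ p.s ↔ (β, U, m) ∈ q.s

open Classical in
/-- the union of two conditions -/
noncomputable def merge (p q : Cn) : Cn where
  c := fun ξ => if p.c ξ = [] then q.c ξ else p.c ξ
  t := fun β => if p.t β = [] then q.t β else p.t β
  s := p.s ∪ q.s
  d := p.d ∪ q.d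
  fc := (p.fc.union q.fc).subset fun ξ hξ => by
    simp only [mem_ofPred_eq, ne_eq] at hξ
    by_cases h : p.c ξ = []
    · rw [if_pos h] at hξ; exact Or.inr hξ
    · exact Or.inl h
  ft := (p.ft.union q.ft).subset fun β hβ => by
    simp only [mem_ofPred_eq, ne_eq] at hβ
    by_cases h : p.t β = []
    · rw [if_pos h] at hβ; exact Or.inr hβ
    · exact Or.inl h
  fs := p.fs.union q.fs
  fd := p.fd.union q.fd

lemma pd_ge (v : List Bool) (k : ℕ) (h : v.length ≤ k) : pd v k = false :=
  List.getD_eq_default _ _ h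

lemma merge_left {p q : Cn} (h : Comp p q) (L : W → Cn → Cn → Prop) (γ : WithTop W) :
    Body L γ (merge p q) p where
  c := fun ξ => by
    show p.c ξ <+: if p.c ξ = [] then q.c ξ else p.c ξ
    by_cases h1 : p.c ξ = []
    · rw [h1]; exact List.nil_prefix
    · rw [if_neg h1]
  t := fun β _ => by
    show p.t β <+: if p.t β = [] then q.t β else p.t β
    by_cases h1 : p.t β = []
    · rw [h1]; exact List.nil_prefix
    · rw [if_neg h1]
  tw := fun β _ hne m hm hpd => by
    have h1 : (merge p q).t β = p.t β := if_neg hne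
    rw [h1, pd_ge _ _ hm] at hpd
    exact absurd hpd (by simp)
  s := fun β U m _ h1 => Or.inl h1
  d := fun β U a _ h1 => Or.inl h1
  ok := fun β U m a _ h1 h2 h3 => by
    rcases h1 with h1 | h1
    · exact absurd h1 h2
    · exact absurd ((h.s β U (mem_keys_d h3) (mem_keys_s h1) m).2 h1) h2

lemma merge_right {p q : Cn} (h : Comp p q) (L : W → Cn → Cn → Prop) (γ : WithTop W) :
    Body L γ (merge p q) q where
  c := fun ξ => by
    show q.c ξ <+: if p.c ξ = [] then q.c ξ else p.c ξ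
    by_cases h1 : p.c ξ = []
    · rw [if_pos h1]
    · rw [if_neg h1]
      by_cases h2 : q.c ξ = []
      · rw [h2]; exact List.nil_prefix
      · rw [h.c ξ h1 h2]
  t := fun β _ => by
    show q.t β <+: if p.t β = [] then q.t β else p.t β
    by_cases h1 : p.t β = []
    · rw [if_pos h1]
    · rw [if_neg h1]
      by_cases h2 : q.t β = []
      · rw [h2]; exact List.nil_prefix
      · rw [h.t β h1 h2]
  tw := fun β _ hne m hm hpd => by
    have h1 : (merge p q).t β = q.t β := by
      show (if p.t β = [] then q.t β else p.t β) = q.t β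
      by_cases h1 : p.t β = []
      · rw [if_pos h1]
      · rw [if_neg h1, h.t β h1 hne]
    rw [h1, pd_ge _ _ hm] at hpd
    exact absurd hpd (by simp)
  s := fun β U m _ h1 => Or.inr h1
  d := fun β U a _ h1 => Or.inr h1
  ok := fun β U m a _ h1 h2 h3 => by
    rcases h1 with h1 | h1
    · exact absurd ((h.s β U (mem_keys_s h1) (mem_keys_d h3) m).1 h1) h2
    · exact absurd h1 h2

lemma Le_eq (γ : WithTop W) (p q : Cn) :
    Le γ p q = Body (fun β p' q' => ∃ _ : (β : WithTop W) < γ, Le β p' q') γ p q := by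
  unfold Le
  rw [WellFounded.fix_eq]

lemma body_refl (L : W → Cn → Cn → Prop) (γ : WithTop W) (p : Cn) : Body L γ p p where
  c := fun _ => List.prefix_rfl
  t := fun _ _ => List.prefix_rfl
  tw := fun β _ _ m hm hpd => by
    rw [pd_ge _ _ hm] at hpd
    exact absurd hpd (by simp)
  s := fun _ _ _ _ h => h
  d := fun _ _ _ _ h => h
  ok := fun _ _ _ _ _ h1 h2 _ => absurd h1 h2

/-- the `s`-part at a key -/
def sp (p : Cn) (k : W × Cd) : Set ℕ := {m | (k.1, k.2, m) ∈ p.s}

lemma sp_finite (p : Cn) (k : W × Cd) : (sp p k).Finite := by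
  refine p.fs.preimage (f := fun m : ℕ => (k.1, k.2, m)) ?_
  intro m _ m' _ h
  simpa using h

/-- the domain of the partial function of a condition -/
noncomputable def dom (p : Cn) : Finset (Om ⊕ W ⊕ (W × Cd)) :=
  ((p.fc.image Sum.inl).union ((p.ft.image (fun β => Sum.inr (Sum.inl β))).union
    ((keys_finite p).image (fun k => Sum.inr (Sum.inr k))))).toFinset

/-- the values of the partial function of a condition -/
noncomputable def val (p : Cn) : Om ⊕ W ⊕ (W × Cd) → List ℕ × List Bool × Finset ℕ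
  | Sum.inl ξ => (p.c ξ, [], ∅)
  | Sum.inr (Sum.inl β) => ([], p.t β, ∅)
  | Sum.inr (Sum.inr k) => ([], [], (sp_finite p k).toFinset)

lemma comp_of {p q : Cn} (h : ∀ k, k ∈ dom p → k ∈ dom q → val p k = val q k) : Comp p q where
  c := fun ξ h1 h2 => by
    have := h (Sum.inl ξ) (by
      rw [dom, Set.Finite.mem_toFinset]
      exact Or.inl ⟨ξ, h1, rfl⟩) (by
      rw [dom, Set.Finite.mem_toFinset]
      exact Or.inl ⟨ξ, h2, rfl⟩)
    exact (Prod.ext_iff.1 this).1
  t := fun β h1 h2 => by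
    have := h (Sum.inr (Sum.inl β)) (by
      rw [dom, Set.Finite.mem_toFinset]
      exact Or.inr (Or.inl ⟨β, h1, rfl⟩)) (by
      rw [dom, Set.Finite.mem_toFinset]
      exact Or.inr (Or.inl ⟨β, h2, rfl⟩))
    exact (Prod.ext_iff.1 (Prod.ext_iff.1 this).2).1
  s := fun β U h1 h2 m => by
    have := h (Sum.inr (Sum.inr (β, U))) (by
      rw [dom, Set.Finite.mem_toFinset]
      exact Or.inr (Or.inr ⟨(β, U), h1, rfl⟩)) (by
      rw [dom, Set.Finite.mem_toFinset]
      exact Or.inr (Or.inr ⟨(β, U), h2, rfl⟩))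
    have h3 : (sp_finite p (β, U)).toFinset = (sp_finite q (β, U)).toFinset :=
      (Prod.ext_iff.1 (Prod.ext_iff.1 this).2).2
    have h4 := Finset.ext_iff.1 h3 m
    rw [Set.Finite.mem_toFinset, Set.Finite.mem_toFinset] at h4
    exact h4

end CccAux

open CccAux

/-- the countable chain condition, for the order of each level -/
theorem ccc (g : WithTop W) (A : Set Cn) (hA : ¬ A.Countable) :
    ∃ p ∈ A, ∃ q ∈ A, p ≠ q ∧ ∃ r, Le g r p ∧ Le g r q := by
  obtain ⟨p, hp, q, hq, hpq, h⟩ := exists_compat' A dom val hA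
  have hc := comp_of h
  refine ⟨p, hp, q, hq, hpq, merge p q, ?_, ?_⟩
  · rw [Le_eq]
    exact merge_left hc _ _
  · rw [Le_eq]
    exact merge_right hc _ _

/-- each set of conditions has a countable subset that is predense in it -/
theorem exists_predense (g : WithTop W) (A : Set Cn) :
    ∃ B ⊆ A, B.Countable ∧ ∀ p ∈ A, ∃ q ∈ B, ∃ r, Le g r p ∧ Le g r q := by
  obtain ⟨B, hB⟩ := zorn_subset {B : Set Cn | B ⊆ A ∧ ∀ p ∈ B, ∀ q ∈ B, p ≠ q →
    ¬ ∃ r, Le g r p ∧ Le g r q} (by
    intro c hc hchain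
    refine ⟨⋃₀ c, ⟨sUnion_subset fun s hs => (hc hs).1, ?_⟩, fun s hs => subset_sUnion_of_mem hs⟩
    rintro p ⟨s, hs, hps⟩ q ⟨s', hs', hqs'⟩ hpq
    rcases hchain.total hs hs' with h | h
    · exact (hc hs').2 p (h hps) q hqs' hpq
    · exact (hc hs).2 p hps q (h hqs') hpq)
  obtain ⟨⟨hBA, hanti⟩, hmax⟩ := hB
  refine ⟨B, hBA, ?_, fun p hp => ?_⟩
  · by_contra hcon
    obtain ⟨p, hp, q, hq, hpq, h⟩ := ccc g B hcon
    exact hanti p hp q hq hpq h
  · by_contra hcon
    push Not at hcon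
    have hpB : p ∉ B := by
      intro hpB
      exact hcon p hpB p (by rw [Le_eq]; exact body_refl _ _ _)
        (by rw [Le_eq]; exact body_refl _ _ _)
    have h1 : insert p B ⊆ A ∧ ∀ x ∈ insert p B, ∀ q ∈ insert p B, x ≠ q →
        ¬ ∃ r, Le g r x ∧ Le g r q := by
      refine ⟨insert_subset hp hBA, ?_⟩
      rintro x (rfl | hx) q (rfl | hq) hxq
      · exact absurd rfl hxq
      · rintro ⟨r, h1, h2⟩
        exact hcon q hq r h1 h2
      · rintro ⟨r, h1, h2⟩
        exact hcon x hx r h2 h1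
      · exact hanti x hx q hq hxq
    exact hpB (hmax h1 (subset_insert p B) (mem_insert p B))

end Pool.Agent.B820
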