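import Pool.Agent.Lib.MP_820b44_gt.Spec

/-!
# Codes of countable sets of conditions: proof of `S_Code`
-/

set_option autoImplicit false

open Set

namespace Pool.Agent.B820

open Pool.Agent.SymExt
open Pool.Agent.Lib.MP_e6371f_lc (W b0 nx)
open Pool.Agent.Lib.MP_820b44_gt (Cl InC)

namespace GCodeAux

/-- the code in a side atom -/
def sdc : Sd Cd → Cd
  | .pt _ x => x
  | .wd _ => .nil

/-- the codes used in a condition -/
def cds (p : Cn) : Set Cd :=
  (fun z : W × Cd × ℕ => z.2.1) '' p.s ∪ ((fun z : W × Cd × Sd Cd => z.2.1) '' p.d ∪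
    (fun z : W × Cd × Sd Cd => sdc z.2.2) '' p.d)

theorem cds_countable (p : Cn) : (cds p).Countable :=
  ((p.fs.image _).union ((p.fd.image _).union (p.fd.image _))).countable

theorem map_map_eq {p : Cn} {g : Cd → ℕ} {ch : ℕ → Cd} (h : ∀ U ∈ cds p, ch (g U) = U) :
    (p.map g).map ch = p := by
  apply Cond.ext
  · rfl
  · rfl
  · change (fun z : W × ℕ × ℕ => (z.1, ch z.2.1, z.2.2)) ''
      ((fun z : W × Cd × ℕ => (z.1, g z.2.1, z.2.2)) '' p.s) = p.s
    rw [Set.image_image]
    conv_rhs => rw [← Set.image_id p.s]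
    refine Set.image_congr fun z hz => ?_
    have h1 : ch (g z.2.1) = z.2.1 := h _ (Or.inl ⟨z, hz, rfl⟩)
    change (z.1, ch (g z.2.1), z.2.2) = z
    rw [h1]
  · change (fun z : W × ℕ × Sd ℕ => (z.1, ch z.2.1, z.2.2.map ch)) ''
      ((fun z : W × Cd × Sd Cd => (z.1, g z.2.1, z.2.2.map g)) '' p.d) = p.d
    rw [Set.image_image]
    conv_rhs => rw [← Set.image_id p.d]
    refine Set.image_congr fun z hz => ?_
    have h1 : ch (g z.2.1) = z.2.1 := h _ (Or.inr (Or.inl ⟨z, hz, rfl⟩))
    have h2 : ch (g (sdc z.2.2)) = sdc z.2.2 := h _ (Or.inr (Or.inr ⟨z, hz, rfl⟩))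
    change (z.1, ch (g z.2.1), (z.2.2.map g).map ch) = z
    rw [h1]
    obtain ⟨a, b, c⟩ := z
    cases c with
    | pt δ x =>
      change (a, b, Sd.pt δ (ch (g x))) = (a, b, Sd.pt δ x)
      have h3 : ch (g x) = x := h2
      rw [h3]
    | wd w => rfl

end GCodeAux

open GCodeAux

theorem tCode : S_Code := by
  intro A hA
  have hK : (insert Cd.nil (⋃ n, ⋃ p ∈ A n, cds p)).Countable :=
    (Set.countable_iUnion fun n => (hA n).biUnion fun p _ => cds_countable p).insert _
  obtain ⟨ch, hch⟩ := hK.exists_eq_range ⟨_, Set.mem_insert _ _⟩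
  have hg : ∀ n, ∀ p ∈ A n, (p.map (Function.invFun ch)).map ch = p := by
    intro n p hp
    refine map_map_eq fun U hU => ?_
    have : U ∈ Set.range ch := by
      rw [← hch]
      exact Set.mem_insert_of_mem _ (Set.mem_iUnion.2 ⟨n, Set.mem_biUnion hp hU⟩)
    exact Function.invFun_eq this
  have he : ∀ n, ∃ e : ℕ → Cn, (A n).Nonempty → A n = Set.range e := by
    intro n
    by_cases h : (A n).Nonempty
    · obtain ⟨e, he⟩ := (hA n).exists_eq_range h
      exact ⟨e, fun _ => he⟩
    · exact ⟨fun _ => Cond.one, fun h' => absurd h' h⟩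
  choose e he using he
  classical
  refine ⟨.mk (fun n i => if (A n).Nonempty then some ((e n i).map (Function.invFun ch)) else none)
    ch, fun n => ?_⟩
  ext q
  constructor
  · rintro ⟨i, p, hp, rfl⟩
    beta_reduce at hp
    by_cases h : (A n).Nonempty
    · rw [if_pos h] at hp
      have hp' : (e n i).map (Function.invFun ch) = p := Option.some.inj hp
      have hm : e n i ∈ A n := by
        rw [he n h]
        exact ⟨i, rfl⟩
      rw [← hp', hg n _ hm]
      exact hm
    · rw [if_neg h] at hp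
      exact absurd hp (by simp)
  · intro hq
    have h : (A n).Nonempty := ⟨q, hq⟩
    have hq' := hq
    rw [he n h] at hq'
    obtain ⟨i, rfl⟩ := hq'
    exact ⟨i, _, if_pos h, (hg n _ hq).symm⟩

end Pool.Agent.B820
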