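import Pool.Agent.Lib.MP_820b44_gt.Spec

/-!
# Module CodeP: codes of level `γ` (author helper62)
-/

set_option autoImplicit false
set_option linter.unusedSectionVars false
set_option linter.unusedVariables false

open Set

namespace Pool.Agent.B820

open Pool.Agent.SymExt
open Pool.Agent.Lib.MP_e6371f_lc (W b0 nx)
open Pool.Agent.Lib.MP_820b44_gt (Cl InC)

theorem tCodeP : S_Code → S_Pred → S_CodeP := by
  intro hC hP γ ν hν
  choose B hB hBc hBp using fun n => hP γ (ν n)
  obtain ⟨x, hx⟩ := hC B hBc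
  refine ⟨x, ?_, fun n q hq => ?_⟩
  · rintro n q ⟨a, ha, hqa⟩
    rw [hx] at ha
    exact hν n a q hqa (hB n ha)
  · obtain ⟨a, ha, r, hr1, hr2⟩ := hBp n q hq
    exact ⟨r, hr1, a, by rw [hx]; exact ha, hr2⟩

end Pool.Agent.B820
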