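import Pool.Agent.Lib.MP_820b44_gt.Spec

/-!
# Module CodeT: every real of the extension has a code (author helper62)
-/

set_option autoImplicit false
set_option linter.unusedSectionVars false
set_option linter.unusedVariables false

open Set

namespace Pool.Agent.B820

open Pool.Agent.SymExt
open Pool.Agent.Lib.MP_e6371f_lc (W b0 nx)
open Pool.Agent.Lib.MP_820b44_gt (Cl InC)

theorem tCodeT : S_Code → S_Pred → S_CodeT := by
  intro hC hP ν
  choose B hB hBc hBp using fun n => hP ⊤ {p | ν n p}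
  obtain ⟨x, hx⟩ := hC B hBc
  obtain ⟨β, hβ⟩ := exists_supp (A := ⋃ n, B n) (countable_iUnion hBc)
  refine ⟨β, x, ?_, fun n q hq => ?_⟩
  · rintro n q ⟨a, ha, hqa⟩
    rw [hx] at ha
    have h1 : q ≤ a := Le_of_supp (hβ a (mem_iUnion.2 ⟨n, ha⟩)) hqa ⊤
    exact (ν n).mono h1 (hB n ha)
  · obtain ⟨a, ha, r, hr1, hr2⟩ := hBp n q hq
    exact ⟨r, hr1, a, by rw [hx]; exact ha, le_Le hr2 β⟩

end Pool.Agent.B820
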