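import Pool.Agent.Lib.MP_820b44_gt.Spec

/-!
# The field `cont` of `Core` (author helper21)
-/

set_option autoImplicit false
set_option linter.unusedSectionVars false
set_option linter.unusedVariables false

open Set

namespace Pool.Agent.B820

open Pool.Agent.SymExt
open Pool.Agent.Lib.MP_e6371f_lc (W b0 nx)
open Pool.Agent.Lib.MP_820b44_gt (Cl InC)

namespace GContAux

theorem cnt_zero (t : List Bool) : cnt t 0 = 0 := by
  unfold cnt
  simp

theorem cnt_succ (t : List Bool) (k : ℕ) : cnt t (k + 1) = cnt t k + (if pd t k = true then 1 else 0) := by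
  unfold cnt
  by_cases hk : k < t.length
  · rw [List.take_add_one, List.getElem?_eq_getElem hk, List.count_append, pd_lt hk]
    cases t[k] <;> simp
  · have hk' := not_lt.1 hk
    rw [pd_ge hk', List.take_of_length_le hk', List.take_of_length_le (by omega)]
    simp

theorem cnt_congr {t t' : List Bool} {k : ℕ} (h : ∀ k' < k, pd t k' = pd t' k') : cnt t k = cnt t' k := by
  induction k with
  | zero => rw [cnt_zero, cnt_zero]
  | succ k ih => rw [cnt_succ, cnt_succ, ih (fun k' hk' => h k' (by omega)), h k (by omega)]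

theorem cnt_lt {t : List Bool} {k k' : ℕ} (h : k < k') (hk : pd t k = true) : cnt t k < cnt t k' := by
  have h1 := cnt_succ t k
  rw [if_pos hk] at h1
  have h2 := cnt_mono t (show k + 1 ≤ k' from h)
  omega

theorem cnt_inj {t : List Bool} {k k' : ℕ} (hk : pd t k = true) (hk' : pd t k' = true)
    (h : cnt t k = cnt t k') : k = k' := by
  rcases lt_trichotomy k k' with h1 | h1 | h1
  · have := cnt_lt h1 hk
    omega
  · exact h1
  · have := cnt_lt h1 hk'
    omega

theorem exists_one {t : List Bool} {n : ℕ} (K : ℕ) (h : n < cnt t K) : ∃ k, pd t k = true ∧ cnt t k = n := by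
  induction K with
  | zero =>
    rw [cnt_zero] at h
    omega
  | succ K ih =>
    by_cases h1 : n < cnt t K
    · exact ih h1
    · rw [cnt_succ] at h
      by_cases h2 : pd t K = true
      · rw [if_pos h2] at h
        exact ⟨K, h2, by omega⟩
      · rw [if_neg h2] at h
        omega

/-- extend until `t i` has `n` ones -/
theorem many (ho : S_Ones) (i : W) (p : Cn) (n : ℕ) : ∃ q ≤ p, n ≤ cnt (q.t i) (q.t i).length := by
  induction n with
  | zero => exact ⟨p, le_rfl, Nat.zero_le _⟩
  | succ n ih =>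
    obtain ⟨q, hq, hn⟩ := ih
    obtain ⟨r, hr, k, hk, h1⟩ := ho q i (q.t i).length
    refine ⟨r, hr.trans hq, ?_⟩
    have h2 : k < (r.t i).length := lt_of_pd h1
    have h3 := cnt_mono (r.t i) (show k + 1 ≤ (r.t i).length from h2)
    have h4 := cnt_succ (r.t i) k
    rw [if_pos h1] at h4
    have h5 := cnt_mono (r.t i) hk.le
    rw [cnt_prefix (le_t hr i) le_rfl] at h5
    omega

/-- extend until `t i` has the `n`-th one -/
theorem exists_nth (ho : S_Ones) (i : W) (p : Cn) (n : ℕ) :
    ∃ q ≤ p, ∃ k, pd (q.t i) k = true ∧ cnt (q.t i) k = n := by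
  obtain ⟨q, hq, h⟩ := many ho i p (n + 1)
  exact ⟨q, hq, exists_one _ h⟩

/-- the `n`-th one is at the place `k` -/
theorem DN_iff {i : W} {j : Ix} {n k : ℕ} {p : Cn} (h1 : pd (p.t i) k = true) (h2 : cnt (p.t i) k = n) :
    DN i j n p ↔ yN j k p := by
  constructor
  · intro h
    refine (yN j k).dense fun q hq => ?_
    obtain ⟨r, hr, k', h3, h4, h5⟩ := (hl_iff (DN_down i j n)).1 h q hq
    refine ⟨r, hr, ?_⟩
    have h6 : pd (r.t i) k = true := pd_down i k p r (hr.trans hq) h1
    have h7 : cnt (r.t i) k = n := by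
      rw [cnt_prefix (le_t (hr.trans hq) i) (lt_of_pd h1).le]
      exact h2
    have h8 : k' = k := cnt_inj h3 h6 (h4.trans h7.symm)
    rw [← h8]
    exact h5
  · intro h
    exact hl_of (DN_down i j n) ⟨k, h1, h2, h⟩

end GContAux

open GContAux in
theorem tCont : S_Ones → S_Pad → S_Cont := by
  intro ho hp i j n p
  obtain ⟨q, hq, k, hk, hc⟩ := exists_nth ho i p n
  refine ⟨q, hq, k + 1, fun i' j' r hr ha hy s hs => ?_⟩
  have hsq : s ≤ q := hs.trans hr
  have up1 : ∀ s' ≤ s, pd (s'.t i) k = true := fun s' hs' => pd_down i k q s' (hs'.trans hsq) hk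
  have up2 : ∀ s' ≤ s, cnt (s'.t i) k = n := fun s' hs' => by
    rw [cnt_prefix (le_t (hs'.trans hsq) i) (lt_of_pd hk).le]
    exact hc
  have key : ∀ s' ≤ s, k + 1 < (s'.t i').length → (DN i' j' n s' ↔ yN j' k s') := by
    intro s' hs' hl
    have h1 : ∀ k' < k + 1, pd (s'.t i) k' = pd (s'.t i') k' := by
      intro k' hk'
      have h2 := ha k' hk' s' (hs'.trans hs)
      rw [aN_iff (lt_of_lt_of_le hk' (lt_of_pd (up1 s' hs'))), aN_iff (by omega)] at h2
      exact Bool.eq_iff_iff.2 h2
    refine DN_iff ?_ ?_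
    · rw [← h1 k (by omega)]
      exact up1 s' hs'
    · rw [← cnt_congr (fun k' hk' => h1 k' (by omega))]
      exact up2 s' hs'
  rw [DN_iff (up1 s le_rfl) (up2 s le_rfl), hy k (by omega) s hs]
  constructor
  · intro h
    refine (DN i' j' n).dense fun s0 hs0 => ?_
    obtain ⟨s', hs', hl, -⟩ := hp s0 i' (k + 1)
    exact ⟨s', hs', (key s' (hs'.trans hs0) hl).2 ((yN j' k).mono (hs'.trans hs0) h)⟩
  · intro h
    refine (yN j' k).dense fun s0 hs0 => ?_
    obtain ⟨s', hs', hl, -⟩ := hp s0 i' (k + 1)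
    exact ⟨s', hs', (key s' (hs'.trans hs0) hl).1 ((DN i' j' n).mono (hs'.trans hs0) h)⟩

end Pool.Agent.B820
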