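import Mathlib

/-!
# MP_820b44_gt: products with gamma-sets

Definitions (covers, selection principles, cardinal invariants) and the core lemmas.
-/

set_option autoImplicit false

namespace MP820b44

open Set Topology
open scoped Cardinal

/-- `𝒰` is an open `γ`-cover of `X`: a family of open subsets, none of them equal to `X`, which is
infinite and such that every point lies in all but finitely many members. -/
structure IsGammaCover {X : Type} [TopologicalSpace X] (𝒰 : Set (Set X)) : Prop where
  isOpen : ∀ U ∈ 𝒰, IsOpen U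
  ne_univ : (univ : Set X) ∉ 𝒰
  infinite : 𝒰.Infinite
  cofinite : ∀ x : X, {U ∈ 𝒰 | x ∉ U}.Finite

/-- `𝒰` is an open `ω`-cover of `X`: a family of open subsets, none of them equal to `X`, such that
every finite set is contained in a member. -/
structure IsOmegaCover {X : Type} [TopologicalSpace X] (𝒰 : Set (Set X)) : Prop where
  isOpen : ∀ U ∈ 𝒰, IsOpen U
  ne_univ : (univ : Set X) ∉ 𝒰
  finite_subset : ∀ F : Set X, F.Finite → ∃ U ∈ 𝒰, F ⊆ U

/-- The `γ`-property: every open `ω`-cover contains a `γ`-cover. -/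
def GammaProperty (X : Type) [TopologicalSpace X] : Prop :=
  ∀ 𝒰 : Set (Set X), IsOmegaCover 𝒰 → ∃ 𝒱 ⊆ 𝒰, IsGammaCover 𝒱

/-- The selection principle `S₁(Γ, O)`. -/
def S1GammaO (X : Type) [TopologicalSpace X] : Prop :=
  ∀ 𝒰 : ℕ → Set (Set X), (∀ n, IsGammaCover (𝒰 n)) →
    ∃ U : ℕ → Set X, (∀ n, U n ∈ 𝒰 n) ∧ ⋃ n, U n = univ

/-- The selection principle `S₁(Γ, Γ)`. -/
def S1GammaGamma (X : Type) [TopologicalSpace X] : Prop :=
  ∀ 𝒰 : ℕ → Set (Set X), (∀ n, IsGammaCover (𝒰 n)) →
    ∃ U : ℕ → Set X, (∀ n, U n ∈ 𝒰 n) ∧ IsGammaCover (range U)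

/-- `cov(M)`: the least cardinality of a family of meager subsets of the Cantor space which covers
the Cantor space. -/
noncomputable def covM : Cardinal.{0} :=
  sInf {κ | ∃ 𝓕 : Set (Set (ℕ → Bool)), #𝓕 = κ ∧ (∀ M ∈ 𝓕, IsMeagre M) ∧ ⋃₀ 𝓕 = univ}

/-- A groupwise dense family of infinite sets of natural numbers: it is closed under infinite almost
subsets, and for every partition of the natural numbers into finite intervals
`[p k, p (k + 1))` it contains the union of infinitely many of these intervals. -/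
structure GroupwiseDense (𝒢 : Set (Set ℕ)) : Prop where
  infinite : ∀ X ∈ 𝒢, X.Infinite
  down : ∀ X ∈ 𝒢, ∀ X' : Set ℕ, X'.Infinite → (X' \ X).Finite → X' ∈ 𝒢
  dense : ∀ p : ℕ → ℕ, StrictMono p → p 0 = 0 →
    ∃ K : Set ℕ, K.Infinite ∧ (⋃ k ∈ K, Ico (p k) (p (k + 1))) ∈ 𝒢

/-- The groupwise density number `𝔤`: the least cardinality of a family of groupwise dense families
with empty intersection. -/
noncomputable def gNum : Cardinal.{0} :=
  sInf {κ | ∃ 𝔾 : Set (Set (Set ℕ)), #𝔾 = κ ∧ (∀ 𝒢 ∈ 𝔾, GroupwiseDense 𝒢) ∧ ⋂₀ 𝔾 = ∅}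

/-- The bounding number `𝔟`: the least cardinality of a subset of `ℕ → ℕ` which is unbounded in the
order of eventual domination. -/
noncomputable def bNum : Cardinal.{0} :=
  sInf {κ | ∃ F : Set (ℕ → ℕ), #F = κ ∧ ∀ g : ℕ → ℕ, ∃ f ∈ F, ¬ ∀ᶠ n in Filter.atTop, f n ≤ g n}

/-- The dominating number `𝔡`: the least cardinality of a subset of `ℕ → ℕ` which is dominating in
the order of eventual domination. -/
noncomputable def dNum : Cardinal.{0} :=
  sInf {κ | ∃ F : Set (ℕ → ℕ), #F = κ ∧ ∀ g : ℕ → ℕ, ∃ f ∈ F, ∀ᶠ n in Filter.atTop, g n ≤ f n}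

/-! ## Selectors for matrices of open sets -/

/-- `Y` has selectors: if the rows of a matrix of open sets converge to `Y` then one can pick one
entry from infinitely many rows such that the picked sets converge to `Y`. -/
def HasSelectors (Y : Type) [TopologicalSpace Y] : Prop :=
  ∀ V : ℕ → ℕ → Set Y, (∀ n m, IsOpen (V n m)) → (∀ n y, {m | y ∉ V n m}.Finite) →
    ∃ (D : Set ℕ) (g : ℕ → ℕ), D.Infinite ∧ ∀ y, {n ∈ D | y ∉ V n (g n)}.Finite

/-- A row which does not contain the whole space is a `γ`-cover. -/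
theorem isGammaCover_range {Y : Type} [TopologicalSpace Y] (V : ℕ → Set Y)
    (ho : ∀ m, IsOpen (V m)) (hf : ∀ y, {m | y ∉ V m}.Finite) (hu : ∀ m, V m ≠ univ) :
    IsGammaCover (range V) := by
  refine ⟨?_, ?_, ?_, ?_⟩
  · rintro _ ⟨m, rfl⟩; exact ho m
  · rintro ⟨m, hm⟩; exact hu m hm
  · intro hfin
    -- some value is taken infinitely often
    obtain ⟨W, ⟨m0, hm0⟩, hW⟩ : ∃ W ∈ range V, (V ⁻¹' {W}).Infinite := by
      by_contra hcon
      push Not at hcon
      have h1 : (⋃ W ∈ range V, V ⁻¹' {W}).Finite := by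
        apply hfin.biUnion
        intro W hW
        exact hcon W hW
      have h2 : (⋃ W ∈ range V, V ⁻¹' {W}) = univ := by
        ext m
        simp
      rw [h2] at h1
      exact infinite_univ h1
    apply hu m0
    rw [hm0]
    ext y
    simp only [mem_univ, iff_true]
    obtain ⟨m, hm1, hm2⟩ := (hW.sdiff (hf y)).nonempty
    have hm1' : V m = W := hm1
    by_contra hy
    exact hm2 (by show y ∉ V m; rw [hm1']; exact hy)
  · intro y
    apply ((hf y).image V).subset
    rintro _ ⟨⟨m, rfl⟩, hm⟩
    exact ⟨m, hm, rfl⟩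

/-- Spaces with `S₁(Γ, Γ)` have selectors. -/
theorem S1GammaGamma.hasSelectors {Y : Type} [TopologicalSpace Y] (h : S1GammaGamma Y) :
    HasSelectors Y := by
  intro V ho hf
  by_cases hcase : {n | ∃ m, V n m = univ}.Infinite
  · have hch : ∀ n, ∃ m, (∃ m', V n m' = univ) → V n m = univ := by
      intro n
      by_cases hn : ∃ m', V n m' = univ
      · obtain ⟨m, hm⟩ := hn
        exact ⟨m, fun _ => hm⟩
      · exact ⟨0, fun h => absurd h hn⟩
    choose g hg using hch
    refine ⟨_, g, hcase, fun y => ?_⟩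
    convert finite_empty
    ext n
    simp only [mem_ofPred_eq, mem_empty_iff_false, iff_false, not_and, not_not]
    intro hn
    rw [hg n hn]
    trivial
  · rw [not_infinite] at hcase
    obtain ⟨N, hN⟩ := hcase.bddAbove
    have hu : ∀ n m, V (N + 1 + n) m ≠ univ := by
      intro n m hm
      have := hN (show N + 1 + n ∈ {n | ∃ m, V n m = univ} from ⟨m, hm⟩)
      omega
    obtain ⟨U, hU1, hU2⟩ := h (fun n => range (V (N + 1 + n)))
      (fun n => isGammaCover_range _ (ho _) (hf _) (hu n))
    -- an infinite set of indices on which `U` is injective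
    have hinf : (range U).Infinite := hU2.infinite
    have hch : ∀ W : range U, ∃ n, U n = W := fun W => W.2
    choose idx hidx using hch
    have hinj : Function.Injective idx := by
      intro W W' hW
      apply Subtype.ext
      rw [← hidx W, ← hidx W', hW]
    choose g hg using hU1
    refine ⟨(fun n => N + 1 + n) '' range idx, fun n => g (n - (N + 1)), ?_, ?_⟩
    · apply Infinite.image
      · intro a _ b _ hab
        simp only at hab
        omega
      · have : Infinite (range U) := hinf.to_subtype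
        exact infinite_range_of_injective hinj
    · intro y
      have h1 := hU2.cofinite y
      have h2 : {W : range U | y ∉ (W : Set Y)}.Finite := by
        apply Finite.of_finite_image (f := Subtype.val) _ Subtype.val_injective.injOn
        apply h1.subset
        rintro _ ⟨W, hW, rfl⟩
        exact ⟨W.2, hW⟩
      apply ((h2.image idx).image (fun n => N + 1 + n)).subset
      rintro _ ⟨⟨_, ⟨W, rfl⟩, rfl⟩, hn⟩
      refine ⟨idx W, ⟨W, ?_, rfl⟩, rfl⟩
      have h3 : N + 1 + idx W - (N + 1) = idx W := by omega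
      simp only [h3] at hn
      rw [hg, hidx] at hn
      exact hn

/-- Spaces with the `γ`-property have selectors. -/
theorem GammaProperty.hasSelectors {Y : Type} [TopologicalSpace Y] [T1Space Y]
    (h : GammaProperty Y) : HasSelectors Y := by
  intro V ho hf
  rcases finite_or_infinite Y with hY | hY
  · -- finite spaces
    have hch : ∀ n, ∃ m, ∀ y, y ∈ V n m := by
      intro n
      have h1 : (⋃ y : Y, {m | y ∉ V n m}).Finite := finite_iUnion fun y => hf n y
      obtain ⟨m, hm⟩ := h1.exists_notMem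
      refine ⟨m, fun y => ?_⟩
      by_contra hy
      exact hm (mem_iUnion.2 ⟨y, hy⟩)
    choose g hg using hch
    refine ⟨univ, g, infinite_univ, fun y => ?_⟩
    convert finite_empty
    ext n
    simp [hg n y]
  by_cases hcase : {n | ∃ m, V n m = univ}.Infinite
  · have hch : ∀ n, ∃ m, (∃ m', V n m' = univ) → V n m = univ := by
      intro n
      by_cases hn : ∃ m', V n m' = univ
      · obtain ⟨m, hm⟩ := hn
        exact ⟨m, fun _ => hm⟩
      · exact ⟨0, fun h => absurd h hn⟩
    choose g hg using hch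
    refine ⟨_, g, hcase, fun y => ?_⟩
    convert finite_empty
    ext n
    simp only [mem_ofPred_eq, mem_empty_iff_false, iff_false, not_and, not_not]
    intro hn
    rw [hg n hn]
    trivial
  · rw [not_infinite] at hcase
    obtain ⟨N, hN⟩ := hcase.bddAbove
    have hu : ∀ n, N < n → ∀ m, V n m ≠ univ := by
      intro n hn m hm
      have := hN (show n ∈ {n | ∃ m, V n m = univ} from ⟨m, hm⟩)
      omega
    -- distinct points
    let x : ℕ → Y := Infinite.natEmbedding Y
    have hx : Function.Injective x := (Infinite.natEmbedding Y).injective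
    let 𝒲 : Set (Set Y) := {W | ∃ n m, N < n ∧ W = V n m \ {x n}}
    have h𝒲 : IsOmegaCover 𝒲 := by
      refine ⟨?_, ?_, ?_⟩
      · rintro _ ⟨n, m, _, rfl⟩
        exact (ho n m).sdiff isClosed_singleton
      · rintro ⟨n, m, _, hnm⟩
        have : x n ∈ V n m \ {x n} := by rw [← hnm]; trivial
        exact this.2 rfl
      · intro F hF
        have h1 : {n | x n ∈ F}.Finite := hF.preimage hx.injOn
        obtain ⟨n, hn⟩ := (h1.union (finite_Iic N)).exists_notMem
        have hn1 : x n ∉ F := fun h => hn (Or.inl h)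
        have hn2 : N < n := by
          by_contra hcon
          exact hn (Or.inr (not_lt.1 hcon))
        have h2 : (⋃ y ∈ F, {m | y ∉ V n m}).Finite := hF.biUnion fun y _ => hf n y
        obtain ⟨m, hm⟩ := h2.exists_notMem
        refine ⟨V n m \ {x n}, ⟨n, m, hn2, rfl⟩, fun y hy => ⟨?_, ?_⟩⟩
        · by_contra hyV
          exact hm (mem_biUnion hy hyV)
        · rintro rfl
          exact hn1 hy
    obtain ⟨𝒱, h𝒱1, h𝒱2⟩ := h 𝒲 h𝒲
    have hch : ∀ W : 𝒱, ∃ n m, N < n ∧ (W : Set Y) = V n m \ {x n} := fun W => h𝒱1 W.2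
    choose a b hab1 hab2 using hch
    -- every row is used finitely often
    have hrow : ∀ n, {W : 𝒱 | a W = n}.Finite := by
      intro n
      apply Finite.of_finite_image (f := Subtype.val) _ Subtype.val_injective.injOn
      apply (h𝒱2.cofinite (x n)).subset
      rintro _ ⟨W, hW, rfl⟩
      refine ⟨W.2, fun hmem => ?_⟩
      have hW' : a W = n := hW
      rw [hab2 W, hW'] at hmem
      exact hmem.2 rfl
    have hD : (range a).Infinite := by
      intro hfin
      have h1 : (⋃ n ∈ range a, {W : 𝒱 | a W = n}).Finite := hfin.biUnion fun n _ => hrow n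
      have h2 : (⋃ n ∈ range a, {W : 𝒱 | a W = n}) = univ := by
        ext W
        simp only [mem_iUnion, mem_univ, iff_true]
        exact ⟨a W, ⟨W, rfl⟩, rfl⟩
      rw [h2] at h1
      have : Infinite 𝒱 := h𝒱2.infinite.to_subtype
      exact infinite_univ h1
    have hch2 : ∀ n, ∃ W : 𝒱, n ∈ range a → a W = n := by
      intro n
      by_cases hn : n ∈ range a
      · obtain ⟨W, hW⟩ := hn
        exact ⟨W, fun _ => hW⟩
      · obtain ⟨W, hW⟩ := h𝒱2.infinite.nonempty
        exact ⟨⟨W, hW⟩, fun h => absurd h hn⟩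
    choose w hw using hch2
    refine ⟨range a, fun n => b (w n), hD, fun y => ?_⟩
    have h2 : {W : 𝒱 | y ∉ (W : Set Y)}.Finite := by
      apply Finite.of_finite_image (f := Subtype.val) _ Subtype.val_injective.injOn
      apply (h𝒱2.cofinite y).subset
      rintro _ ⟨W, hW, rfl⟩
      exact ⟨W.2, hW⟩
    apply (h2.image a).subset
    rintro n ⟨hn1, hn2⟩
    refine ⟨w n, ?_, hw n hn1⟩
    intro hmem
    apply hn2
    rw [hab2 (w n), hw n hn1] at hmem
    exact hmem.1

/-! ## The two combinatorial lemmas -/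

/-- Fewer than `cov(M)` infinite partial functions can be matched infinitely often by one function. -/
theorem exists_matching {A : Type} (hA : #A < covM) (D : A → Set ℕ) (g : A → ℕ → ℕ)
    (hD : ∀ a, (D a).Infinite) : ∃ f : ℕ → ℕ, ∀ a, {n ∈ D a | f n = g a n}.Infinite := by
  classical
  -- the function coded by a point of the Cantor space
  let F : (ℕ → Bool) → ℕ → ℕ := fun x n =>
    if h : ∃ k, x (Nat.pair n k) = true then Nat.find h else 0
  let C : ℕ → ℕ → Set (ℕ → Bool) := fun n v =>
    {x | (∀ k < v, x (Nat.pair n k) = false) ∧ x (Nat.pair n v) = true}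
  have hC : ∀ n v, ∀ x ∈ C n v, F x n = v := by
    rintro n v x ⟨h1, h2⟩
    have h : ∃ k, x (Nat.pair n k) = true := ⟨v, h2⟩
    simp only [F, dif_pos h]
    rw [Nat.find_eq_iff]
    exact ⟨h2, fun k hk => by rw [h1 k hk]; simp⟩
  have hCo : ∀ n v, IsOpen (C n v) := by
    intro n v
    have h1 : C n v = (⋂ k ∈ Finset.range v, {x : ℕ → Bool | x (Nat.pair n k) = false}) ∩
        {x | x (Nat.pair n v) = true} := by
      ext x
      simp [C]
    rw [h1]
    apply IsOpen.inter
    · apply isOpen_biInter_finset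
      intro k _
      exact (isOpen_discrete ({false} : Set Bool)).preimage
        (continuous_apply (A := fun _ : ℕ => Bool) (Nat.pair n k))
    · exact (isOpen_discrete ({true} : Set Bool)).preimage
        (continuous_apply (A := fun _ : ℕ => Bool) (Nat.pair n v))
  let E : A → Set (ℕ → Bool) := fun a => {x | {n ∈ D a | F x n = g a n}.Infinite}
  have hE : ∀ a, IsMeagre (E a)ᶜ := by
    intro a
    rw [IsMeagre, compl_compl]
    have h1 : (⋂ N : ℕ, ⋃ n ∈ D a ∩ Ici N, C n (g a n)) ⊆ E a := by
      intro x hx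
      show {n ∈ D a | F x n = g a n}.Infinite
      rw [infinite_iff_exists_gt]
      intro N
      have := mem_iInter.1 hx (N + 1)
      simp only [mem_iUnion] at this
      obtain ⟨n, ⟨hn1, hn2⟩, hn3⟩ := this
      have hn2' : N + 1 ≤ n := hn2
      exact ⟨n, ⟨hn1, hC n _ x hn3⟩, by omega⟩
    refine Filter.mem_of_superset ?_ h1
    rw [countable_iInter_mem]
    intro N
    apply residual_of_dense_open
    · apply isOpen_biUnion
      intro n _
      exact hCo n _
    · rw [dense_iff_inter_open]
      rintro O hO ⟨x, hx⟩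
      -- a finite set of coordinates
      rw [isOpen_pi_iff] at hO
      obtain ⟨I, u, hu1, hu2⟩ := hO x hx
      have hfin : (D a ∩ Ici N ∩ {n | ∃ i ∈ I, n = (Nat.unpair i).1}).Finite := by
        apply Finite.subset (I.finite_toSet.image fun i => (Nat.unpair i).1)
        rintro n ⟨_, i, hi, rfl⟩
        exact ⟨i, hi, rfl⟩
      have hinf : (D a ∩ Ici N).Infinite := by
        have h2 : (D a \ Iio N).Infinite := (hD a).sdiff (finite_Iio N)
        apply h2.mono
        rintro n ⟨h3, h4⟩
        exact ⟨h3, mem_Ici.2 (not_lt.1 h4)⟩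
      obtain ⟨n, hn1, hn2⟩ := (hinf.sdiff hfin).nonempty
      have hn3 : ∀ i ∈ I, n ≠ (Nat.unpair i).1 := by
        intro i hi h
        exact hn2 ⟨hn1, i, hi, h⟩
      refine ⟨fun i => if (Nat.unpair i).1 = n then decide ((Nat.unpair i).2 = g a n) else x i,
        ?_, ?_⟩
      · apply hu2
        intro i hi
        have : (Nat.unpair i).1 ≠ n := fun h => hn3 i hi h.symm
        simp only [this, if_false]
        exact (hu1 i hi).2
      · apply mem_biUnion hn1
        constructor
        · intro k hk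
          simp [hk.ne]
        · simp
  -- the complements do not cover
  by_contra hcon
  push Not at hcon
  have hcov : ⋃₀ (range fun a => (E a)ᶜ) = univ := by
    ext x
    simp only [mem_univ, iff_true]
    obtain ⟨a, ha⟩ := hcon (F x)
    exact ⟨(E a)ᶜ, ⟨a, rfl⟩, fun h => not_infinite.2 ha h⟩
  have hle : covM ≤ #(range fun a => (E a)ᶜ) := by
    apply csInf_le'
    refine ⟨_, rfl, ?_, hcov⟩
    rintro _ ⟨a, rfl⟩
    exact hE a
  exact absurd (hle.trans Cardinal.mk_range_le) (not_le.2 hA)

/-- The next element of `X` after `n` (zero if there is none). -/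
noncomputable def next (X : Set ℕ) (n : ℕ) : ℕ := sInf {m ∈ X | n ≤ m}

/-- The family attached to a matrix whose rows converge, in a space with selectors, is groupwise
dense. -/
theorem groupwiseDense_of_hasSelectors {Y : Type} [TopologicalSpace Y] (h : HasSelectors Y)
    (V : ℕ → ℕ → Set Y) (ho : ∀ n m, IsOpen (V n m)) (hf : ∀ n y, {m | y ∉ V n m}.Finite) :
    GroupwiseDense {X | X.Infinite ∧ ∀ X' : Set ℕ, X'.Infinite → (X' \ X).Finite →
      ∀ y, ∃ n, y ∈ V n (next X' n)} := by
  refine ⟨fun X hX => hX.1, ?_, ?_⟩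
  · rintro X ⟨hX1, hX2⟩ X' hX' hfin
    refine ⟨hX', fun X'' hX'' hfin' y => hX2 X'' hX'' ?_ y⟩
    apply (hfin.union hfin').subset
    rintro m ⟨hm1, hm2⟩
    by_cases hm : m ∈ X'
    · exact Or.inl ⟨hm, hm2⟩
    · exact Or.inr ⟨hm1, hm⟩
  · intro p hp hp0
    -- the matrix of intersections over the intervals, shifted
    let W : ℕ → ℕ → Set Y := fun n k => ⋂ m ∈ Finset.Ico (p (k + n)) (p (k + n + 1)), V n m
    have hWo : ∀ n k, IsOpen (W n k) := by
      intro n k
      apply isOpen_biInter_finset
      intro m _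
      exact ho n m
    have hpk : ∀ k, k ≤ p k := fun k => hp.id_le k
    have hWf : ∀ n y, {k | y ∉ W n k}.Finite := by
      intro n y
      obtain ⟨M, hM⟩ := (hf n y).bddAbove
      apply (finite_Iic M).subset
      intro k hk
      simp only [W, mem_ofPred_eq, mem_iInter, not_forall] at hk
      obtain ⟨m, hm1, hm2⟩ := hk
      rw [Finset.mem_Ico] at hm1
      have h1 := hM hm2
      have h2 := hpk (k + n)
      simp only [mem_Iic]
      omega
    obtain ⟨D, g, hD, hg⟩ := h W hWo hWf
    -- the selected blocks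
    have hnext : ∀ N, ∃ n ∈ D, N < n := fun N => hD.exists_gt N
    choose nx hnx1 hnx2 using hnext
    -- `s j` is the row used for the `j`-th block, the block is `κ (s j) = g (s j) + s j`
    let κ : ℕ → ℕ := fun n => g n + n
    let s : ℕ → ℕ := fun j => Nat.rec (nx 0) (fun _ n => nx (p (κ n + 1))) j
    have hs0 : s 0 = nx 0 := rfl
    have hss : ∀ j, s (j + 1) = nx (p (κ (s j) + 1)) := fun j => rfl
    have hsD : ∀ j, s j ∈ D := by
      intro j
      cases j with
      | zero => exact hnx1 0
      | succ j => rw [hss]; exact hnx1 _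
    have hstep : ∀ j, p (κ (s j) + 1) < s (j + 1) := by
      intro j
      rw [hss]
      exact hnx2 _
    have hsp : ∀ j, s j ≤ p (κ (s j)) := by
      intro j
      have h1 := hpk (κ (s j))
      have h2 : s j ≤ κ (s j) := Nat.le_add_left _ _
      omega
    have hsm : StrictMono s := by
      apply strictMono_nat_of_lt_succ
      intro j
      have h1 := hsp j
      have h2 := hstep j
      have h3 := hp (Nat.lt_succ_self (κ (s j)))
      exact lt_of_le_of_lt (h1.trans h3.le) h2
    have hκm : StrictMono fun j => κ (s j) := by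
      apply strictMono_nat_of_lt_succ
      intro j
      have h2 := hstep j
      have h3 := hpk (κ (s j) + 1)
      have h4 : s (j + 1) ≤ κ (s (j + 1)) := Nat.le_add_left _ _
      show κ (s j) < κ (s (j + 1))
      omega
    let K : Set ℕ := range fun j => κ (s j)
    have hK : K.Infinite := infinite_range_of_injective hκm.injective
    let X : Set ℕ := ⋃ k ∈ K, Ico (p k) (p (k + 1))
    have hXmem : ∀ m, m ∈ X ↔ ∃ j, p (κ (s j)) ≤ m ∧ m < p (κ (s j) + 1) := by
      intro m
      simp only [X, K, mem_iUnion, mem_range, mem_Ico, exists_prop]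
      constructor
      · rintro ⟨_, ⟨j, rfl⟩, h1, h2⟩
        exact ⟨j, h1, h2⟩
      · rintro ⟨j, h1, h2⟩
        exact ⟨_, ⟨j, rfl⟩, h1, h2⟩
    refine ⟨K, hK, ?_, ?_⟩
    · apply (infinite_range_of_injective (f := fun j => p (κ (s j)))
        (hp.injective.comp hκm.injective)).mono
      rintro _ ⟨j, rfl⟩
      exact (hXmem _).2 ⟨j, le_rfl, hp (Nat.lt_succ_self _)⟩
    · intro X' hX' hfin y
      -- bounds for the exceptional sets
      obtain ⟨M, hM⟩ := hfin.bddAbove
      have hbad : {j | s j ∈ {n ∈ D | y ∉ W n (g n)}}.Finite :=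
        (hg y).preimage hsm.injective.injOn
      obtain ⟨J, hJ⟩ := hbad.bddAbove
      -- an element of `X'` in a late block
      obtain ⟨m, hmX', hm⟩ := hX'.exists_gt (M + p (κ (s (J + M + 1)) + 1))
      have hmX : m ∈ X := by
        by_contra hcon
        have := hM ⟨hmX', hcon⟩
        omega
      obtain ⟨j, hj1, hj2⟩ := (hXmem m).1 hmX
      have hjJ : J + M + 1 < j := by
        by_contra hcon
        have h1 : κ (s j) ≤ κ (s (J + M + 1)) := hκm.monotone (not_lt.1 hcon)
        have h2 := hp.monotone (Nat.succ_le_succ h1)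
        have h3 : p (κ (s j) + 1) ≤ p (κ (s (J + M + 1)) + 1) := h2
        omega
      refine ⟨s j, ?_⟩
      -- the next element of `X'` after `s j` lies in the `j`-th block
      have hne : {m ∈ X' | s j ≤ m}.Nonempty := ⟨m, hmX', (hsp j).trans hj1⟩
      have hmin := Nat.sInf_mem hne
      have hle : next X' (s j) ≤ m := Nat.sInf_le ⟨hmX', (hsp j).trans hj1⟩
      have h1 : next X' (s j) ∈ X' := hmin.1
      have h2 : s j ≤ next X' (s j) := hmin.2
      have hjs : j ≤ s j := hsm.id_le j
      have h3 : next X' (s j) ∈ X := by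
        by_contra hcon
        have := hM ⟨h1, hcon⟩
        omega
      obtain ⟨i, hi1, hi2⟩ := (hXmem _).1 h3
      have hij : i = j := by
        rcases lt_trichotomy i j with hlt | heq | hgt
        · exfalso
          have h4 : s (i + 1) ≤ s j := hsm.monotone hlt
          have h5 := hstep i
          omega
        · exact heq
        · exfalso
          have h4 : κ (s j) + 1 ≤ κ (s i) := hκm hgt
          have h5 := hp.monotone h4
          omega
      subst hij
      have hgood : y ∈ W (s i) (g (s i)) := by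
        by_contra hcon
        have := hJ (show i ∈ {j | s j ∈ {n ∈ D | y ∉ W n (g n)}} from ⟨hsD i, hcon⟩)
        omega
      simp only [W, mem_iInter] at hgood
      apply hgood
      rw [Finset.mem_Ico]
      exact ⟨hi1, hi2⟩

/-! ## Unions and products -/

/-- A space which is covered by fewer than `max (cov(M)) 𝔤` continuous images of spaces with
selectors satisfies `S₁(Γ, O)`. -/
theorem s1GammaO_of_maps {X A : Type} [TopologicalSpace X] (Y : A → Type)
    [∀ a, TopologicalSpace (Y a)] (φ : ∀ a, Y a → X) (hφ : ∀ a, Continuous (φ a))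
    (hcov : ∀ x, ∃ a y, φ a y = x) (hY : ∀ a, HasSelectors (Y a))
    (hA : #A < max covM gNum) : S1GammaO X := by
  intro 𝒰 h𝒰
  -- enumerations without repetition
  have hen : ∀ n, ∃ e : ℕ → Set X, Function.Injective e ∧ ∀ m, e m ∈ 𝒰 n := by
    intro n
    have : Infinite (𝒰 n) := (h𝒰 n).infinite.to_subtype
    exact ⟨fun m => (Infinite.natEmbedding (𝒰 n) m : Set X),
      fun m m' hmm => (Infinite.natEmbedding (𝒰 n)).injective (Subtype.ext hmm),
      fun m => (Infinite.natEmbedding (𝒰 n) m).2⟩
  choose U hUinj hU using hen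
  have hUf : ∀ n z, {m | z ∉ U n m}.Finite := by
    intro n z
    apply Finite.of_finite_image (f := U n) _ (hUinj n).injOn
    apply ((h𝒰 n).cofinite z).subset
    rintro _ ⟨m, hm, rfl⟩
    exact ⟨hU n m, hm⟩
  let V : ∀ a, ℕ → ℕ → Set (Y a) := fun a n m => φ a ⁻¹' U n m
  have hVo : ∀ a n m, IsOpen (V a n m) := by
    intro a n m
    exact ((h𝒰 n).isOpen _ (hU n m)).preimage (hφ a)
  have hVf : ∀ a n y, {m | y ∉ V a n m}.Finite := fun a n y => hUf n (φ a y)
  suffices hmain : ∃ f : ℕ → ℕ, ∀ a y, ∃ n, y ∈ V a n (f n) by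
    obtain ⟨f, hf⟩ := hmain
    refine ⟨fun n => U n (f n), fun n => hU n (f n), ?_⟩
    ext x
    simp only [mem_iUnion, mem_univ, iff_true]
    obtain ⟨a, y, rfl⟩ := hcov x
    exact hf a y
  rcases lt_max_iff.1 hA with hA | hA
  · have hsel := fun a => hY a (V a) (hVo a) (hVf a)
    choose D g hD hg using hsel
    obtain ⟨f, hf⟩ := exists_matching hA D g hD
    refine ⟨f, fun a y => ?_⟩
    obtain ⟨n, ⟨hn1, hn2⟩, hn3⟩ := ((hf a).sdiff (hg a y)).nonempty
    refine ⟨n, ?_⟩
    rw [hn2]
    by_contra hcon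
    exact hn3 ⟨hn1, hcon⟩
  · let 𝒢 : A → Set (Set ℕ) := fun a => {X | X.Infinite ∧ ∀ X' : Set ℕ, X'.Infinite →
      (X' \ X).Finite → ∀ y, ∃ n, y ∈ V a n (next X' n)}
    have h𝒢 : ∀ a, GroupwiseDense (𝒢 a) := fun a =>
      groupwiseDense_of_hasSelectors (hY a) (V a) (hVo a) (hVf a)
    have hne : (⋂₀ (range 𝒢)).Nonempty := by
      rw [nonempty_iff_ne_empty]
      intro hempty
      have hle : gNum ≤ #(range 𝒢) := by
        apply csInf_le'
        refine ⟨_, rfl, ?_, hempty⟩
        rintro _ ⟨a, rfl⟩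
        exact h𝒢 a
      exact absurd (hle.trans Cardinal.mk_range_le) (not_le.2 hA)
    obtain ⟨X, hX⟩ := hne
    refine ⟨next X, fun a y => ?_⟩
    have hXa : X ∈ 𝒢 a := hX (𝒢 a) ⟨a, rfl⟩
    exact hXa.2 X hXa.1 (by simp) y

/-- The product theorem. -/
theorem s1GammaO_prod {A Y : Type} [TopologicalSpace A] [TopologicalSpace Y]
    (hY : HasSelectors Y) (hA : #A < max covM gNum) : S1GammaO (A × Y) :=
  s1GammaO_of_maps (fun _ : A => Y) (fun a y => (a, y)) (fun a => by fun_prop)
    (fun x => ⟨x.1, x.2, rfl⟩) (fun _ => hY) hA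

/-- The union theorem. -/
theorem s1GammaO_iUnion {A X : Type} [TopologicalSpace X] (P : A → Set X)
    (hP : ⋃ a, P a = univ) (hY : ∀ a, HasSelectors (P a)) (hA : #A < max covM gNum) :
    S1GammaO X :=
  s1GammaO_of_maps (fun a : A => P a) (fun a y => (y : X)) (fun a => continuous_subtype_val)
    (fun x => by
      have hx : x ∈ ⋃ a, P a := by rw [hP]; trivial
      obtain ⟨a, ha⟩ := mem_iUnion.1 hx
      exact ⟨a, ⟨x, ha⟩, rfl⟩) hY hA

end MP820b44
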