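import Pool.Agent.Lib.MP_e6371f_lc.W
import Pool.Agent.Lib.MP_820b44_gt.Core

/-!
# The set of conditions

`W` is the first uncountable ordinal (the levels), `Om = Set W` is the set of indices of the Cohen
reals.  A condition consists of finitely many finite sequences of natural numbers (Cohen reals
`c ξ`), finitely many finite sequences of zeros and ones (the tower `a β`), finitely many atoms
`(β, U, m)` (the number `m` is in `B (β, U)`) and finitely many side atoms `(β, U, a)` (promises
for all later elements of `B (β, U)`).  `U : Cd` is a code of a name of a set of natural numbers.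
The order `Le γ` compares only the levels below `γ`; `Le ⊤` is the order of the poset.
-/

set_option autoImplicit false
set_option linter.unusedSectionVars false
set_option linter.unusedVariables false

open Set

namespace Pool.Agent.B820

open Pool.Agent.Lib.MP_e6371f_lc (W)
open Pool.Agent.Lib.MP_820b44_gt (Cl)

/-- the indices of the Cohen reals -/
abbrev Om : Type := Set W

/-- side atoms: the point `a δ [x]`, or the compact set of all `y` that agree with the finite
sequence `w` below its length and are contained in `a β` from then on -/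
inductive Sd (C : Type) : Type
  | pt (δ : W) (x : C)
  | wd (w : List Bool)

/-- conditions, over a type `C` of codes -/
@[ext]
structure Cond (C : Type) : Type where
  c : Om → List ℕ
  t : W → List Bool
  s : Set (W × C × ℕ)
  d : Set (W × C × Sd C)
  fc : {ξ | c ξ ≠ []}.Finite
  ft : {β | t β ≠ []}.Finite
  fs : s.Finite
  fd : d.Finite

/-- change the codes in a side atom -/
def Sd.map {C C' : Type} (f : C → C') : Sd C → Sd C'
  | .pt δ x => .pt δ (f x)
  | .wd w => .wd w

/-- change the codes in a condition -/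
def Cond.map {C C' : Type} (f : C → C') (p : Cond C) : Cond C' where
  c := p.c
  t := p.t
  s := (fun z => (z.1, f z.2.1, z.2.2)) '' p.s
  d := (fun z => (z.1, f z.2.1, z.2.2.map f)) '' p.d
  fc := p.fc
  ft := p.ft
  fs := p.fs.image _
  fd := p.fd.image _

/-- codes of names of sets of natural numbers -/
inductive Cd : Type
  | nil
  | mk (sh : ℕ → ℕ → Option (Cond ℕ)) (ch : ℕ → Cd)

/-- conditions -/
abbrev Cn : Type := Cond Cd

/-- the countable set of conditions that put `n` into the set with code `x` -/
def Cd.gen : Cd → ℕ → Set Cn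
  | .nil, _ => ∅
  | .mk sh ch, n => {q | ∃ i p, sh n i = some p ∧ q = p.map ch}

/-! ### Finite sequences and clopen sets -/

/-- the sequence `v` followed by zeros -/
def pd (v : List Bool) (k : ℕ) : Bool := v.getD k false

/-- the number of ones of `v` before the place `k` -/
def cnt (v : List Bool) (k : ℕ) : ℕ := (v.take k).count true

/-- `a [x]`: the elements of `a` with number `i` for `i` in `x`; here `t` and `v` are initial
segments of `a` and `x` -/
def pts (t v : List Bool) : ℕ → Bool := fun k => pd t k && pd v (cnt t k)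

/-- the modulus of the `m`-th clopen set -/
noncomputable def md (m : ℕ) : ℕ := (Cl m).1

/-- the `m`-th clopen set -/
def cl (m : ℕ) : Set (ℕ → Bool) := {z | ∃ s ∈ (Cl m).2, ∀ i < md m, (z i = true ↔ i ∈ s)}

/-! ### The order -/

/-- the condition `p` puts `n` into the set with code `x`; `L` is the order -/
def ev (L : Cn → Cn → Prop) (x : Cd) (n : ℕ) (p : Cn) : Prop := ∃ q ∈ x.gen n, L p q

/-- `p` decides that `v` is an initial segment of the real with code `x` -/
def Dec (L : Cn → Cn → Prop) (x : Cd) (v : List Bool) (p : Cn) : Prop :=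
  ∀ n < v.length, (pd v n = true → ev L x n p) ∧ (pd v n = false → ∀ q, L q p → ¬ ev L x n q)

/-- `p` decides that the point `a δ [x]` is in the `m`-th clopen set; `L` is the order of
level `δ` -/
def Din (L : Cn → Cn → Prop) (δ : W) (x : Cd) (m : ℕ) (p : Cn) : Prop :=
  md m ≤ (p.t δ).length ∧
    ∃ v : List Bool, cnt (p.t δ) (md m) ≤ v.length ∧ Dec L x v p ∧ pts (p.t δ) v ∈ cl m

/-- the finite sequence `t` decides that the compact set given by `w` is contained in the `m`-th
clopen set -/
def Kin (t w : List Bool) (m : ℕ) : Prop :=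
  md m ≤ t.length ∧ ∀ y : ℕ → Bool, (∀ k < w.length, y k = pd w k) →
    (∀ k, w.length ≤ k → y k = true → pd t k = true) → y ∈ cl m

/-- `p` allows `m` as a new element of `B (β, U)` with respect to the promise `a`; `L δ` is the
order of level `δ` -/
def Okk (L : W → Cn → Cn → Prop) (β : W) (U : Cd) (m : ℕ) (p : Cn) : Sd Cd → Prop
  | .pt δ x => ev (L β) U m p ∧ (δ < β → Din (L δ) δ x m p)
  | .wd w => ev (L β) U m p ∧ Kin (p.t β) w m

/-- the clauses of the order of level `γ`; `L δ` is the order of level `δ < γ` -/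
structure Body (L : W → Cn → Cn → Prop) (γ : WithTop W) (p q : Cn) : Prop where
  c : ∀ ξ, q.c ξ <+: p.c ξ
  t : ∀ β : W, (β : WithTop W) < γ → q.t β <+: p.t β
  tw : ∀ β : W, (β : WithTop W) < γ → q.t β ≠ [] → ∀ m, (q.t β).length ≤ m →
    pd (p.t β) m = true → ∀ δ < β, q.t δ ≠ [] → pd (p.t δ) m = true
  s : ∀ (β : W) (U : Cd) (m : ℕ), (β : WithTop W) < γ → (β, U, m) ∈ q.s → (β, U, m) ∈ p.s
  d : ∀ (β : W) (U : Cd) (a : Sd Cd), (β : WithTop W) < γ → (β, U, a) ∈ q.d → (β, U, a) ∈ p.d
  ok : ∀ (β : W) (U : Cd) (m : ℕ) (a : Sd Cd), (β : WithTop W) < γ → (β, U, m) ∈ p.s → (β, U, m) ∉ q.s →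
    (β, U, a) ∈ q.d → Okk L β U m p a

/-- `Le γ p q`: at the levels below `γ`, the condition `p` is stronger than `q` -/
noncomputable def Le : WithTop W → Cn → Cn → Prop :=
  (wellFounded_lt (α := WithTop W)).fix fun γ ih p q =>
    Body (fun β p' q' => ∃ h : (β : WithTop W) < γ, ih β h p' q') γ p q

/-- all data of `p` are at levels below `γ` (except for the Cohen reals) -/
def Supp (γ : W) (p : Cn) : Prop :=
  (∀ β, γ ≤ β → p.t β = []) ∧ (∀ β U m, (β, U, m) ∈ p.s → β < γ) ∧
    ∀ β U a, (β, U, a) ∈ p.d → β < γ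

/-- the data of `q` at the levels below `γ`, those of `r` at the other levels, and the Cohen reals
of `q` -/
noncomputable def graft (γ : W) (q r : Cn) : Cn where
  c := q.c
  t := fun β => if β < γ then q.t β else r.t β
  s := {z | z ∈ q.s ∧ z.1 < γ ∨ z ∈ r.s ∧ γ ≤ z.1}
  d := {z | z ∈ q.d ∧ z.1 < γ ∨ z ∈ r.d ∧ γ ≤ z.1}
  fc := q.fc
  ft := (q.ft.union r.ft).subset fun β hβ => by
    simp only [mem_ofPred_eq, ne_eq] at hβ
    by_cases h : β < γ
    · rw [if_pos h] at hβ; exact Or.inl hβ
    · rw [if_neg h] at hβ; exact Or.inr hβ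
  fs := (q.fs.union r.fs).subset fun z hz => hz.elim (fun h => Or.inl h.1) fun h => Or.inr h.1
  fd := (q.fd.union r.fd).subset fun z hz => hz.elim (fun h => Or.inl h.1) fun h => Or.inr h.1

/-- the empty condition -/
def Cond.one : Cn where
  c := fun _ => []
  t := fun _ => []
  s := ∅
  d := ∅
  fc := by simp
  ft := by simp
  fs := finite_empty
  fd := finite_empty

/-! ### The invariant -/

/-- `p` decides that `v i` is an initial segment of the real with code `x i` of level `b i` -/
def Decs {ι : Type} (b : ι → W) (x : ι → Cd) (v : ι → List Bool) (p : Cn) : Prop :=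
  ∀ i, Dec (Le (b i)) (x i) (v i) p

/-- A name (of level `γ`) of a sequence of families of open sets: `O n j v` is the set of the
conditions that put the basic open set given by `v` into the `j`-th open set of the `n`-th
family. -/
structure Fam (γ : WithTop W) {ι : Type} (O : ℕ → ℕ → (ι → List Bool) → Set Cn) : Prop where
  down : ∀ n j v p q, Le γ q p → p ∈ O n j v → q ∈ O n j v
  mono : ∀ n j v, O n j v ⊆ O n (j + 1) v

/-- the families `O n` are covers of the space of all reals with codes of the levels `b i` -/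
def Cov (γ : WithTop W) {ι : Type} (b : ι → W) (O : ℕ → ℕ → (ι → List Bool) → Set Cn) : Prop :=
  ∀ (x : ι → Cd) (n : ℕ) (p : Cn), ∃ q, Le γ q p ∧ ∃ j v, Decs b x v q ∧ q ∈ O n j v

/-- the Cohen real `c ξ` hits every point infinitely often -/
def Hit (γ : WithTop W) {ι : Type} (b : ι → W) (O : ℕ → ℕ → (ι → List Bool) → Set Cn)
    (ξ : Om) : Prop :=
  ∀ (x : ι → Cd) (N : ℕ) (p : Cn), ∃ q, Le γ q p ∧ ∃ n j v, N ≤ n ∧ Decs b x v q ∧ q ∈ O n j v ∧
    ∃ h : n < (q.c ξ).length, j ≤ (q.c ξ)[n]

/-- for each cover with a name of level `γ` of a product of sets of reals of levels `< γ`, all but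
countably many Cohen reals hit every point infinitely often -/
def Inv (γ : W) : Prop :=
  ∀ (ι : Type) [Finite ι] (b : ι → W), (∀ i, b i < γ) →
    ∀ O : ℕ → ℕ → (ι → List Bool) → Set Cn, Fam γ O → Cov γ b O →
      ∃ S : Set Om, S.Countable ∧ ∀ ξ, ξ ∉ S → Hit γ b O ξ

/-- the same for products of sets of reals of levels `≤ γ` -/
def Inw (γ : W) : Prop :=
  ∀ (ι : Type) [Finite ι] (b : ι → W), (∀ i, b i ≤ γ) →
    ∀ O : ℕ → ℕ → (ι → List Bool) → Set Cn, Fam γ O → Cov γ b O →
      ∃ S : Set Om, S.Countable ∧ ∀ ξ, ξ ∉ S → Hit γ b O ξ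

end Pool.Agent.B820
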