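import Pool.Agent.Lib.MP_820b44_gt.Spec

/-!
# The field `dom` of the interface
-/

set_option autoImplicit false
set_option linter.unusedSectionVars false
set_option linter.unusedVariables false

open Set Cardinal

namespace Pool.Agent.B820

open Pool.Agent.SymExt
open Pool.Agent.Lib.MP_e6371f_lc (W W_card)

open Classical in
/-- change one Cohen real -/
noncomputable def setc (p : Cn) (ξ : Om) (v : List ℕ) : Cn where
  c := fun ζ => if ζ = ξ then v else p.c ζ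
  t := p.t
  s := p.s
  d := p.d
  fc := (p.fc.union (finite_singleton ξ)).subset fun ζ hζ => by
    simp only [mem_ofPred_eq, ne_eq] at hζ
    by_cases h : ζ = ξ
    · exact Or.inr h
    · rw [if_neg h] at hζ; exact Or.inl hζ
  ft := p.ft
  fs := p.fs
  fd := p.fd

theorem setc_self (p : Cn) (ξ : Om) (v : List ℕ) : (setc p ξ v).c ξ = v := if_pos rfl

theorem setc_le {p : Cn} {ξ : Om} {v : List ℕ} (h : p.c ξ <+: v) : setc p ξ v ≤ p := by
  refine Le_iff.2 ⟨fun ζ => ?_, fun β _ => List.prefix_rfl, fun β _ _ m hm hp => ?_,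
    fun _ _ _ _ h => h, fun _ _ _ _ h => h, fun _ _ _ _ _ h1 h2 _ => absurd h1 h2⟩
  · change _ <+: (if ζ = ξ then v else p.c ζ)
    by_cases hζ : ζ = ξ
    · rw [if_pos hζ, hζ]; exact h
    · rw [if_neg hζ]
  · exact absurd (lt_of_pd hp) (not_lt.2 hm)

theorem dom_one (hP : S_Pred) (hI : S_Inva) (p : Cn) (G : ℕ → ℕ → RO Cn)
    (hG : ∀ n k k', ∀ q ≤ p, G n k q → G n k' q → k = k') :
    ∃ S : Set Om, S.Countable ∧ ∀ ξ, ξ ∉ S → ∀ N, ∀ q ≤ p, ¬ ∀ n ≥ N, ∀ r ≤ q,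
      ∃ s ≤ r, ∃ k l, G n k s ∧ cN ξ n l s ∧ l ≤ k := by
  let A : ℕ → Set Cn := fun n => {q | (∃ k, G n k q) ∨ ∀ r ≤ q, ∀ k, ¬ G n k r}
  have hA : ∀ n q, ∃ r ≤ q, r ∈ A n := by
    intro n q
    by_cases h : ∃ r ≤ q, ∃ k, G n k r
    · obtain ⟨r, hr, k, hk⟩ := h
      exact ⟨r, hr, Or.inl ⟨k, hk⟩⟩
    · refine ⟨q, le_rfl, Or.inr fun r hr k hk => h ⟨r, hr, k, hk⟩⟩
  choose B hBA hBc hB using fun n => hP ⊤ (A n)
  obtain ⟨β, hβ⟩ := exists_supp (countable_iUnion hBc)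
  let O : ℕ → ℕ → (Empty → List Bool) → Set Cn := fun n j _ =>
    {q | ∃ a ∈ B n, Le β q a ∧ ((∃ k < j, G n k a) ∨ ∀ r ≤ a, ∀ k, ¬ G n k r)}
  have hF : Fam (β : WithTop W) O := by
    refine ⟨?_, ?_⟩
    · rintro n j v q r hr ⟨a, ha, h1, h2⟩
      exact ⟨a, ha, Le_trans hr h1, h2⟩
    · rintro n j v q ⟨a, ha, h1, h2⟩
      refine ⟨a, ha, h1, h2.imp ?_ id⟩
      rintro ⟨k, hk, h3⟩
      exact ⟨k, by omega, h3⟩
  have hC : Cov (β : WithTop W) (fun e : Empty => e.elim) O := by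
    intro x n q
    obtain ⟨q', hq', hqA⟩ := hA n q
    obtain ⟨a, ha, r, hr1, hr2⟩ := hB n q' hqA
    have hrq : r ≤ q := le_trans (show r ≤ q' from hr1) hq'
    have hra : r ≤ a := hr2
    rcases hBA n ha with ⟨k, hk⟩ | h
    · exact ⟨r, le_Le hrq β, k + 1, fun e => e.elim, fun e => e.elim, a, ha, le_Le hra β,
        Or.inl ⟨k, by omega, hk⟩⟩
    · exact ⟨r, le_Le hrq β, 0, fun e => e.elim, fun e => e.elim, a, ha, le_Le hra β, Or.inr h⟩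
  obtain ⟨S, hS, hHit⟩ := hI β Empty (fun e => e.elim) (fun e => e.elim) O hF hC
  refine ⟨S, hS, fun ξ hξ N q hq H => ?_⟩
  obtain ⟨q₁, hq₁, n, j, v, hN, -, ⟨a, ha, h1, h2⟩, hlen, hj⟩ :=
    hHit ξ hξ (fun e => e.elim) N q
  have hrq : graft β q₁ q ≤ q := graft_le hq₁ ⊤
  have hra : graft β q₁ q ≤ a :=
    Le_of_supp (hβ a (mem_iUnion.2 ⟨n, ha⟩)) (Le_trans (graft_eqv β q₁ q).le h1) ⊤
  obtain ⟨s, hs, k, l, hk, hl, hlk⟩ := H n hN _ hrq
  rcases h2 with ⟨k₀, hk₀, hG₀⟩ | h2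
  · have hsp : s ≤ p := (hs.trans hrq).trans hq
    have hkk : k = k₀ := hG n k k₀ s hsp hk ((G n k₀).mono (hs.trans hra) hG₀)
    obtain ⟨s', hs', h3⟩ := hl s le_rfl
    obtain ⟨h4, h5⟩ := h3 s' le_rfl
    have hs'r : s' ≤ graft β q₁ q := hs'.trans hs
    have h6 : q₁.c ξ <+: s'.c ξ := hs'r.body.c ξ
    have h7 : (q₁.c ξ)[n] = (s'.c ξ)[n] := h6.getElem hlen
    omega
  · exact h2 s (hs.trans hra) k hk

theorem tDom (hP : S_Pred) (hI : S_Inva) : S_Dom := by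
  intro p g hg
  choose S hSc hS using fun i => dom_one hP hI p (g i) (hg i)
  obtain ⟨ξ, hξ⟩ : ∃ ξ : Om, ξ ∉ ⋃ i, S i := by
    by_contra hc
    push Not at hc
    have hu : (⋃ i, S i) = Set.univ := eq_univ_of_forall hc
    have h1 : #(⋃ i, S i : Set Om) ≤ ℵ₁ := by
      refine (mk_iUnion_le _).trans ?_
      rw [W_card]
      have h2 : (⨆ i, #(S i)) ≤ ℵ₁ :=
        ciSup_le' fun i => ((hSc i).le_aleph0).trans (aleph0_le_aleph 1)
      calc ℵ₁ * (⨆ i, #(S i)) ≤ ℵ₁ * ℵ₁ := mul_le_mul' le_rfl h2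
        _ = ℵ₁ := mul_eq_self (aleph0_le_aleph 1)
    rw [hu, mk_univ, mk_set, W_card] at h1
    exact absurd (cantor ℵ₁) (not_lt.2 h1)
  refine ⟨p, le_rfl, cN ξ, ?_, ?_, fun i N q hq => hS i ξ (fun h => hξ (mem_iUnion.2 ⟨i, h⟩)) N q hq⟩
  · intro n k k' q _ h h'
    obtain ⟨r, hr, h1⟩ := h q le_rfl
    obtain ⟨s, hs, h2⟩ := h' r hr
    obtain ⟨h3, h4⟩ := h1 s hs
    obtain ⟨h5, h6⟩ := h2 s le_rfl
    exact h4.symm.trans h6
  · intro n q _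
    refine ⟨setc q ξ (q.c ξ ++ List.replicate (n + 1) 0), setc_le (List.prefix_append _ _), ?_⟩
    have hl : n < ((setc q ξ (q.c ξ ++ List.replicate (n + 1) 0)).c ξ).length := by
      rw [setc_self, List.length_append, List.length_replicate]
      omega
    exact ⟨_, hl_of (cN_down ξ n _) ⟨hl, rfl⟩⟩

end Pool.Agent.B820
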