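import Pool.Agent.Lib.MP_820b44_gt.Spec

/-!
# The field `gam` of `Core`
-/

set_option autoImplicit false
set_option linter.unusedSectionVars false
set_option linter.unusedVariables false

open Set

namespace Pool.Agent.B820

open Pool.Agent.SymExt
open Pool.Agent.Lib.MP_e6371f_lc (W b0 nx)
open Pool.Agent.Lib.MP_820b44_gt (Cl InC Cl_surj)

namespace GGamAux

/-- the property that defines `U'` -/
def SU (p : Cn) (U : ℕ → RO Cn) (m : ℕ) (q : Cn) : Prop := U m q ∨ ∀ r ≤ q, ¬ r ≤ p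

theorem SU_down (p : Cn) (U : ℕ → RO Cn) (m : ℕ) : ∀ a b : Cn, b ≤ a → SU p U m a → SU p U m b := by
  intro a b hab h
  rcases h with h | h
  · exact Or.inl ((U m).mono hab h)
  · exact Or.inr fun r hr => h r (hr.trans hab)

theorem s_down (β : W) (X : Cd) (m : ℕ) : ∀ a b : Cn, b ≤ a → (β, X, m) ∈ a.s → (β, X, m) ∈ b.s :=
  fun _ _ hab h => le_s hab h

/-- the meet of two truth values -/
def meet (a b : RO Cn) : RO Cn where
  ok q := a q ∧ b q
  mono h hp := ⟨a.mono h hp.1, b.mono h hp.2⟩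
  dense {p} h := ⟨a.dense fun q hq => by
      obtain ⟨r, hr, h1⟩ := h q hq
      exact ⟨r, hr, h1.1⟩, b.dense fun q hq => by
      obtain ⟨r, hr, h1⟩ := h q hq
      exact ⟨r, hr, h1.2⟩⟩

theorem InC_triv (x : ℕ → RO Cn) {m : ℕ} (hm : Cl m = (0, {∅})) (q : Cn) : InC x m q := by
  intro r _
  refine ⟨r, le_rfl, ∅, ?_, ?_⟩
  · rw [hm]
    exact Finset.mem_singleton_self _
  · rw [hm]
    intro i hi
    exact absurd hi (Nat.not_lt_zero i)

end GGamAux

open GGamAux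

theorem tGam : S_CodeT → S_Gama → S_Gamb → S_Gam := by
  intro codeT gama gamb p U hU
  obtain ⟨β, X, hX1, hX2⟩ := codeT fun m => hl (SU p U m)
  have hcov : ∀ (F : Finset Ix) (n : ℕ) (q : Cn), ∃ r ≤ q, ∃ m > n, hl (SU p U m) r ∧
      ∀ j ∈ F, InC (yN j) m r := by
    intro F n q
    by_cases h : ∃ q₁ ≤ q, q₁ ≤ p
    · obtain ⟨q₁, h1, h2⟩ := h
      obtain ⟨r, hr, m, hm, hUm, hF⟩ := hU F n q₁ h2
      exact ⟨r, hr.trans h1, m, hm, hl_of (SU_down p U m) (Or.inl hUm), hF⟩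
    · obtain ⟨m, hm, hCl⟩ := Cl_surj (0, {∅}) n
      exact ⟨q, le_rfl, m, hm, hl_of (SU_down p U m) (Or.inr fun r hr hrp => h ⟨r, hr, hrp⟩),
        fun j _ => InC_triv _ hCl q⟩
  have hinf := gama β X (fun m => hl (SU p U m)) hX1 hX2 hcov
  refine ⟨p, le_rfl, fun m => meet (hl fun q => (β, X, m) ∈ q.s) (U m), fun m q _ h => h.2, ?_, ?_⟩
  · intro n q hq
    obtain ⟨r, hr, m, hm, hs, hUr⟩ := hinf n q
    obtain ⟨r', hr', h1⟩ := (hl_iff (SU_down p U m)).1 hUr r le_rfl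
    have hU' : U m r' := by
      rcases h1 with h1 | h1
      · exact h1
      · exact absurd (hr'.trans (hr.trans hq)) (h1 r' le_rfl)
    exact ⟨r', hr'.trans hr, m, hm, hl_of (s_down β X m) (le_s hr' hs), hU'⟩
  · intro j q hq
    obtain ⟨r, hr, n, hn⟩ := gamb β X j q
    refine ⟨r, hr, n, fun m hm s hs hB => InC_dense fun q' hq' => ?_⟩
    obtain ⟨r', hr', h1⟩ := (hl_iff (s_down β X m)).1 hB.1 q' hq'
    exact ⟨r', hr', hn m hm r' (hr'.trans (hq'.trans hs)) h1⟩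

end Pool.Agent.B820
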