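import Pool.Agent.Lib.MP_820b44_gt.Spec

/-!
# `B (β, X)` is infinite
-/

set_option autoImplicit false
set_option linter.unusedSectionVars false
set_option linter.unusedVariables false

open Set

namespace Pool.Agent.B820

open Pool.Agent.SymExt
open Pool.Agent.Lib.MP_e6371f_lc (W b0 nx)
open Pool.Agent.Lib.MP_820b44_gt (Cl InC)

namespace GGamaAux

theorem exists_din (hpad : S_Pad) {δ : W} {x : Cd} {m : ℕ} {p : Cn}
    (h : InC (yN (.inr (δ, x))) m p) : ∃ q ≤ p, Din (Le δ) δ x m q := by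
  obtain ⟨p1, hp1, hlen, _⟩ := hpad p δ (md m)
  obtain ⟨p2, hp2, v, hv, hd⟩ := exists_dec δ x (cnt (p1.t δ) (md m)) p1
  have h3 : graft δ p2 p1 ≤ p1 := graft_le hp2 ⊤
  have ht : (graft δ p2 p1).t δ = p1.t δ := if_neg (lt_irrefl _)
  have hd3 : Dec (Le δ) x v (graft δ p2 p1) := (graft_eqv δ p2 p1).le.dec hd
  refine ⟨graft δ p2 p1, h3.trans hp1, ?_⟩
  have hN : md m ≤ ((graft δ p2 p1).t δ).length := by rw [ht]; exact hlen.le
  have hc : cnt ((graft δ p2 p1).t δ) (md m) ≤ v.length := by rw [ht, hv]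
  refine ⟨hN, v, hc, hd3, ?_⟩
  have hw : ∀ k < md m, pd ((List.range (md m)).map (pts ((graft δ p2 p1).t δ) v)) k =
      pts ((graft δ p2 p1).t δ) v k := by
    intro k hk
    rw [pd_lt (by simpa using hk)]
    simp
  have h4 := DecR_pts hN hc hd3 (w := (List.range (md m)).map (pts ((graft δ p2 p1).t δ) v))
    (by simp) hw
  have h5 := InC_dec (v := (List.range (md m)).map (pts ((graft δ p2 p1).t δ) v)) (by simp) h4
    (InC_mono (h3.trans hp1) h)
  exact (cl_congr hw).1 h5

theorem Din_le {δ : W} {x : Cd} {m : ℕ} {p q : Cn} (h : q ≤ p) (hp : Din (Le δ) δ x m p) :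
    Din (Le δ) δ x m q :=
  Din_mono (L := Le δ) (fun _ _ _ h1 h2 => Le_trans h1 h2) (le_Le h δ) (le_t h δ) hp

theorem exists_dins (hpad : S_Pad) {m : ℕ} {p : Cn} (Q : Finset (W × Cd))
    (h : ∀ z ∈ Q, InC (yN (.inr z)) m p) : ∃ q ≤ p, ∀ z ∈ Q, Din (Le z.1) z.1 z.2 m q := by
  classical
  induction Q using Finset.induction_on with
  | empty => exact ⟨p, le_rfl, fun z hz => absurd hz (by simp)⟩
  | insert a Q _ ih =>
    obtain ⟨q, hq, h1⟩ := ih fun z hz => h z (Finset.mem_insert_of_mem hz)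
    obtain ⟨r, hr, h2⟩ := exists_din hpad (δ := a.1) (x := a.2)
      (InC_mono hq (h a (Finset.mem_insert_self _ _)))
    refine ⟨r, hr.trans hq, fun z hz => ?_⟩
    rcases Finset.mem_insert.1 hz with rfl | hz
    · exact h2
    · exact Din_le hr (h1 z hz)

end GGamaAux

open GGamaAux in
theorem tGama : S_Add → S_Pad → S_Gama := by
  classical
  intro hadd hpad β X U h1 h2 H n q
  -- the side points
  have hQ : {z : W × Cd | (β, X, Sd.pt z.1 z.2) ∈ q.d}.Finite := by
    refine Set.Finite.preimage (f := fun z : W × Cd => (β, X, Sd.pt z.1 z.2)) ?_ q.fd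
    rintro ⟨a, b⟩ _ ⟨c, d⟩ _ h
    simp only [Prod.mk.injEq, Sd.pt.injEq, true_and] at h
    exact Prod.ext h.1 h.2
  -- a bound for the lengths
  obtain ⟨R, hR, hRw⟩ : ∃ R, (q.t β).length ≤ R ∧
      ∀ w : List Bool, (β, X, Sd.wd w) ∈ q.d → w.length ≤ R := by
    have hf : (List.length '' {w : List Bool | (β, X, (Sd.wd w : Sd Cd)) ∈ q.d}).Finite := by
      refine Set.Finite.image _ (Set.Finite.preimage
        (f := fun w : List Bool => (β, X, (Sd.wd w : Sd Cd))) ?_ q.fd)
      intro a _ b _ h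
      simpa using h
    obtain ⟨R, hR⟩ := hf.bddAbove
    exact ⟨max (q.t β).length R, le_max_left _ _,
      fun w hw => (hR ⟨w, hw, rfl⟩).trans (le_max_right _ _)⟩
  obtain ⟨r, hr, m, hm, hU, hF⟩ := H (hQ.toFinset.image Sum.inr ∪
    (Finset.range R).powerset.image Sum.inl) n q
  obtain ⟨r1, hr1, he⟩ := h2 m r hU
  obtain ⟨r2, hr2, hD⟩ := exists_dins hpad hQ.toFinset (m := m) (p := r1) (fun z hz =>
    InC_mono hr1 (hF _ (Finset.mem_union_left _ (Finset.mem_image_of_mem _ hz))))
  obtain ⟨q', hq', hs, hle⟩ := hadd β X m q r2 (le_Le (hr2.trans (hr1.trans hr)) β)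
    ((le_Le hr2 β).ev he) (fun δ x hx _ => hD (δ, x) (hQ.mem_toFinset.2 hx)) (by
      intro w hw y hy1 hy2
      have hy : ∀ k, y k = true → k < R := by
        intro k hk
        by_cases hkw : k < w.length
        · exact hkw.trans_le (hRw w hw)
        · exact (lt_of_pd (hy2 k (not_lt.1 hkw) hk)).trans_le hR
      have hG := hF (.inl ((Finset.range R).filter fun k => y k = true))
        (Finset.mem_union_right _ (Finset.mem_image_of_mem _
          (Finset.mem_powerset.2 (Finset.filter_subset _ _))))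
      have hc := InC_dec (by simp) (DecR_fin ((Finset.range R).filter fun k => y k = true)
        (md m) r) hG
      refine (cl_congr fun k hk => ?_).1 hc
      rw [pd_lt (by simpa using hk)]
      simp only [List.getElem_map, List.getElem_range, Finset.mem_filter, Finset.mem_range]
      cases hyk : y k
      · simp
      · simp [hy k hyk])
  exact ⟨q', hq', m, hm, hs, h1 m q' (hle.ev ((le_Le hr2 β).ev he))⟩

end Pool.Agent.B820
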