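import Pool.Agent.Lib.MP_820b44_gt.Spec

/-!
# Gamb: every point of `Y` is in almost all clopen sets with numbers in `B (β, X)`
-/

set_option autoImplicit false
set_option linter.unusedSectionVars false
set_option linter.unusedVariables false

open Set

namespace Pool.Agent.B820

open Pool.Agent.SymExt
open Pool.Agent.Lib.MP_e6371f_lc (W b0 nx)
open Pool.Agent.Lib.MP_820b44_gt (Cl InC)

/-- `p` with a side atom added -/
private def addd (p : Cn) (z : W × Cd × Sd Cd) : Cn where
  c := p.c
  t := p.t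
  s := p.s
  d := insert z p.d
  fc := p.fc
  ft := p.ft
  fs := p.fs
  fd := p.fd.insert z

private theorem addd_le (p : Cn) (z : W × Cd × Sd Cd) : addd p z ≤ p := by
  refine le_def.2 (Le_iff.2 ⟨fun ξ => List.prefix_refl _, fun δ _ => List.prefix_refl _,
    fun δ _ hne m hm hp => ?_, fun _ _ _ _ h => h, fun _ _ _ _ h => Or.inr h,
    fun _ _ _ _ _ h1 h2 => absurd h1 h2⟩)
  change pd (p.t δ) m = true at hp
  rw [pd_ge hm] at hp
  exact absurd hp (by simp)

/-- the promise -/
private theorem promise (β : W) (X : Cd) (p : Cn) (a : Sd Cd) :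
    ∃ r ≤ p, ∃ n, ∀ m ≥ n, ∀ s ≤ r, (β, X, m) ∈ s.s → Okk (fun β => Le β) β X m s a := by
  have h1 : {m : ℕ | (β, X, m) ∈ p.s}.Finite := by
    refine Finite.preimage (f := fun m : ℕ => ((β, X, m) : W × Cd × ℕ)) (fun m _ m' _ h => ?_) p.fs
    exact (Prod.mk.inj (Prod.mk.inj h).2).2
  obtain ⟨n, hn⟩ := h1.bddAbove
  refine ⟨addd p (β, X, a), addd_le p _, n + 1, fun m hm s hs h2 =>
    le_ok hs h2 (fun h3 => ?_) (Or.inl rfl)⟩
  have h4 : m ≤ n := hn h3
  omega

private theorem pd_range (N : ℕ) (f : ℕ → Bool) {k : ℕ} (hk : k < N) :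
    pd ((List.range N).map f) k = f k := by
  rw [pd_lt (by simpa using hk)]
  simp

theorem tGamb : S_Pad → S_Gamb := by
  intro hP β X j q
  rcases j with F | ⟨δ, x⟩
  · -- a finite set
    have hF : ∀ k ∈ F, k < F.sup id + 1 := fun k hk => Nat.lt_succ_of_le (Finset.le_sup (f := id) hk)
    obtain ⟨r, hr, n, hn⟩ := promise β X q
      (.wd ((List.range (F.sup id + 1)).map fun k => decide (k ∈ F)))
    refine ⟨r, hr, n, fun m hm s hs h1 => ?_⟩
    obtain ⟨-, -, h2⟩ := hn m hm s hs h1
    have h3 := h2 (fun k => decide (k ∈ F)) (fun k hk => by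
      rw [pd_range]
      simpa using hk) (fun k hk h => by
      rw [List.length_map, List.length_range] at hk
      have h4 := hF k (by simpa using h)
      omega)
    refine InC_of_dec (v := (List.range (md m)).map fun k => decide (k ∈ F)) (by simp)
      (DecR_fin F (md m) s) ?_
    refine (cl_congr fun k hk => ?_).1 h3
    rw [pd_range _ _ hk]
  · by_cases hδ : δ < β
    · -- a point of lower level
      obtain ⟨r, hr, n, hn⟩ := promise β X q (.pt δ x)
      refine ⟨r, hr, n, fun m hm s hs h1 => ?_⟩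
      exact InC_of_Din ((hn m hm s hs h1).2 hδ)
    · -- a point of higher level
      obtain ⟨q1, hq1, -, hb, -⟩ := hP q β 0
      obtain ⟨q2, hq2, -, hd, -⟩ := hP q1 δ 0
      have hb2 : q2.t β ≠ [] := by
        intro h
        have h1 := le_t hq2 β
        rw [h] at h1
        exact hb (List.prefix_nil.1 h1)
      obtain ⟨q3, hq3, w, hw, hdw⟩ := exists_decR (yN (.inr (δ, x))) (q2.t δ).length q2
      obtain ⟨r, ha3, n, hn⟩ := promise β X q3 (.wd w)
      refine ⟨r, ha3.trans (hq3.trans (hq2.trans hq1)), n, fun m hm s hs h1 => ?_⟩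
      have hK : Kin (s.t β) w m := (hn m hm s hs h1).2
      refine InC_iff.2 fun q4 hq4 => ?_
      obtain ⟨r2, hr2, u, hu, hdu⟩ := exists_decR (yN (.inr (δ, x))) (max (md m) w.length) q4
      obtain ⟨r3, hr3, hl3, -⟩ := hP r2 δ u.length
      have h3s : r3 ≤ s := hr3.trans (hr2.trans hq4)
      have h33 : r3 ≤ q3 := h3s.trans (hs.trans ha3)
      have h32 : r3 ≤ q2 := h33.trans hq3
      have hwu : w.length ≤ u.length := by rw [hu]; exact le_max_right _ _
      refine ⟨r3, hr3.trans hr2, u, by rw [hu]; exact le_max_left _ _, hdu.mono hr3, ?_⟩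
      refine (Kin_mono (le_t h3s β) hK).2 (pd u) (fun k hk => ?_) (fun k hk h => ?_)
      · exact (hdu.mono hr3).eq (hdw.mono h33) (hk.trans_le hwu) hk
      · have hku := lt_of_pd h
        have h2 : yN (.inr (δ, x)) k r3 := ((hdu.mono hr3) k hku).1 h
        obtain ⟨r4, hr4, h4⟩ := h2 r3 le_rfl
        have h5 := (h4 r4 le_rfl).1
        rw [pd_prefix (le_t hr4 δ) (hku.trans hl3)] at h5
        rcases eq_or_lt_of_le (not_lt.1 hδ) with h6 | h6
        · rw [h6]
          exact h5
        · refine h32.body.tw δ (WithTop.coe_lt_top δ) hd k ?_ h5 β h6 hb2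
          rw [← hw]
          exact hk

end Pool.Agent.B820
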