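import Pool.Agent.Lib.MP_820b44_gt.Spec

/-!
# Inva: the invariant at all levels
-/

set_option autoImplicit false
set_option linter.unusedSectionVars false
set_option linter.unusedVariables false

open Set

namespace Pool.Agent.B820

open Pool.Agent.SymExt
open Pool.Agent.Lib.MP_e6371f_lc (W b0 nx lt_nx nx_le b0_le)
open Pool.Agent.Lib.MP_820b44_gt (Cl InC)

theorem tInva : S_Zero → S_Lim → S_Tube → S_Succ → S_Inva := by
  intro h0 hL hT hS γ
  induction γ using WellFoundedLT.induction with
  | ind γ ih =>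
    by_cases h1 : γ = b0
    · rw [h1]
      exact h0
    · by_cases h2 : ∃ β, γ = nx β
      · obtain ⟨β, rfl⟩ := h2
        exact hS β (hT β (ih β (lt_nx β)))
      · exact hL γ (fun β hβ => lt_of_le_of_ne (nx_le hβ) (fun h => h2 ⟨β, h.symm⟩))
          ⟨b0, lt_of_le_of_ne (b0_le γ) (Ne.symm h1)⟩ ih

end Pool.Agent.B820
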