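import Pool.Agent.Lib.MP_820b44_gt.Spec

/-!
# The limit step of the invariant
-/

set_option autoImplicit false
set_option linter.unusedSectionVars false
set_option linter.unusedVariables false

open Set

namespace Pool.Agent.B820

open Pool.Agent.SymExt
open Pool.Agent.Lib.MP_e6371f_lc (W b0 nx W_cnt lt_nx)
open Pool.Agent.Lib.MP_820b44_gt (Cl InC)

namespace GLimAux

/-- the families at the level `g` -/
def Og {ι : Type} (O : ℕ → ℕ → (ι → List Bool) → Set Cn) (g : W) :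
    ℕ → ℕ → (ι → List Bool) → Set Cn := fun n j v => {q | ∃ r ∈ O n j v, Le g q r}

theorem famg {γ : W} {ι : Type} {O : ℕ → ℕ → (ι → List Bool) → Set Cn} (h : Fam γ O) (g : W) :
    Fam g (Og O g) where
  down n j v p q hqp hp := by
    obtain ⟨r, hr, h1⟩ := hp
    exact ⟨r, hr, Le_trans hqp h1⟩
  mono n j v q hq := by
    obtain ⟨r, hr, h1⟩ := hq
    exact ⟨r, h.mono n j v hr, h1⟩

theorem covg {γ g : W} (hg : g < γ) {ι : Type} {b : ι → W}
    {O : ℕ → ℕ → (ι → List Bool) → Set Cn} (hc : Cov γ b O) : Cov g b (Og O g) := by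
  intro x n p
  obtain ⟨q, hq, j, v, hd, ho⟩ := hc x n p
  exact ⟨q, Le_mono (coe_lt'.2 hg).le hq, j, v, hd, q, ho, Le_refl _ _⟩

theorem bdd {γ : W} (hlim : ∀ β < γ, nx β < γ) (hne : ∃ β, β < γ) {D : Set W} (hD : D.Finite) :
    (∀ β ∈ D, β < γ) → ∃ g < γ, ∀ β ∈ D, β < g := by
  induction D, hD using Set.Finite.induction_on with
  | empty =>
    intro _
    obtain ⟨β, hβ⟩ := hne
    exact ⟨β, hβ, fun _ h => absurd h (by simp)⟩
  | @insert a s _ _ ih =>
    intro h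
    obtain ⟨g, hg, h1⟩ := ih fun β hβ => h β (mem_insert_of_mem _ hβ)
    refine ⟨max g (nx a), max_lt hg (hlim a (h a (mem_insert _ _))), fun β hβ => ?_⟩
    rcases mem_insert_iff.1 hβ with rfl | hβ
    · exact (lt_nx _).trans_le (le_max_right _ _)
    · exact (h1 β hβ).trans_le (le_max_left _ _)

end GLimAux

open GLimAux in
theorem tLim : S_Lim := by
  intro γ hlim hne hInv ι _ b hb O hF hC
  have H : ∀ g : W, ∃ S : Set Om, S.Countable ∧
      (g < γ → (∀ i, b i < g) → ∀ ξ, ξ ∉ S → Hit g b (Og O g) ξ) := by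
    intro g
    by_cases h : g < γ ∧ ∀ i, b i < g
    · obtain ⟨S, hS, h2⟩ := hInv g h.1 ι b h.2 (Og O g) (famg hF g) (covg h.1 hC)
      exact ⟨S, hS, fun _ _ => h2⟩
    · exact ⟨∅, countable_empty, fun h1 h2 => absurd ⟨h1, h2⟩ h⟩
  choose S hS hS2 using H
  refine ⟨⋃ g ∈ Iio γ, S g, (W_cnt γ).biUnion fun g _ => hS g, fun ξ hξ x N p => ?_⟩
  obtain ⟨s1, s2, s3⟩ := trunc_supp γ p
  have hfin : ({β | (trunc γ p).t β ≠ []} ∪ (fun z => z.1) '' (trunc γ p).s ∪
      (fun z => z.1) '' (trunc γ p).d ∪ range b : Set W).Finite :=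
    ((((trunc γ p).ft).union ((trunc γ p).fs.image _)).union ((trunc γ p).fd.image _)).union
      (finite_range b)
  obtain ⟨g, hg, h1⟩ := bdd hlim hne hfin (by
    rintro β (((h | ⟨⟨δ, U, m⟩, h, rfl⟩) | ⟨⟨δ, U, a⟩, h, rfl⟩) | ⟨i, rfl⟩)
    · by_contra hc
      exact h (s1 β (not_lt.1 hc))
    · exact s2 δ U m h
    · exact s3 δ U a h
    · exact hb i)
  have hsg : Supp g (trunc γ p) := by
    refine ⟨fun β hβ => ?_, fun β U m hm => ?_, fun β U a ha => ?_⟩
    · by_contra hne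
      exact absurd (h1 β (Or.inl (Or.inl (Or.inl hne)))) (not_lt.2 hβ)
    · exact h1 β (Or.inl (Or.inl (Or.inr ⟨_, hm, rfl⟩)))
    · exact h1 β (Or.inl (Or.inr ⟨_, ha, rfl⟩))
  have hbg : ∀ i, b i < g := fun i => h1 _ (Or.inr (mem_range_self i))
  have hξg : ξ ∉ S g := fun h => hξ (mem_biUnion (show g ∈ Iio γ from hg) h)
  obtain ⟨q, hq, n, j, v, hN, hd, ⟨r, hr, hqr⟩, hlen, hj⟩ :=
    hS2 g hg hbg ξ hξg x N (trunc γ p)
  refine ⟨graft g q r, ?_, n, j, v, hN, ?_, ?_, hlen, hj⟩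
  · exact Le_trans (Le_of_supp hsg (Le_trans (graft_eqv g q r).le hq) γ) (trunc_eqv γ p).le
  · exact Le.decs (γ := (g : WithTop W)) (fun i => (coe_lt'.2 (hbg i)).le)
      (graft_eqv g q r).le hd
  · exact hF.down n j v r _ (graft_le hqr γ) hr

end Pool.Agent.B820
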