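import Pool.Agent.Lib.MP_820b44_gt.Spec

/-!
# The sets `a β` are infinite
-/

set_option autoImplicit false
set_option linter.unusedSectionVars false
set_option linter.unusedVariables false

open Set

namespace Pool.Agent.B820

open Pool.Agent.SymExt
open Pool.Agent.Lib.MP_e6371f_lc (W b0 nx)
open Pool.Agent.Lib.MP_820b44_gt (Cl InC)

namespace GOnesAux

/-- append zeros and a one at the place `L` -/
def ext (L : ℕ) (t : List Bool) : List Bool := t ++ (List.replicate (L - t.length) false ++ [true])

theorem prefix_ext (L : ℕ) (t : List Bool) : t <+: ext L t := List.prefix_append _ _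

theorem pd_append_right {t u : List Bool} {m : ℕ} (h : t.length ≤ m) :
    pd (t ++ u) m = pd u (m - t.length) := by
  unfold pd
  rw [List.getD_eq_getElem?_getD, List.getElem?_append_right h, List.getD_eq_getElem?_getD]

theorem pd_replicate (n m : ℕ) : pd (List.replicate n false) m = false := by
  by_cases h : m < (List.replicate n false).length
  · rw [pd_lt h, List.getElem_replicate]
  · exact pd_ge (not_lt.1 h)

theorem pd_ext_at {L : ℕ} {t : List Bool} (h : t.length ≤ L) : pd (ext L t) L = true := by
  unfold ext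
  rw [pd_append_right h, pd_append_right (by simp)]
  simp [pd]

theorem eq_of_pd_ext {L m : ℕ} {t : List Bool} (h : t.length ≤ L) (hm : t.length ≤ m)
    (hp : pd (ext L t) m = true) : m = L := by
  unfold ext at hp
  rw [pd_append_right hm] at hp
  by_cases h1 : m - t.length < (List.replicate (L - t.length) false).length
  · rw [pd_append_left h1, pd_replicate] at hp
    exact absurd hp (by simp)
  · rw [pd_append_right (not_lt.1 h1)] at hp
    have h2 := lt_of_pd hp
    simp only [List.length_replicate, List.length_cons, List.length_nil, zero_add] at h1 h2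
    omega

end GOnesAux

open GOnesAux

theorem tOnes : S_Pad → S_Ones := by
  classical
  intro hPad p β N
  obtain ⟨p', hp', -, hne, -⟩ := hPad p β N
  have hbd : ∃ M : ℕ, ∀ δ, (p'.t δ).length ≤ M := by
    refine ⟨p'.ft.toFinset.sup fun δ => (p'.t δ).length, fun δ => ?_⟩
    by_cases h : p'.t δ = []
    · rw [h]; exact Nat.zero_le _
    · exact Finset.le_sup (f := fun δ => (p'.t δ).length) (p'.ft.mem_toFinset.2 h)
  obtain ⟨M, hM⟩ := hbd
  have hL : ∀ δ, (p'.t δ).length ≤ max (N + 1) M := fun δ => (hM δ).trans (le_max_right _ _)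
  let q : Cn :=
    { c := p'.c
      t := fun δ => if δ ≤ β ∧ p'.t δ ≠ [] then ext (max (N + 1) M) (p'.t δ) else p'.t δ
      s := p'.s
      d := p'.d
      fc := p'.fc
      ft := p'.ft.subset fun δ hδ => by
        simp only [mem_ofPred_eq, ne_eq] at hδ ⊢
        by_cases h : δ ≤ β ∧ ¬ p'.t δ = []
        · exact h.2
        · rw [if_neg h] at hδ
          exact hδ
      fs := p'.fs
      fd := p'.fd }
  have hqt : ∀ δ, q.t δ = if δ ≤ β ∧ p'.t δ ≠ [] then ext (max (N + 1) M) (p'.t δ) else p'.t δ :=
    fun _ => rfl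
  have hq : q ≤ p' := by
    refine le_def.2 (Le_iff.2 ⟨fun ξ => List.prefix_rfl, fun δ _ => ?_, fun δ _ h1 m hm h2 δ' hδ' h3 => ?_,
      fun _ _ _ _ h => h, fun _ _ _ _ h => h, fun δ U m a _ h1 h2 _ => absurd h1 h2⟩)
    · rw [hqt]
      split_ifs
      · exact prefix_ext _ _
      · exact List.prefix_rfl
    · rw [hqt] at h2
      split_ifs at h2 with h4
      · have h5 := eq_of_pd_ext (hL δ) hm h2
        rw [hqt, if_pos ⟨hδ'.le.trans h4.1, h3⟩, h5]
        exact pd_ext_at (hL δ')
      · rw [pd_ge hm] at h2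
        exact absurd h2 (by simp)
  refine ⟨q, hq.trans hp', max (N + 1) M, lt_of_lt_of_le (Nat.lt_succ_self N) (le_max_left _ _), ?_⟩
  rw [hqt, if_pos ⟨le_rfl, hne⟩]
  exact pd_ext_at (hL β)

end Pool.Agent.B820
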