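import Pool.Agent.Lib.MP_820b44_gt.Spec
import Pool.Agent.Lib.MP_820b44_gt.Ccc

set_option autoImplicit false

namespace Pool.Agent.B820

theorem tPred : S_Pred := exists_predense

end Pool.Agent.B820
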