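import Pool.Agent.Lib.MP_820b44_gt.Spec

/-!
# The successor step of the invariant: proof of `S_Succ`

For each countable datum (the finite sequence `t γ`, the numbers in the sets `B (γ, U)` for `U` in
a countable set `J`, the shapes of the side atoms) the given family of level `nx γ` has a derived
family of level `γ`, in which the codes in the side atoms are new coordinates.
-/

set_option autoImplicit false
set_option linter.unusedSectionVars false
set_option linter.unusedVariables false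

open Set

namespace Pool.Agent.B820

open Pool.Agent.SymExt
open Pool.Agent.Lib.MP_e6371f_lc (W b0 nx lt_nx lt_nx_iff W_cnt)
open Pool.Agent.Lib.MP_820b44_gt (Cl InC)

namespace GSuccAux

/-! ### The level `γ` -/

/-- the clauses of the order at the level `γ` -/
structure Lvl (γ : W) (p q : Cn) : Prop where
  t : q.t γ <+: p.t γ
  tw : q.t γ ≠ [] → ∀ m, (q.t γ).length ≤ m → pd (p.t γ) m = true →
    ∀ δ < γ, q.t δ ≠ [] → pd (p.t δ) m = true
  s : ∀ (U : Cd) (m : ℕ), (γ, U, m) ∈ q.s → (γ, U, m) ∈ p.s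
  d : ∀ (U : Cd) (a : Sd Cd), (γ, U, a) ∈ q.d → (γ, U, a) ∈ p.d
  ok : ∀ (U : Cd) (m : ℕ) (a : Sd Cd), (γ, U, m) ∈ p.s → (γ, U, m) ∉ q.s →
    (γ, U, a) ∈ q.d → Okk (fun β => Le β) γ U m p a

theorem lvl_of {γ : W} {p q : Cn} (h : Le (nx γ) p q) : Lvl γ p q := by
  have H := h.body
  have hγ : (γ : WithTop W) < (nx γ : W) := coe_lt'.2 (lt_nx γ)
  exact ⟨H.t γ hγ, H.tw γ hγ, fun U m => H.s γ U m hγ, fun U a => H.d γ U a hγ,
    fun U m a => H.ok γ U m a hγ⟩

theorem le_nx {γ : W} {p q : Cn} (h : Le γ p q) (h' : Lvl γ p q) : Le (nx γ) p q := by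
  have H := h.body
  have hβ : ∀ {β : W}, (β : WithTop W) < (nx γ : W) → (β : WithTop W) < (γ : W) ∨ β = γ := by
    intro β hβ
    rcases (lt_nx_iff.1 (coe_lt'.1 hβ)).lt_or_eq with h1 | h1
    · exact Or.inl (coe_lt'.2 h1)
    · exact Or.inr h1
  refine Le_iff.2 ⟨H.c, fun β hb => ?_, fun β hb => ?_, fun β U m hb => ?_,
    fun β U a hb => ?_, fun β U m a hb => ?_⟩
  · rcases hβ hb with h1 | rfl
    · exact H.t β h1
    · exact h'.t
  · rcases hβ hb with h1 | rfl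
    · exact H.tw β h1
    · exact h'.tw
  · rcases hβ hb with h1 | rfl
    · exact H.s β U m h1
    · exact h'.s U m
  · rcases hβ hb with h1 | rfl
    · exact H.d β U a h1
    · exact h'.d U a
  · rcases hβ hb with h1 | rfl
    · exact H.ok β U m a h1
    · exact h'.ok U m a

theorem nx_Le {γ : W} {p q : Cn} (h : Le (nx γ) p q) : Le γ p q :=
  Le_mono (WithTop.coe_le_coe.2 (lt_nx γ).le) h

theorem okk_eqv {γ : W} {U : Cd} {m : ℕ} {p q : Cn} {a : Sd Cd} (h : Le γ p q)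
    (ht : p.t γ = q.t γ) (ho : Okk (fun β => Le β) γ U m q a) :
    Okk (fun β => Le β) γ U m p a := by
  cases a with
  | pt δ x =>
    obtain ⟨h1, h2⟩ := ho
    refine ⟨h.ev h1, fun hδ => ?_⟩
    exact Din_mono (L := Le δ) (fun _ _ _ h1 h2 => Le_trans h1 h2)
      (Le_mono (WithTop.coe_le_coe.2 hδ.le) h) (h.body.t δ (coe_lt'.2 hδ)) (h2 hδ)
  | wd w =>
    obtain ⟨h1, h2⟩ := ho
    exact ⟨h.ev h1, by rw [ht]; exact h2⟩

/-! ### Shapes of side atoms -/

/-- shapes of the side atoms of level `γ` -/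
abbrev Shp (γ : W) : Type := List Bool ⊕ Option (Iio γ)

/-- the level of the code -/
def lv (γ : W) : Shp γ → W
  | .inl _ => γ
  | .inr none => γ
  | .inr (some δ) => δ.1

theorem lv_le (γ : W) (σ : Shp γ) : lv γ σ ≤ γ := by
  rcases σ with w | _ | δ
  · exact le_rfl
  · exact le_rfl
  · exact (show δ.1 < γ from δ.2).le

/-- the side atom of the given shape with the code `x` -/
def atm (γ : W) (x : Cd) : Shp γ → Sd Cd
  | .inl w => .wd w
  | .inr none => .pt γ x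
  | .inr (some δ) => .pt δ.1 x

open Classical in
/-- the shape of a side atom -/
noncomputable def shp (γ : W) : Sd Cd → Shp γ
  | .wd w => .inl w
  | .pt δ x => .inr (if h : δ < γ then some ⟨δ, h⟩ else none)

/-- the code of a side atom -/
def cod : Sd Cd → Cd
  | .wd w => .nil
  | .pt δ x => x

/-- the clause for a side atom of the given shape; `tg` is the sequence of level `γ` and `v` an
initial segment of the real given by the code -/
def Oks (γ : W) (tg : List Bool) (m : ℕ) (q : Cn) (v : List Bool) : Shp γ → Prop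
  | .inl w => Kin tg w m
  | .inr none => True
  | .inr (some δ) => md m ≤ (q.t δ.1).length ∧ cnt (q.t δ.1) (md m) ≤ v.length ∧
      pts (q.t δ.1) v ∈ cl m

theorem okk_of {γ : W} {U : Cd} {m : ℕ} {q q' : Cn} {v : List Bool} {a : Sd Cd}
    (h : Le γ q' q) (he : ev (Le γ) U m q) (ho : Oks γ (q'.t γ) m q v (shp γ a))
    (hd : Dec (Le (lv γ (shp γ a))) (cod a) v q) : Okk (fun β => Le β) γ U m q' a := by
  cases a with
  | pt δ x =>
    refine ⟨h.ev he, fun hδ => ?_⟩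
    have e : shp γ (.pt δ x) = .inr (some ⟨δ, hδ⟩) := congrArg Sum.inr (dif_pos hδ)
    rw [e] at ho hd
    obtain ⟨h1, h2, h3⟩ := ho
    exact Din_mono (L := Le δ) (fun _ _ _ h1 h2 => Le_trans h1 h2)
      (Le_mono (WithTop.coe_le_coe.2 hδ.le) h) (h.body.t δ (coe_lt'.2 hδ)) ⟨h1, v, h2, hd, h3⟩
  | wd w => exact ⟨h.ev he, ho⟩

theorem cnt_le (t : List Bool) (k : ℕ) : cnt t k ≤ k := by
  unfold cnt
  exact List.count_le_length.trans (List.length_take_le _ _)

theorem oks_of {γ : W} {U : Cd} {m : ℕ} {q : Cn} {v : List Bool} {x : Cd} {σ : Shp γ}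
    (ho : Okk (fun β => Le β) γ U m q (atm γ x σ)) (hv : md m ≤ v.length)
    (hd : Dec (Le (lv γ σ)) x v q) : Oks γ (q.t γ) m q v σ := by
  rcases σ with w | _ | δ
  · exact ho.2
  · trivial
  · obtain ⟨h1, v', h2, h3, h4⟩ := ho.2 δ.2
    refine ⟨h1, (cnt_le _ _).trans hv, ?_⟩
    refine (cl_congr (pts_congr (List.prefix_refl _) h1 fun k hk => ?_)).1 h4
    exact Dec_unique h3 hd (hk.trans_le h2) (hk.trans_le ((cnt_le _ _).trans hv))

theorem oks_mono {γ : W} {tg : List Bool} {m : ℕ} {q q' : Cn} {v : List Bool} {σ : Shp γ}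
    (h : Le γ q' q) (ho : Oks γ tg m q v σ) : Oks γ tg m q' v σ := by
  rcases σ with w | _ | δ
  · exact ho
  · trivial
  · obtain ⟨h1, h2, h3⟩ := ho
    have ht : q.t δ.1 <+: q'.t δ.1 := h.body.t δ.1 (coe_lt'.2 δ.2)
    refine ⟨h1.trans ht.length_le, ?_, ?_⟩
    · rw [cnt_prefix ht h1]
      exact h2
    · exact (cl_congr (pts_congr ht h1 fun k _ => rfl)).2 h3

/-! ### The derived family -/

/-- the keys of `r` at the level `γ` are in `J` -/
structure Kj (γ : W) (J : Set Cd) (r : Cn) : Prop where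
  s : ∀ (U : Cd) (m : ℕ), (γ, U, m) ∈ r.s → U ∈ J
  d : ∀ (U : Cd) (a : Sd Cd), (γ, U, a) ∈ r.d → U ∈ J

/-- the data of `r` at the level `γ` extend the given data, and `q` knows this -/
structure Lgl (γ : W) (J : Set Cd) (t : List Bool) (D : Finset (Iio γ)) (s : Finset (J × ℕ))
    {k : ℕ} (f : Fin k → J × Shp γ) (q r : Cn) (v : Fin k → List Bool) : Prop where
  ht : t <+: r.t γ
  htw : t ≠ [] → ∀ m, t.length ≤ m → pd (r.t γ) m = true → ∀ δ ∈ D, pd (q.t δ.1) m = true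
  hs : ∀ z ∈ s, (γ, z.1.1, z.2) ∈ r.s
  hok : ∀ i m, (γ, (f i).1.1, m) ∈ r.s → ((f i).1, m) ∉ s →
    ev (Le γ) (f i).1.1 m q ∧ Oks γ (r.t γ) m q (v i) (f i).2

/-- the derived family -/
def Der {ι : Type} (γ : W) (J : Set Cd) (O : ℕ → ℕ → (ι → List Bool) → Set Cn)
    (t : List Bool) (D : Finset (Iio γ)) (s : Finset (J × ℕ)) {k : ℕ} (f : Fin k → J × Shp γ) :
    ℕ → ℕ → (ι ⊕ Fin k → List Bool) → Set Cn :=
  fun n j v => {q | ∃ r ∈ O n j (fun i => v (.inl i)), Le γ q r ∧ Kj γ J r ∧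
    Lgl γ J t D s f q r (fun i => v (.inr i))}

theorem der_fam {ι : Type} {γ : W} {J : Set Cd} {O : ℕ → ℕ → (ι → List Bool) → Set Cn}
    (hF : Fam (nx γ) O) (t : List Bool) (D : Finset (Iio γ)) (s : Finset (J × ℕ)) {k : ℕ}
    (f : Fin k → J × Shp γ) : Fam γ (Der γ J O t D s f) where
  down := by
    rintro n j v p q hqp ⟨r, hr, h1, h2, h3⟩
    refine ⟨r, hr, Le_trans hqp h1, h2, h3.ht, fun ht m hm hp δ hδ => ?_, h3.hs,
      fun i m hi hs => ?_⟩
    · have h4 := h3.htw ht m hm hp δ hδ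
      rw [pd_prefix (hqp.body.t δ.1 (coe_lt'.2 δ.2)) (lt_of_pd h4)]
      exact h4
    · obtain ⟨h4, h5⟩ := h3.hok i m hi hs
      exact ⟨hqp.ev h4, oks_mono hqp h5⟩
  mono := by
    rintro n j v q ⟨r, hr, h1⟩
    exact ⟨r, hF.mono n j _ hr, h1⟩

/-! ### Hitting -/

/-- the data of `q` below `γ`, those of `r` and `p` from `γ` on -/
noncomputable def glue (γ : W) (q r p : Cn) : Cn where
  c := q.c
  t := fun δ => if δ < γ then q.t δ else r.t δ
  s := {z | z ∈ q.s ∧ z.1 < γ ∨ (z ∈ r.s ∨ z ∈ p.s) ∧ γ ≤ z.1}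
  d := {z | z ∈ q.d ∧ z.1 < γ ∨ (z ∈ r.d ∨ z ∈ p.d) ∧ γ ≤ z.1}
  fc := q.fc
  ft := (q.ft.union r.ft).subset fun δ hδ => by
    simp only [mem_ofPred_eq, ne_eq] at hδ
    by_cases h : δ < γ
    · rw [if_pos h] at hδ; exact Or.inl hδ
    · rw [if_neg h] at hδ; exact Or.inr hδ
  fs := (q.fs.union (r.fs.union p.fs)).subset fun z hz => hz.elim (fun h => Or.inl h.1)
    fun h => Or.inr h.1
  fd := (q.fd.union (r.fd.union p.fd)).subset fun z hz => hz.elim (fun h => Or.inl h.1)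
    fun h => Or.inr h.1

theorem glue_eqv (γ : W) (q r p : Cn) : Eqv γ (glue γ q r p) q := by
  refine ⟨rfl, fun β hβ => if_pos (coe_lt'.1 hβ), fun β U m hβ => ?_, fun β U a hβ => ?_⟩
  · have h := coe_lt'.1 hβ
    exact ⟨fun h1 => h1.elim (fun h2 => h2.1) fun h2 => absurd h (not_lt.2 h2.2),
      fun h1 => Or.inl ⟨h1, h⟩⟩
  · have h := coe_lt'.1 hβ
    exact ⟨fun h1 => h1.elim (fun h2 => h2.1) fun h2 => absurd h (not_lt.2 h2.2),
      fun h1 => Or.inl ⟨h1, h⟩⟩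

theorem glue_s {γ : W} {q r p : Cn} {U : Cd} {m : ℕ} :
    (γ, U, m) ∈ (glue γ q r p).s ↔ (γ, U, m) ∈ r.s ∨ (γ, U, m) ∈ p.s :=
  ⟨fun h => h.elim (fun h1 => absurd h1.2 (lt_irrefl _)) fun h1 => h1.1,
    fun h => Or.inr ⟨h, le_rfl⟩⟩

theorem glue_d {γ : W} {q r p : Cn} {U : Cd} {a : Sd Cd} :
    (γ, U, a) ∈ (glue γ q r p).d ↔ (γ, U, a) ∈ r.d ∨ (γ, U, a) ∈ p.d :=
  ⟨fun h => h.elim (fun h1 => absurd h1.2 (lt_irrefl _)) fun h1 => h1.1,
    fun h => Or.inr ⟨h, le_rfl⟩⟩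

theorem glue_t (γ : W) (q r p : Cn) : (glue γ q r p).t γ = r.t γ := if_neg (lt_irrefl _)

theorem der_hit {ι : Type} {γ : W} {b : ι → W} (hb : ∀ i, b i ≤ γ) {J : Set Cd}
    {O : ℕ → ℕ → (ι → List Bool) → Set Cn} (hF : Fam (nx γ) O) {ξ : Om}
    (hξ : ∀ (t : List Bool) (D : Finset (Iio γ)) (s : Finset (J × ℕ)) (k : ℕ)
      (f : Fin k → J × Shp γ),
      Hit γ (Sum.elim b fun i => lv γ (f i).2) (Der γ J O t D s f) ξ) :
    Hit (nx γ) b O ξ := by
  intro x N p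
  have hD : {δ : Iio γ | p.t δ.1 ≠ []}.Finite := p.ft.preimage Subtype.val_injective.injOn
  have hs : {z : J × ℕ | (γ, z.1.1, z.2) ∈ p.s}.Finite := by
    refine p.fs.preimage (f := fun z : J × ℕ => (γ, z.1.1, z.2)) (Function.Injective.injOn ?_)
    rintro ⟨⟨U, hU⟩, m⟩ ⟨⟨U', hU'⟩, m'⟩ h
    simp only [Prod.mk.injEq, true_and] at h
    obtain ⟨rfl, rfl⟩ := h
    rfl
  have hd : {z : J × Sd Cd | (γ, z.1.1, z.2) ∈ p.d}.Finite := by
    refine p.fd.preimage (f := fun z : J × Sd Cd => (γ, z.1.1, z.2))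
      (Function.Injective.injOn ?_)
    rintro ⟨⟨U, hU⟩, m⟩ ⟨⟨U', hU'⟩, m'⟩ h
    simp only [Prod.mk.injEq, true_and] at h
    obtain ⟨rfl, rfl⟩ := h
    rfl
  obtain ⟨k, f, hf⟩ := hd.fin_embedding
  obtain ⟨q, hq, n, j, v, hN, hv, ⟨r, hr, hqr, hK, hL⟩, hc⟩ := hξ (p.t γ) hD.toFinset hs.toFinset k
    (fun i => ((f i).1, shp γ (f i).2)) (Sum.elim x fun i => cod (f i).2) N p
  have hg : Le γ (glue γ q r p) q := (glue_eqv γ q r p).le
  have ht : (glue γ q r p).t γ = r.t γ := glue_t γ q r p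
  have h1 : Le (nx γ) (glue γ q r p) r := by
    refine le_nx (Le_trans hg hqr) ⟨by rw [ht], fun _ m hm hp => ?_,
      fun U m h => glue_s.2 (Or.inl h), fun U a h => glue_d.2 (Or.inl h), fun U m a h2 h3 h4 => ?_⟩
    · rw [ht, pd_ge hm] at hp
      exact absurd hp (by simp)
    · rcases glue_s.1 h2 with h5 | h5
      · exact absurd h5 h3
      · have hU : U ∈ J := hK.d U a h4
        exact absurd (hL.hs (⟨U, hU⟩, m) (hs.mem_toFinset.2 h5)) h3
  have h2 : Le (nx γ) (glue γ q r p) p := by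
    refine le_nx (Le_trans hg hq) ⟨by rw [ht]; exact hL.ht, fun hne m hm hp δ hδ hδne => ?_,
      fun U m h => glue_s.2 (Or.inr h), fun U a h => glue_d.2 (Or.inr h), fun U m a h2 h3 h4 => ?_⟩
    · rw [ht] at hp
      have h5 := hL.htw hne m hm hp ⟨δ, hδ⟩ (hD.mem_toFinset.2 hδne)
      rw [(glue_eqv γ q r p).t δ (coe_lt'.2 hδ)]
      exact h5
    · rcases glue_s.1 h2 with h5 | h5
      · have hU : U ∈ J := hK.s U m h5
        have h6 : ((⟨U, hU⟩ : J), a) ∈ range f := by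
          rw [hf]
          exact h4
        obtain ⟨i, hi⟩ := h6
        have h7 := hL.hok i m (by rw [hi]; exact h5) (by
          rw [hi]
          exact fun h => h3 (hs.mem_toFinset.1 h))
        have h8 := hv (.inr i)
        simp only [Sum.elim_inr] at h8
        simp only [hi] at h7 h8
        exact okk_of hg h7.1 (by rw [ht]; exact h7.2) h8
      · exact absurd h5 h3
  refine ⟨glue γ q r p, h2, n, j, fun i => v (.inl i), hN, fun i => ?_,
    hF.down n j _ _ _ h1 hr, hc⟩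
  exact (Le_mono (WithTop.coe_le_coe.2 (hb i)) hg).dec (hv (.inl i))

/-! ### Covering -/

/-- finitely many reals can be decided, without new elements at the level `γ` -/
theorem exists_decs {γ : W} (N k : ℕ) (b : Fin k → W) (hb : ∀ i, b i ≤ γ) (x : Fin k → Cd)
    (p : Cn) : ∃ q, (∀ γ' : WithTop W, Le γ' q p) ∧
      (∀ (U : Cd) (m : ℕ), (γ, U, m) ∈ q.s → (γ, U, m) ∈ p.s) ∧
      ∃ v : Fin k → List Bool, (∀ i, (v i).length = N) ∧ Decs b x v q := by
  induction k with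
  | zero => exact ⟨p, fun _ => Le_refl _ _, fun _ _ h => h, fun _ => [], fun i => i.elim0,
      fun i => i.elim0⟩
  | succ k ih =>
    obtain ⟨q, h1, h2, v, h3, h4⟩ := ih (fun i => b i.succ) (fun i => hb i.succ)
      (fun i => x i.succ)
    obtain ⟨r, h5, u, h6, h7⟩ := exists_dec (b 0) (x 0) N q
    have h8 : Le (b 0) (graft (b 0) r q) r := (graft_eqv (b 0) r q).le
    have h9 : ∀ γ' : WithTop W, Le γ' (graft (b 0) r q) q := fun γ' => graft_le h5 γ'
    refine ⟨graft (b 0) r q, fun γ' => Le_trans (h9 γ') (h1 γ'), fun U m h => ?_,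
      Fin.cons u v, fun i => ?_, fun i => ?_⟩
    · rcases h with ⟨_, h⟩ | ⟨h, _⟩
      · exact absurd h (not_lt.2 (hb 0))
      · exact h2 U m h
    · refine Fin.cases ?_ (fun i => ?_) i
      · exact h6
      · exact h3 i
    · refine Fin.cases ?_ (fun i => ?_) i
      · exact h8.dec h7
      · exact (h9 _).dec (h4 i)

open Classical in
/-- the condition `p` below `γ`, with the given data at the level `γ` -/
noncomputable def stem (γ : W) (J : Set Cd) (t : List Bool) (D : Finset (Iio γ))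
    (s : Finset (J × ℕ)) {k : ℕ} (f : Fin k → J × Shp γ) (x : Fin k → Cd) (p : Cn) : Cn where
  c := p.c
  t := fun δ => if h : δ < γ then (if (⟨δ, h⟩ : Iio γ) ∈ D ∧ p.t δ = [] then [false] else p.t δ)
    else if δ = γ then t else []
  s := {z | z ∈ p.s ∧ z.1 < γ} ∪ (fun y : J × ℕ => (γ, y.1.1, y.2)) '' s
  d := {z | z ∈ p.d ∧ z.1 < γ} ∪ range fun i => (γ, (f i).1.1, atm γ (x i) (f i).2)
  fc := p.fc
  ft := ((p.ft.union (D.finite_toSet.image Subtype.val)).union (finite_singleton γ)).subset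
    fun δ hδ => by
      simp only [mem_ofPred_eq, ne_eq] at hδ
      by_cases h : δ < γ
      · rw [dif_pos h] at hδ
        by_cases h' : (⟨δ, h⟩ : Iio γ) ∈ D ∧ p.t δ = []
        · exact Or.inl (Or.inr ⟨⟨δ, h⟩, h'.1, rfl⟩)
        · rw [if_neg h'] at hδ
          exact Or.inl (Or.inl hδ)
      · rw [dif_neg h] at hδ
        by_cases h' : δ = γ
        · exact Or.inr h'
        · rw [if_neg h'] at hδ
          exact absurd rfl hδ
  fs := (p.fs.subset fun z hz => hz.1).union (s.finite_toSet.image _)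
  fd := (p.fd.subset fun z hz => hz.1).union (finite_range _)

section stem

variable {γ : W} {J : Set Cd} {t : List Bool} {D : Finset (Iio γ)} {s : Finset (J × ℕ)} {k : ℕ}
  {f : Fin k → J × Shp γ} {x : Fin k → Cd} {p : Cn}

theorem stem_tg : (stem γ J t D s f x p).t γ = t := by
  change (if h : γ < γ then _ else if γ = γ then t else []) = t
  rw [dif_neg (lt_irrefl _), if_pos rfl]

theorem stem_t_ne {δ : W} (hδ : δ < γ) (h : p.t δ ≠ []) :
    (stem γ J t D s f x p).t δ = p.t δ := by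
  change (if h : δ < γ then _ else if δ = γ then t else []) = _
  rw [dif_pos hδ, if_neg fun h' => h h'.2]

theorem stem_D {δ : Iio γ} (hδ : δ ∈ D) : (stem γ J t D s f x p).t δ.1 ≠ [] := by
  change (if h : δ.1 < γ then (if (⟨δ.1, h⟩ : Iio γ) ∈ D ∧ p.t δ.1 = [] then [false] else p.t δ.1)
    else if δ.1 = γ then t else []) ≠ []
  rw [dif_pos (show δ.1 < γ from δ.2)]
  by_cases h : p.t δ.1 = []
  · rw [if_pos ⟨hδ, h⟩]
    simp
  · rw [if_neg fun h' => h h'.2]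
    exact h

theorem stem_le : Le γ (stem γ J t D s f x p) p := by
  refine Le_iff.2 ⟨fun ξ => List.prefix_refl _, fun β hβ => ?_, fun β hβ hne m hm hp => ?_,
    fun β U m hβ h => Or.inl ⟨h, coe_lt'.1 hβ⟩, fun β U a hβ h => Or.inl ⟨h, coe_lt'.1 hβ⟩,
    fun β U m a hβ h1 h2 h3 => ?_⟩
  · by_cases h : p.t β = []
    · rw [h]
      exact List.nil_prefix
    · rw [stem_t_ne (coe_lt'.1 hβ) h]
  · rw [stem_t_ne (coe_lt'.1 hβ) hne, pd_ge hm] at hp
    exact absurd hp (by simp)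
  · rcases h1 with ⟨h1, _⟩ | ⟨y, hy, h1⟩
    · exact absurd h1 h2
    · have : β = γ := (congrArg (fun z => z.1) h1).symm
      rw [this] at hβ
      exact absurd hβ (lt_irrefl _)

theorem stem_s {U : J} {m : ℕ} : (γ, U.1, m) ∈ (stem γ J t D s f x p).s ↔ (U, m) ∈ s := by
  constructor
  · rintro (⟨_, h⟩ | ⟨⟨⟨U', hU'⟩, m'⟩, hy, h1⟩)
    · exact absurd h (lt_irrefl _)
    · simp only [Prod.mk.injEq, true_and] at h1
      obtain ⟨h2, rfl⟩ := h1
      have : U = ⟨U', hU'⟩ := Subtype.ext h2.symm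
      rw [this]
      exact hy
  · exact fun h => Or.inr ⟨(U, m), h, rfl⟩

theorem stem_d (i : Fin k) :
    (γ, (f i).1.1, atm γ (x i) (f i).2) ∈ (stem γ J t D s f x p).d := Or.inr ⟨i, rfl⟩

end stem

/-- delete the keys at the level `γ` that are not in `J` -/
def keep (γ : W) (J : Set Cd) (p : Cn) : Cn where
  c := p.c
  t := p.t
  s := {z | z ∈ p.s ∧ (z.1 = γ → z.2.1 ∈ J)}
  d := {z | z ∈ p.d ∧ (z.1 = γ → z.2.1 ∈ J)}
  fc := p.fc
  ft := p.ft
  fs := p.fs.subset fun z hz => hz.1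
  fd := p.fd.subset fun z hz => hz.1

theorem keep_eqv (γ : W) (J : Set Cd) (p : Cn) : Eqv γ (keep γ J p) p :=
  ⟨rfl, fun _ _ => rfl,
    fun β U m hβ => ⟨fun h => h.1, fun h => ⟨h, fun h' => absurd h' (coe_lt'.1 hβ).ne⟩⟩,
    fun β U m hβ => ⟨fun h => h.1, fun h => ⟨h, fun h' => absurd h' (coe_lt'.1 hβ).ne⟩⟩⟩

theorem der_cov {ι : Type} {γ : W} {b : ι → W} (hb : ∀ i, b i ≤ γ) {J : Set Cd}
    {O : ℕ → ℕ → (ι → List Bool) → Set Cn} (hF : Fam (nx γ) O) (hC : Cov (nx γ) b O)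
    (hJ : ∀ n j v q, q ∈ O n j v → ∃ a ∈ O n j v, Kj γ J a ∧ ∃ r, Le (nx γ) r q ∧ Le (nx γ) r a)
    (t : List Bool) (D : Finset (Iio γ)) (s : Finset (J × ℕ)) (k : ℕ) (f : Fin k → J × Shp γ) :
    Cov γ (Sum.elim b fun i => lv γ (f i).2) (Der γ J O t D s f) := by
  intro x n p
  obtain ⟨r₀, h0, j, v₁, hd, hO⟩ := hC (fun i => x (.inl i)) n
    (stem γ J t D s f (fun i => x (.inr i)) p)
  obtain ⟨a, haO, hKa, r₁, h1, h1a⟩ := hJ n j v₁ r₀ hO
  obtain ⟨L, hL⟩ : ∃ L : ℕ, ∀ z ∈ r₁.s, md z.2.2 ≤ L := by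
    obtain ⟨L, hL⟩ := (r₁.fs.image fun z => md z.2.2).bddAbove
    exact ⟨L, fun z hz => hL ⟨z, hz, rfl⟩⟩
  obtain ⟨r₂, h2, h2s, v₂, hlen, hdec⟩ := exists_decs (γ := γ) L k (fun i => lv γ (f i).2)
    (fun i => lv_le γ _) (fun i => x (.inr i)) r₁
  have h2a : Le (nx γ) r₂ a := Le_trans (h2 _) h1a
  have h20 : Le (nx γ) r₂ r₀ := Le_trans (h2 _) h1
  have h2e : Le (nx γ) r₂ (stem γ J t D s f (fun i => x (.inr i)) p) := Le_trans h20 h0
  have hke : Eqv γ (keep γ J r₂) r₂ := keep_eqv γ J r₂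
  have hka : Le (nx γ) (keep γ J r₂) a := by
    have H := lvl_of h2a
    refine le_nx (Le_trans hke.le (nx_Le h2a)) ⟨H.t, H.tw,
      fun U m h => ⟨H.s U m h, fun _ => hKa.s U m h⟩,
      fun U c h => ⟨H.d U c h, fun _ => hKa.d U c h⟩, fun U m c h3 h4 h5 => ?_⟩
    exact okk_eqv hke.le rfl (H.ok U m c h3.1 h4 h5)
  have H := lvl_of h2e
  refine ⟨r₂, Le_trans (nx_Le h2e) stem_le, j, Sum.elim v₁ v₂, ?_, keep γ J r₂,
    hF.down n j _ _ _ hka haO, hke.symm.le, ⟨fun U m h => h.2 rfl, fun U c h => h.2 rfl⟩, ?_⟩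
  · rintro (i | i)
    · exact (Le_mono (WithTop.coe_le_coe.2 (hb i)) (nx_Le h20)).dec (hd i)
    · exact hdec i
  · refine ⟨?_, fun hne m hm hp δ hδ => ?_, fun z hz => ⟨?_, fun _ => z.1.2⟩, fun i m h3 h4 => ?_⟩
    · have h3 := H.t
      rw [stem_tg] at h3
      exact h3
    · have h3 := H.tw
      rw [stem_tg] at h3
      exact h3 hne m hm hp δ.1 δ.2 (stem_D hδ)
    · exact H.s _ _ (stem_s.2 hz)
    · have h5 := H.ok (f i).1.1 m _ h3.1 (fun h => h4 (stem_s.1 h)) (stem_d i)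
      refine ⟨h5.ev, oks_of (q := r₂) h5 ?_ (hdec i)⟩
      have h6 := hL _ (h2s _ _ h3.1)
      change md m ≤ (v₂ i).length
      rw [hlen i]
      exact h6

end GSuccAux

open GSuccAux in
theorem tSucc : S_Pred → S_Succ := by
  intro hP γ hI ι _ b hb O hF hC
  have hb' : ∀ i, b i ≤ γ := fun i => lt_nx_iff.1 (hb i)
  choose B hB hBc hBp using fun (z : ℕ × ℕ × (ι → List Bool)) =>
    hP (nx γ) (O z.1 z.2.1 z.2.2)
  let J : Set Cd := ⋃ z, ⋃ a ∈ B z, ((fun y : W × Cd × ℕ => y.2.1) '' a.s ∪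
    (fun y : W × Cd × Sd Cd => y.2.1) '' a.d)
  have hJ : J.Countable := Set.countable_iUnion fun z => (hBc z).biUnion fun a _ =>
    (a.fs.image _).countable.union (a.fd.image _).countable
  have i1 : Countable J := hJ.to_subtype
  have i2 : Countable (Iio γ) := (W_cnt γ).to_subtype
  have hJ' : ∀ n j v q, q ∈ O n j v →
      ∃ a ∈ O n j v, Kj γ J a ∧ ∃ r, Le (nx γ) r q ∧ Le (nx γ) r a := by
    intro n j v q hq
    obtain ⟨a, ha, r, h1, h2⟩ := hBp (n, j, v) q hq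
    refine ⟨a, hB (n, j, v) ha, ⟨fun U m h => ?_, fun U c h => ?_⟩, r, h1, h2⟩
    · exact mem_iUnion.2 ⟨(n, j, v), mem_biUnion ha (Or.inl ⟨_, h, rfl⟩)⟩
    · exact mem_iUnion.2 ⟨(n, j, v), mem_biUnion ha (Or.inr ⟨_, h, rfl⟩)⟩
  choose S hS hS' using fun (t : List Bool) (D : Finset (Iio γ)) (s : Finset (J × ℕ)) (k : ℕ)
    (f : Fin k → J × Shp γ) => hI (ι ⊕ Fin k) (Sum.elim b fun i => lv γ (f i).2)
      (fun i => by
        rcases i with i | i
        · exact hb' i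
        · exact lv_le γ _)
      (Der γ J O t D s f) (der_fam hF t D s f) (der_cov hb' hF hC hJ' t D s k f)
  refine ⟨⋃ t, ⋃ D, ⋃ s, ⋃ k, ⋃ f, S t D s k f, ?_, fun ξ hξ => ?_⟩
  · exact countable_iUnion fun t => countable_iUnion fun D => countable_iUnion fun s =>
      countable_iUnion fun k => countable_iUnion fun f => hS t D s k f
  · refine der_hit hb' hF fun t D s k f => hS' t D s k f ξ fun h => hξ ?_
    simp only [mem_iUnion]
    exact ⟨t, D, s, k, f, h⟩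

end Pool.Agent.B820
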