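import Pool.Agent.Lib.MP_820b44_gt.Spec

/-!
# SURJ: the field `surj` of `Core`
-/

set_option autoImplicit false
set_option linter.unusedSectionVars false
set_option linter.unusedVariables false

open Set

namespace Pool.Agent.B820

open Pool.Agent.SymExt
open Pool.Agent.Lib.MP_e6371f_lc (W b0 nx)
open Pool.Agent.Lib.MP_820b44_gt (Cl InC)

namespace GSurjAux

theorem cnt_succ_le (t : List Bool) (k : ℕ) :
    cnt t (k + 1) ≤ cnt t k + 1 ∧ (cnt t k < cnt t (k + 1) → pd t k = true) := by
  by_cases hk : k < t.length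
  · have h : cnt t (k + 1) = cnt t k + ([t[k]] : List Bool).count true := by
      unfold cnt
      rw [List.take_add_one, List.getElem?_eq_getElem hk, List.count_append]
      rfl
    rw [h, pd_lt hk]
    cases t[k] <;> simp
  · have h : cnt t (k + 1) = cnt t k := by
      unfold cnt
      rw [List.take_of_length_le (by omega), List.take_of_length_le (by omega)]
    rw [h]
    exact ⟨by omega, fun h1 => absurd h1 (lt_irrefl _)⟩

theorem place {t : List Bool} {n : ℕ} (h : n < t.count true) :
    ∃ k, pd t k = true ∧ cnt t k = n := by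
  have hex : ∃ k, n < cnt t k := ⟨t.length, by unfold cnt; rwa [List.take_length]⟩
  classical
  have hs := Nat.find_spec hex
  obtain ⟨k, hk⟩ : ∃ k, Nat.find hex = k + 1 := by
    refine Nat.exists_eq_succ_of_ne_zero fun h0 => ?_
    rw [h0] at hs
    simp [cnt] at hs
  have hm : ¬ n < cnt t k := Nat.find_min hex (by omega)
  rw [hk] at hs
  obtain ⟨h1, h2⟩ := cnt_succ_le t k
  exact ⟨k, h2 (by omega), by omega⟩

theorem count_lt {t t' : List Bool} (h : t <+: t') {k : ℕ} (hk : t.length ≤ k)
    (h1 : pd t' k = true) : t.count true < t'.count true := by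
  have h2 : k < t'.length := lt_of_pd h1
  have h3 : cnt t' t.length = t.count true := by
    rw [cnt_prefix h le_rfl]
    unfold cnt
    rw [List.take_length]
  have h4 : cnt t' t'.length = t'.count true := by
    unfold cnt
    rw [List.take_length]
  have h5 : cnt t' k < cnt t' (k + 1) := by
    rw [pd_lt h2] at h1
    unfold cnt
    rw [List.take_add_one, List.getElem?_eq_getElem h2, List.count_append, h1]
    simp
  rw [← h3, ← h4]
  exact ((cnt_mono t' hk).trans_lt h5).trans_le (cnt_mono t' h2)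

theorem many (hO : S_Ones) (β : W) (n : ℕ) (p : Cn) : ∃ q ≤ p, n < (q.t β).count true := by
  induction n with
  | zero =>
    obtain ⟨q, hq, k, _, h⟩ := hO p β (p.t β).length
    exact ⟨q, hq, (Nat.zero_le _).trans_lt (count_lt (List.nil_prefix) (Nat.zero_le _) h)⟩
  | succ n ih =>
    obtain ⟨q, hq, h1⟩ := ih
    obtain ⟨r, hr, k, hk, h⟩ := hO q β (q.t β).length
    have := count_lt (le_t hr β) (le_of_lt hk) h
    exact ⟨r, hr.trans hq, by omega⟩

end GSurjAux

open GSurjAux in
theorem tSurj : S_CodeT → S_Ones → S_Surj := by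
  intro hC hO x p
  obtain ⟨β, X, h1, h2⟩ := hC x
  refine ⟨p, le_rfl, β, .inr (β, X), fun n r _ => ⟨fun h => ?_, fun h => ?_⟩⟩
  · refine (x n).dense fun q hq => ?_
    obtain ⟨r', hr', h3⟩ := h q hq
    obtain ⟨k, h4, h5, h6⟩ := h3 r' le_rfl
    obtain ⟨s, hs, h7⟩ := h6 r' le_rfl
    obtain ⟨h8, h9⟩ := h7 s le_rfl
    refine ⟨s, hs.trans hr', h1 n s ?_⟩
    rw [cnt_prefix (le_t hs β) (lt_of_pd h4).le, h5] at h9
    exact h9
  · refine (hl_iff (DN_down β _ n)).2 fun q hq => ?_
    obtain ⟨q1, hq1, h3⟩ := many hO β n q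
    obtain ⟨k, hk1, hk2⟩ := place h3
    obtain ⟨r2, hr2, he⟩ := h2 n q1 ((x n).mono (hq1.trans hq) h)
    have h4 := pd_down β k _ _ hr2 hk1
    have h5 : cnt (r2.t β) k = n := by
      rw [cnt_prefix (le_t hr2 β) (lt_of_pd hk1).le]
      exact hk2
    exact ⟨r2, hr2.trans hq1, k, h4, h5, yN_of h4 (by rw [h5]; exact he)⟩

end Pool.Agent.B820
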