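import Pool.Agent.Lib.MP_820b44_gt.Spec

/-!
# TUBE: reals of level `γ` form a compact space at level `γ`
-/

set_option autoImplicit false
set_option linter.unusedSectionVars false
set_option linter.unusedVariables false

open Set

namespace Pool.Agent.B820

open Pool.Agent.SymExt
open Pool.Agent.Lib.MP_e6371f_lc (W b0 nx)
open Pool.Agent.Lib.MP_820b44_gt (Cl InC)

namespace GTubeAux

/-! ### Finite sequences -/

/-- the family `v`, and `u` at the new index -/
def ex {ι α : Type} (v : ι → α) (u : α) : Option ι → α := fun o => o.elim u v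

theorem ex_eta {ι α : Type} (w : Option ι → α) : ex (fun i => w (some i)) (w none) = w := by
  funext o
  cases o <;> rfl

theorem prefix_of_pd {v v' : List Bool} (h : v'.length ≤ v.length)
    (h2 : ∀ k < v'.length, pd v' k = pd v k) : v' <+: v := by
  rw [List.prefix_iff_eq_take]
  refine List.ext_getElem (by simp [h]) fun k h3 h4 => ?_
  rw [List.getElem_take, ← pd_lt h3, ← pd_lt (h3.trans_le h)]
  exact h2 k h3

theorem dec_prefix {L : Cn → Cn → Prop} {x : Cd} {v v' : List Bool} {p : Cn} (h : v' <+: v)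
    (hd : Dec L x v p) : Dec L x v' p := by
  intro n hn
  have h1 := hd n (hn.trans_le h.length_le)
  rw [pd_prefix h hn] at h1
  exact h1

/-- the number coded by a sequence -/
def cod (u : List Bool) : ℕ := u.foldl (fun a e => 2 * a + e.toNat) 0

theorem cod_snoc (u : List Bool) (e : Bool) : cod (u ++ [e]) = 2 * cod u + e.toNat := by
  unfold cod
  rw [List.foldl_append]
  rfl

theorem cod_lt {u u' : List Bool} (h : cod u < cod u') (e e' : Bool) :
    cod (u ++ [e]) < cod (u' ++ [e']) := by
  rw [cod_snoc, cod_snoc]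
  have := Bool.toNat_le e
  omega

theorem cod_inj : ∀ (k : ℕ) (u u' : List Bool), u.length = k → u'.length = k →
    cod u = cod u' → u = u' := by
  intro k
  induction k with
  | zero =>
    intro u u' h h' _
    rw [List.length_eq_zero_iff.1 h, List.length_eq_zero_iff.1 h']
  | succ k ih =>
    intro u u' h h' hc
    rcases List.eq_nil_or_concat u with rfl | ⟨w, e, rfl⟩
    · simp at h
    rcases List.eq_nil_or_concat u' with rfl | ⟨w', e', rfl⟩
    · simp at h'
    rw [List.concat_eq_append] at *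
    rw [List.concat_eq_append] at *
    rw [List.length_append] at h h'
    simp only [List.length_cons, List.length_nil, zero_add, Nat.add_right_cancel_iff] at h h'
    rw [cod_snoc, cod_snoc] at hc
    have h1 := Bool.toNat_le e
    have h2 := Bool.toNat_le e'
    have h3 : e.toNat = e'.toNat := by omega
    have h4 : e = e' := by
      cases e <;> cases e' <;> first | rfl | (simp at h3)
    have h5 : cod w = cod w' := by omega
    rw [ih w w' h h' h5, h4]

/-! ### Deciding initial segments -/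

theorem dec_up (β : W) (γ : WithTop W) (x : Cd) (N : ℕ) (p : Cn) :
    ∃ q, Le γ q p ∧ ∃ v : List Bool, v.length = N ∧ Dec (Le β) x v q := by
  obtain ⟨q, hq, v, hv, hd⟩ := exists_dec β x N p
  exact ⟨graft β q p, graft_le hq γ, v, hv, (graft_eqv β q p).le.dec hd⟩

theorem exists_decs {ι : Type} [Finite ι] {γ : W} (b : ι → W) (hb : ∀ i, b i ≤ γ) (x : ι → Cd)
    (N : ℕ) (p : Cn) :
    ∃ q, Le γ q p ∧ ∃ v : ι → List Bool, (∀ i, (v i).length = N) ∧ Decs b x v q := by
  classical
  have := Fintype.ofFinite ι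
  have key : ∀ s : Finset ι, ∃ q, Le γ q p ∧ ∃ v : ι → List Bool,
      ∀ i ∈ s, (v i).length = N ∧ Dec (Le (b i)) (x i) (v i) q := by
    intro s
    induction s using Finset.induction_on with
    | empty => exact ⟨p, Le_refl _ _, fun _ => [], fun i hi => absurd hi (by simp)⟩
    | insert a s ha ih =>
      obtain ⟨q, hq, v, hv⟩ := ih
      obtain ⟨r, hr, w, hw, hd⟩ := dec_up (b a) γ (x a) N q
      refine ⟨r, Le_trans hr hq, Function.update v a w, fun i hi => ?_⟩
      by_cases hia : i = a
      · subst hia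
        rw [Function.update_self]
        exact ⟨hw, hd⟩
      · rw [Function.update_of_ne hia]
        have his : i ∈ s := (Finset.mem_insert.1 hi).resolve_left hia
        exact ⟨(hv i his).1, (Le_mono (WithTop.coe_le_coe.2 (hb i)) hr).dec (hv i his).2⟩
  obtain ⟨q, hq, v, hv⟩ := key Finset.univ
  exact ⟨q, hq, v, fun i => (hv i (Finset.mem_univ _)).1, fun i => (hv i (Finset.mem_univ _)).2⟩

/-! ### The conclusion of the invariant -/

/-- the conclusion of the invariant for the space given by `b` -/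
def Con (γ : W) {ι : Type} (b : ι → W) : Prop :=
  ∀ O : ℕ → ℕ → (ι → List Bool) → Set Cn, Fam γ O → Cov γ b O →
    ∃ S : Set Om, S.Countable ∧ ∀ ξ, ξ ∉ S → Hit γ b O ξ

theorem con_equiv {γ : W} {ι κ : Type} (e : ι ≃ κ) (b : κ → W)
    (h : Con γ (fun i => b (e i))) : Con γ b := by
  intro O hF hC
  have back : ∀ v : κ → List Bool, (fun k => v (e (e.symm k))) = v := fun v => by
    funext k
    rw [e.apply_symm_apply]
  have dec1 : ∀ (x : ι → Cd) (v : κ → List Bool) (q : Cn),
      Decs b (fun k => x (e.symm k)) v q → Decs (fun i => b (e i)) x (fun i => v (e i)) q := by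
    intro x v q hd i
    have h1 := hd (e i)
    simp only [e.symm_apply_apply] at h1
    exact h1
  have dec2 : ∀ (x : κ → Cd) (v : ι → List Bool) (q : Cn),
      Decs (fun i => b (e i)) (fun i => x (e i)) v q → Decs b x (fun k => v (e.symm k)) q := by
    intro x v q hd k
    have h1 := hd (e.symm k)
    simp only [e.apply_symm_apply] at h1
    exact h1
  obtain ⟨S, hS, hH⟩ := h (fun n j v => O n j (fun k => v (e.symm k)))
    ⟨fun n j v p q hqp hp => hF.down n j _ p q hqp hp, fun n j v => hF.mono n j _⟩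
    (fun x n p => by
      obtain ⟨q, hq, j, v, hd, hO⟩ := hC (fun k => x (e.symm k)) n p
      refine ⟨q, hq, j, fun i => v (e i), dec1 x v q hd, ?_⟩
      change q ∈ O n j (fun k => v (e (e.symm k)))
      rw [back v]
      exact hO)
  refine ⟨S, hS, fun ξ hξ x N p => ?_⟩
  obtain ⟨q, hq, n, j, v, hN, hd, hO, hl⟩ := hH ξ hξ (fun i => x (e i)) N p
  exact ⟨q, hq, n, j, fun k => v (e.symm k), hN, dec2 x v q hd, hO, hl⟩

/-! ### One new coordinate -/

section new

variable {γ : W} {ι : Type} {b : ι → W}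

/-- `q` kills `u` -/
def Kill (b : ι → W) (O : ℕ → ℕ → (Option ι → List Bool) → Set Cn) (x : ι → Cd) (n : ℕ) (q : Cn)
    (u : List Bool) : Prop :=
  ∃ u' j v', u' <+: u ∧ Decs b x v' q ∧ q ∈ O n j (ex v' u')

/-- `(q, u)` is good -/
def Good (γ : W) (b : ι → W) (O : ℕ → ℕ → (Option ι → List Bool) → Set Cn) (x : ι → Cd) (n : ℕ)
    (q : Cn) (u : List Bool) : Prop :=
  ∀ q', Le γ q' q → ∀ l, u.length ≤ l →
    ¬ ∀ w : List Bool, u <+: w → w.length = l → Kill b O x n q' w

/-- `(q, u)` is good and leftmost -/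
def Lm (γ : W) (b : ι → W) (O : ℕ → ℕ → (Option ι → List Bool) → Set Cn) (x : ι → Cd) (n : ℕ)
    (q : Cn) (u : List Bool) : Prop :=
  Good γ b O x n q u ∧ ∀ u' : List Bool, u'.length = u.length → cod u' < cod u →
    ∀ q', Le γ q' q → ¬ Good γ b O x n q' u'

/-- the families of open sets without the new coordinate -/
def Op (O : ℕ → ℕ → (Option ι → List Bool) → Set Cn) (n j : ℕ) (v : ι → List Bool) : Set Cn :=
  {q | ∃ l : ℕ, ∀ u : List Bool, u.length = l → ∃ (u' : List Bool) (v' : ι → List Bool),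
    u' <+: u ∧ (∀ i, v' i <+: v i) ∧ q ∈ O n j (ex v' u')}

variable {O : ℕ → ℕ → (Option ι → List Bool) → Set Cn} {x : ι → Cd} {n : ℕ}

theorem Kill.down (hb : ∀ i, b i ≤ γ) (hF : Fam γ O) {q q' : Cn} {u : List Bool}
    (h : Le γ q' q) (hk : Kill b O x n q u) : Kill b O x n q' u := by
  obtain ⟨u', j, v', h1, h2, h3⟩ := hk
  exact ⟨u', j, v', h1, h.decs (fun i => WithTop.coe_le_coe.2 (hb i)) h2, hF.down _ _ _ _ _ h h3⟩

theorem Kill.ext {q : Cn} {u w : List Bool} (h : u <+: w) (hk : Kill b O x n q u) :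
    Kill b O x n q w := by
  obtain ⟨u', j, v', h1, h2, h3⟩ := hk
  exact ⟨u', j, v', h1.trans h, h2, h3⟩

theorem Good.down {q q' : Cn} {u : List Bool} (h : Le γ q' q) (hg : Good γ b O x n q u) :
    Good γ b O x n q' u := fun r hr => hg r (Le_trans hr h)

/-- extensions killed at one length are killed at larger lengths -/
theorem kill_len {q : Cn} {u w : List Bool} {l : ℕ} (hl : u.length ≤ l)
    (h : ∀ w : List Bool, u <+: w → w.length = l → Kill b O x n q w) (huw : u <+: w)
    (hw : l ≤ w.length) : Kill b O x n q w := by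
  refine Kill.ext (List.take_prefix l w) (h _ (List.prefix_take_iff.2 ⟨huw, hl⟩) ?_)
  rw [List.length_take]
  omega

theorem Good.of_prefix {q : Cn} {u w : List Bool} (h : u <+: w) (hg : Good γ b O x n q w) :
    Good γ b O x n q u := by
  intro q' hq' l hl hk
  refine hg q' hq' (max l w.length) (le_max_right _ _) fun z hwz hz => ?_
  exact kill_len hl hk (h.trans hwz) (by rw [hz]; exact le_max_left _ _)

theorem Good.step (hb : ∀ i, b i ≤ γ) (hF : Fam γ O) {q : Cn} {u : List Bool}
    (hg : Good γ b O x n q u) : ∃ q' e, Le γ q' q ∧ Good γ b O x n q' (u ++ [e]) := by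
  by_contra hc
  push Not at hc
  have h0 := hc q false (Le_refl _ _)
  unfold Good at h0
  push Not at h0
  obtain ⟨q₁, hq₁, l₀, hl₀, hk₀⟩ := h0
  have h1 := hc q₁ true hq₁
  unfold Good at h1
  push Not at h1
  obtain ⟨q₂, hq₂, l₁, hl₁, hk₁⟩ := h1
  rw [List.length_append] at hl₀ hl₁
  simp only [List.length_cons, List.length_nil, zero_add] at hl₀ hl₁
  refine hg q₂ (Le_trans hq₂ hq₁) (max l₀ l₁) ((Nat.le_succ _).trans (hl₀.trans (le_max_left _ _)))
    fun w huw hw => ?_
  obtain ⟨z, rfl⟩ := huw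
  cases z with
  | nil =>
    rw [List.append_nil] at hw
    omega
  | cons e z =>
    have hp : u ++ [e] <+: u ++ e :: z := ⟨z, by simp⟩
    cases e with
    | false =>
      refine Kill.down hb hF hq₂ (kill_len (u := u ++ [false]) (by simpa using hl₀) hk₀ hp ?_)
      rw [hw]
      exact le_max_left _ _
    | true =>
      refine kill_len (u := u ++ [true]) (by simpa using hl₁) hk₁ hp ?_
      rw [hw]
      exact le_max_right _ _

theorem Lm.down {q q' : Cn} {u : List Bool} (h : Le γ q' q) (hg : Lm γ b O x n q u) :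
    Lm γ b O x n q' u :=
  ⟨hg.1.down h, fun u' h1 h2 r hr => hg.2 u' h1 h2 r (Le_trans hr h)⟩

theorem Lm.uniq {q : Cn} {u u' : List Bool} (h : Lm γ b O x n q u) (h' : Lm γ b O x n q u')
    (hl : u.length = u'.length) : u = u' := by
  rcases lt_trichotomy (cod u) (cod u') with h1 | h1 | h1
  · exact absurd h.1 (h'.2 u hl h1 q (Le_refl _ _))
  · exact cod_inj _ u u' hl rfl h1
  · exact absurd h'.1 (h.2 u' hl.symm h1 q (Le_refl _ _))

theorem Lm.init (hb : ∀ i, b i ≤ γ) (hF : Fam γ O) {q : Cn} {u : List Bool} {e : Bool}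
    (h : Lm γ b O x n q (u ++ [e])) : Lm γ b O x n q u := by
  refine ⟨h.1.of_prefix (List.prefix_append _ _), fun u' h1 h2 q' hq' hg => ?_⟩
  obtain ⟨q'', e', hq'', hg'⟩ := hg.step hb hF
  exact h.2 (u' ++ [e']) (by simp [h1]) (cod_lt h2 _ _) q'' (Le_trans hq'' hq') hg'

theorem Lm.of_prefix (hb : ∀ i, b i ≤ γ) (hF : Fam γ O) {q : Cn} {u w : List Bool} (h : u <+: w)
    (hL : Lm γ b O x n q w) : Lm γ b O x n q u := by
  obtain ⟨z, rfl⟩ := h
  induction z using List.reverseRecOn with
  | nil => rwa [List.append_nil] at hL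
  | append_singleton z e ih =>
    rw [← List.append_assoc] at hL
    exact ih (hL.init hb hF)

theorem exists_good (hb : ∀ i, b i ≤ γ) (hF : Fam γ O) {p : Cn} (hp : Good γ b O x n p [])
    (k : ℕ) : ∃ q, Le γ q p ∧ ∃ u : List Bool, u.length = k ∧ Good γ b O x n q u := by
  induction k with
  | zero => exact ⟨p, Le_refl _ _, [], rfl, hp⟩
  | succ k ih =>
    obtain ⟨q, hq, u, hu, hg⟩ := ih
    obtain ⟨q', e, hq', hg'⟩ := hg.step hb hF
    exact ⟨q', Le_trans hq' hq, u ++ [e], by simp [hu], hg'⟩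

theorem exists_lm (hb : ∀ i, b i ≤ γ) (hF : Fam γ O) {p : Cn} (hp : Good γ b O x n p [])
    (k : ℕ) : ∃ q, Le γ q p ∧ ∃ u : List Bool, u.length = k ∧ Lm γ b O x n q u := by
  classical
  have hex : ∃ m, ∃ q, Le γ q p ∧ ∃ u : List Bool, u.length = k ∧ Good γ b O x n q u ∧
      cod u = m := by
    obtain ⟨q, hq, u, hu, hg⟩ := exists_good hb hF hp k
    exact ⟨cod u, q, hq, u, hu, hg, rfl⟩
  obtain ⟨q, hq, u, hu, hg, hm⟩ := Nat.find_spec hex
  refine ⟨q, hq, u, hu, hg, fun u' h1 h2 q' hq' hg' => ?_⟩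
  rw [hm] at h2
  exact Nat.find_min hex h2 ⟨q', Le_trans hq' hq, u', h1.trans hu, hg', rfl⟩

theorem fam_le (hF : Fam γ O) {j j' : ℕ} (h : j ≤ j') (v : Option ι → List Bool) :
    O n j v ⊆ O n j' v := by
  induction h with
  | refl => exact Subset.rfl
  | step _ ih => exact ih.trans (hF.mono _ _ _)

theorem op_fam (hF : Fam γ O) : Fam γ (Op O) := by
  refine ⟨fun n j v p q hqp hp => ?_, fun n j v q hq => ?_⟩
  · obtain ⟨l, hl⟩ := hp
    refine ⟨l, fun u hu => ?_⟩
    obtain ⟨u', v', h1, h2, h3⟩ := hl u hu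
    exact ⟨u', v', h1, h2, hF.down _ _ _ _ _ hqp h3⟩
  · obtain ⟨l, hl⟩ := hq
    refine ⟨l, fun u hu => ?_⟩
    obtain ⟨u', v', h1, h2, h3⟩ := hl u hu
    exact ⟨u', v', h1, h2, hF.mono _ _ _ h3⟩

/-- if the cover fails below `p`, the empty sequence is good -/
theorem good_nil [Finite ι] (hb : ∀ i, b i ≤ γ) (hF : Fam γ O) {p : Cn}
    (hno : ¬ ∃ q, Le γ q p ∧ ∃ j v, Decs b x v q ∧ q ∈ Op O n j v) : Good γ b O x n p [] := by
  intro q' hq' l _ hk
  have hfin : {w : List Bool | w.length = l}.Finite := List.finite_length_eq Bool l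
  have hk' : ∀ w : List Bool, ∃ (u' : List Bool) (j : ℕ) (v' : ι → List Bool),
      w.length = l → u' <+: w ∧ Decs b x v' q' ∧ q' ∈ O n j (ex v' u') := by
    intro w
    by_cases hw : w.length = l
    · obtain ⟨u', j, v', h⟩ := hk w List.nil_prefix hw
      exact ⟨u', j, v', fun _ => h⟩
    · exact ⟨[], 0, fun _ => [], fun h => absurd h hw⟩
  choose u' j v' h using hk'
  obtain ⟨J, hJ⟩ := (hfin.image j).bddAbove
  obtain ⟨N, hN⟩ := (((hfin.prod (Set.finite_univ (α := ι)))).image
    (fun z : List Bool × ι => (v' z.1 z.2).length)).bddAbove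
  obtain ⟨r, hr, v, hv, hd⟩ := exists_decs b hb x N q'
  refine hno ⟨r, Le_trans hr hq', J, v, hd, l, fun w hw => ?_⟩
  obtain ⟨h1, h2, h3⟩ := h w hw
  refine ⟨u' w, v' w, h1, fun i => ?_, ?_⟩
  · have h4 : Decs b x (v' w) r := hr.decs (fun i => WithTop.coe_le_coe.2 (hb i)) h2
    have h5 : (v' w i).length ≤ (v i).length := by
      rw [hv i]
      exact hN ⟨(w, i), ⟨hw, Set.mem_univ _⟩, rfl⟩
    exact prefix_of_pd h5 fun k hk => Dec_unique (h4 i) (hd i) hk (hk.trans_le h5)
  · exact fam_le hF (hJ ⟨w, hw, rfl⟩) _ (hF.down _ _ _ _ _ hr h3)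

theorem op_cov [Finite ι] (hcode : S_CodeP) (hb : ∀ i, b i ≤ γ) (hF : Fam γ O)
    (hC : Cov γ (ex b γ) O) : Cov γ b (Op O) := by
  intro x n p
  by_contra hno
  have hp := good_nil hb hF hno
  obtain ⟨y, hy1, hy2⟩ := hcode γ
    (fun k => {q | ∃ u : List Bool, u.length = k ∧ Lm γ b O x n q (u ++ [true])})
    (fun k r q hqr ⟨u, hu, hL⟩ => ⟨u, hu, hL.down hqr⟩)
  obtain ⟨q, hq, j, w, hd, hO⟩ := hC (ex x y) n p
  have hdx : Decs b x (fun i => w (some i)) q := fun i => hd (some i)
  have hdy : Dec (Le γ) y (w none) q := hd none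
  have hkill : Kill b O x n q (w none) := by
    refine ⟨w none, j, fun i => w (some i), List.prefix_rfl, hdx, ?_⟩
    rw [ex_eta w]
    exact hO
  obtain ⟨q', hq', u', hu', hL⟩ := exists_lm hb hF (hp.down hq) (w none).length
  have key : ∀ k < u'.length, pd u' k = pd (w none) k := by
    intro k hk
    have htk : u'.take k ++ [pd u' k] <+: u' := by
      have h1 : u'.take k ++ [pd u' k] = u'.take (k + 1) := by
        rw [List.take_add_one, List.getElem?_eq_getElem hk, pd_lt hk]
        rfl
      rw [h1]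
      exact List.take_prefix _ _
    have hlk : (u'.take k).length = k := by
      rw [List.length_take]
      omega
    have hLk := hL.of_prefix hb hF htk
    cases hb1 : pd u' k with
    | true =>
      rw [hb1] at hLk
      obtain ⟨r, hr, he⟩ := hy2 k q' ⟨u'.take k, hlk, hLk⟩
      cases hb2 : pd (w none) k with
      | true => rfl
      | false => exact absurd he ((hdy k (hu' ▸ hk)).2 hb2 r (Le_trans hr hq'))
    | false =>
      rw [hb1] at hLk
      cases hb2 : pd (w none) k with
      | false => rfl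
      | true =>
        exfalso
        obtain ⟨u'', hl'', hL''⟩ := hy1 k q ((hdy k (hu' ▸ hk)).1 hb2)
        have h1 := (hL''.down hq').uniq hLk (by simp [hl'', hlk])
        have h2 := List.append_inj_right' h1 rfl
        simp at h2
  have heq : u' = w none := by
    exact (prefix_of_pd hu'.le key).eq_of_length hu'
  subst heq
  refine hL.1 q' (Le_refl _ _) (w none).length le_rfl fun z hz _ => ?_
  exact (hkill.down hb hF hq').ext hz

/-- T1: one new coordinate of level `γ` -/
theorem con_option [Finite ι] (hcode : S_CodeP) (hb : ∀ i, b i ≤ γ) (h : Con γ b) :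
    Con γ (ex b γ) := by
  intro O hF hC
  obtain ⟨S, hS, hH⟩ := h (Op O) (op_fam hF) (op_cov hcode hb hF hC)
  refine ⟨S, hS, fun ξ hξ x N p => ?_⟩
  obtain ⟨q, hq, n, j, v, hN, hd, ⟨l, hl⟩, hlen, hj⟩ := hH ξ hξ (fun i => x (some i)) N p
  obtain ⟨r, hr, u, hu, hdu⟩ := exists_dec γ (x none) l q
  obtain ⟨u', v', h1, h2, h3⟩ := hl u hu
  have hd' : Decs b (fun i => x (some i)) v r :=
    hr.decs (fun i => WithTop.coe_le_coe.2 (hb i)) hd
  have hc : q.c ξ <+: r.c ξ := hr.body.c ξ
  refine ⟨r, Le_trans hr hq, n, j, ex v' u', hN, ?_, hF.down _ _ _ _ _ hr h3,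
    hlen.trans_le hc.length_le, ?_⟩
  · intro o
    cases o with
    | none => exact dec_prefix h1 hdu
    | some i => exact dec_prefix (h2 i) (hd' i)
  · rw [← hc.getElem hlen]
    exact hj

end new

/-- the conclusion for sums -/
theorem con_sum (hcode : S_CodeP) {γ : W} (hI : Inv γ) (κ : Type) [Finite κ] :
    ∀ (ι : Type) [Finite ι] (b : ι ⊕ κ → W), (∀ i, b (Sum.inl i) < γ) →
      (∀ i, b (Sum.inr i) = γ) → Con γ b := by
  induction κ using Finite.induction_empty_option with
  | of_equiv e ih =>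
    rename_i α β
    intro ι _ b h1 h2
    exact con_equiv (Equiv.sumCongr (Equiv.refl ι) e) b
      (ih ι (fun i => b (Equiv.sumCongr (Equiv.refl ι) e i)) (fun i => h1 i) fun i => h2 _)
  | h_empty =>
    intro ι _ b h1 h2
    refine hI (ι ⊕ PEmpty) b fun i => ?_
    rcases i with i | i
    · exact h1 i
    · exact i.elim
  | h_option ih =>
    rename_i α _
    intro ι _ b h1 h2
    let e : Option (ι ⊕ α) ≃ ι ⊕ Option α :=
      { toFun := fun o => match o with
          | none => Sum.inr none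
          | some (Sum.inl i) => Sum.inl i
          | some (Sum.inr a) => Sum.inr (some a)
        invFun := fun s => match s with
          | Sum.inl i => some (Sum.inl i)
          | Sum.inr none => none
          | Sum.inr (some a) => some (Sum.inr a)
        left_inv := by rintro (_ | _ | _) <;> rfl
        right_inv := by rintro (_ | _ | _) <;> rfl }
    refine con_equiv e b ?_
    have h3 : Con γ (fun s : ι ⊕ α => b (e (some s))) :=
      ih ι _ (fun i => h1 i) fun i => h2 _
    have h4 : (fun o => b (e o)) = ex (fun s : ι ⊕ α => b (e (some s))) γ := by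
      funext o
      cases o with
      | none => exact h2 none
      | some s => rfl
    rw [h4]
    refine con_option hcode (fun s => ?_) h3
    rcases s with i | a
    · exact (h1 i).le
    · exact (h2 (some a)).le

end GTubeAux

open GTubeAux in
theorem tTube : S_CodeP → S_Tube := by
  intro hcode γ hI ι _ b hb
  classical
  have h1 : Con γ b := by
    refine con_equiv (Equiv.sumCompl fun i => b i < γ) b ?_
    refine con_sum hcode hI _ _ _ (fun i => ?_) fun i => ?_
    · exact i.2
    · exact le_antisymm (hb _) (not_lt.1 i.2)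
  exact h1

end Pool.Agent.B820
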