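import Pool.Agent.Lib.MP_820b44_gt.Spec

/-!
# The invariant at the least level: proof of `S_Zero`
-/

set_option autoImplicit false

open Set

namespace Pool.Agent.B820

open Pool.Agent.SymExt
open Pool.Agent.Lib.MP_e6371f_lc (W b0 nx not_lt_b0)
open Pool.Agent.Lib.MP_820b44_gt (Cl InC)

namespace GZeroAux

/-- replace the Cohen real `c ξ` by the finite sequence `l` -/
noncomputable def upd (p : Cn) (ξ : Om) (l : List ℕ) : Cn := by
  classical
  exact
    { c := Function.update p.c ξ l
      t := p.t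
      s := p.s
      d := p.d
      fc := (p.fc.union (finite_singleton ξ)).subset fun ζ hζ => by
        by_cases h : ζ = ξ
        · exact Or.inr h
        · left
          simp only [mem_ofPred_eq, ne_eq] at hζ
          rw [Function.update_of_ne h] at hζ
          exact hζ
      ft := p.ft
      fs := p.fs
      fd := p.fd }

theorem upd_self (p : Cn) (ξ : Om) (l : List ℕ) : (upd p ξ l).c ξ = l := by
  classical
  exact Function.update_self _ _ _

theorem upd_ne (p : Cn) {ξ ζ : Om} (l : List ℕ) (h : ζ ≠ ξ) : (upd p ξ l).c ζ = p.c ζ := by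
  classical
  exact Function.update_of_ne h _ _

/-- at the least level only the Cohen reals are compared -/
theorem le_b0 {p q : Cn} (h : ∀ ξ, q.c ξ <+: p.c ξ) : Le (b0 : WithTop W) p q := by
  have hb : ∀ β : W, ¬ (β : WithTop W) < (b0 : W) := fun β hβ =>
    not_lt_b0 β (WithTop.coe_lt_coe.1 hβ)
  exact Le_iff.2 ⟨h, fun β hβ => absurd hβ (hb β), fun β hβ => absurd hβ (hb β),
    fun β U m hβ => absurd hβ (hb β), fun β U a hβ => absurd hβ (hb β),
    fun β U m a hβ => absurd hβ (hb β)⟩

end GZeroAux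

open GZeroAux

theorem tZero : S_Pred → S_Zero := by
  intro hP ι _ b hb O hF hC
  have hι : IsEmpty ι := ⟨fun i => not_lt_b0 _ (hb i)⟩
  let v₀ : ι → List Bool := fun i => isEmptyElim i
  choose B hB hBc hBp using fun n => hP (b0 : W) (⋃ j, O n j v₀)
  refine ⟨⋃ n, ⋃ a ∈ B n, {ξ | a.c ξ ≠ []}, Set.countable_iUnion fun n =>
    (hBc n).biUnion fun a _ => a.fc.countable, fun ξ hξ x N p => ?_⟩
  have hξ' : ∀ n, ∀ a ∈ B n, a.c ξ = [] := by
    intro n a ha
    by_contra h
    exact hξ (Set.mem_iUnion.2 ⟨n, Set.mem_biUnion ha h⟩)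
  let n : ℕ := max N (p.c ξ).length
  obtain ⟨q, hq, j, v, _, hqO⟩ := hC x n p
  have hv : v = v₀ := Subsingleton.elim _ _
  rw [hv] at hqO
  obtain ⟨a, ha, r₀, h1, h2⟩ := hBp n q (Set.mem_iUnion.2 ⟨j, hqO⟩)
  obtain ⟨j', hj'⟩ := Set.mem_iUnion.1 (hB n ha)
  let l : List ℕ := p.c ξ ++ List.replicate (n + 1 - (p.c ξ).length) j'
  have hra : Le (b0 : W) (upd r₀ ξ l) a := by
    refine le_b0 fun ζ => ?_
    by_cases h : ζ = ξ
    · rw [h, hξ' n a ha]
      exact List.nil_prefix
    · rw [upd_ne _ _ h]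
      exact h2.body.c ζ
  have hrp : Le (b0 : W) (upd r₀ ξ l) p := by
    refine le_b0 fun ζ => ?_
    by_cases h : ζ = ξ
    · rw [h, upd_self]
      exact List.prefix_append _ _
    · rw [upd_ne _ _ h]
      exact (Le_trans h1 hq).body.c ζ
  have hlen : l.length = n + 1 := by
    have : (p.c ξ).length ≤ n := le_max_right _ _
    simp only [l, List.length_append, List.length_replicate]
    omega
  refine ⟨upd r₀ ξ l, hrp, n, j', v₀, le_max_left _ _, fun i => isEmptyElim i,
    hF.down n j' v₀ _ _ hra hj', ?_⟩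
  have e : (upd r₀ ξ l).c ξ = l := upd_self _ _ _
  rw [e]
  refine ⟨by omega, ?_⟩
  have h3 : (p.c ξ).length ≤ n := le_max_right _ _
  simp only [l]
  rw [List.getElem_append_right h3, List.getElem_replicate]

end Pool.Agent.B820
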