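import Pool.Agent.Lib.MP_820b44_gt.Inst
import Pool.Agent.Lib.MP_820b44_gt.Code
import Pool.Agent.Lib.MP_820b44_gt.Pred
import Pool.Agent.Lib.MP_820b44_gt.CodeP
import Pool.Agent.Lib.MP_820b44_gt.CodeT
import Pool.Agent.Lib.MP_820b44_gt.Zero
import Pool.Agent.Lib.MP_820b44_gt.Lim
import Pool.Agent.Lib.MP_820b44_gt.Tube
import Pool.Agent.Lib.MP_820b44_gt.Succ
import Pool.Agent.Lib.MP_820b44_gt.Inva
import Pool.Agent.Lib.MP_820b44_gt.Dom
import Pool.Agent.Lib.MP_820b44_gt.Pad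
import Pool.Agent.Lib.MP_820b44_gt.Ones
import Pool.Agent.Lib.MP_820b44_gt.Cont
import Pool.Agent.Lib.MP_820b44_gt.Surj
import Pool.Agent.Lib.MP_820b44_gt.Add
import Pool.Agent.Lib.MP_820b44_gt.Gama
import Pool.Agent.Lib.MP_820b44_gt.Gamb
import Pool.Agent.Lib.MP_820b44_gt.Gam
import Pool.Agent.Lib.MP_820b44_gt.Br.Final

/-!
# The final assembly
-/

set_option autoImplicit false

namespace Pool.Agent.B820

open Pool.Agent.Lib.MP_820b44_gt (Goal goal_of_core)

theorem inva : S_Inva := tInva (tZero tPred) tLim (tTube (tCodeP tCode tPred)) (tSucc tPred)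

theorem goal : Goal :=
  goal_of_core (core (tOnes tPad)
    (tGam (tCodeT tCode tPred) (tGama tAdd tPad) (tGamb tPad))
    (tCont (tOnes tPad) tPad) (tSurj (tCodeT tCode tPred) (tOnes tPad)) (tDom tPred inva))

end Pool.Agent.B820
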