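import Pool.Agent.Lib.MP_820b44_gt.Spec

/-!
# The instance of the interface
-/

set_option autoImplicit false
set_option linter.unusedSectionVars false
set_option linter.unusedVariables false

open Set

namespace Pool.Agent.B820

open Pool.Agent.SymExt
open Pool.Agent.Lib.MP_e6371f_lc (W)
open Pool.Agent.Lib.MP_820b44_gt (Core)

/-- the poset provides everything that is needed -/
noncomputable def core (h1 : S_Ones) (h2 : S_Gam) (h3 : S_Cont) (h4 : S_Surj) (h5 : S_Dom) :
    Core Cn W Ix where
  a := aN
  y := yN
  inf i p n := by
    obtain ⟨q, hq, k, hk, h⟩ := h1 p i n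
    exact ⟨q, hq, k, hk, aN_of h⟩
  gam := h2
  D := DN
  cont := h3
  surj := h4
  dom := h5

end Pool.Agent.B820
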