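import Pool.Agent.Lib.MP_820b44_gt.Defs

/-!
# The order: basic facts
-/

set_option autoImplicit false
set_option linter.unusedSectionVars false
set_option linter.unusedVariables false

open Set

namespace Pool.Agent.B820

open Pool.Agent.Lib.MP_e6371f_lc (W W_bdd)
open Pool.Agent.Lib.MP_820b44_gt (Cl)

/-! ### Finite sequences -/

theorem pd_ge {v : List Bool} {k : ℕ} (h : v.length ≤ k) : pd v k = false := by
  unfold pd
  rw [List.getD_eq_getElem?_getD, List.getElem?_eq_none h]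
  rfl

theorem pd_lt {v : List Bool} {k : ℕ} (h : k < v.length) : pd v k = v[k] := by
  unfold pd
  rw [List.getD_eq_getElem?_getD, List.getElem?_eq_getElem h]
  rfl

theorem lt_of_pd {v : List Bool} {k : ℕ} (h : pd v k = true) : k < v.length := by
  by_contra hc
  rw [pd_ge (not_lt.1 hc)] at h
  exact absurd h (by simp)

theorem pd_prefix {t t' : List Bool} (h : t <+: t') {k : ℕ} (hk : k < t.length) :
    pd t' k = pd t k := by
  obtain ⟨u, rfl⟩ := h
  unfold pd
  rw [List.getD_eq_getElem?_getD, List.getD_eq_getElem?_getD, List.getElem?_append_left hk]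

theorem pd_append_left {t u : List Bool} {k : ℕ} (hk : k < t.length) :
    pd (t ++ u) k = pd t k := pd_prefix (List.prefix_append _ _) hk

theorem cnt_prefix {t t' : List Bool} (h : t <+: t') {k : ℕ} (hk : k ≤ t.length) :
    cnt t' k = cnt t k := by
  obtain ⟨u, rfl⟩ := h
  unfold cnt
  rw [List.take_append_of_le_length hk]

theorem cl_congr {m : ℕ} {z z' : ℕ → Bool} (h : ∀ k < md m, z k = z' k) :
    z ∈ cl m ↔ z' ∈ cl m := by
  unfold cl
  simp only [mem_ofPred_eq]
  refine exists_congr fun s => and_congr_right fun _ => forall_congr' fun i =>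
    forall_congr' fun hi => ?_
  rw [h i hi]

theorem cnt_mono (t : List Bool) {i j : ℕ} (h : i ≤ j) : cnt t i ≤ cnt t j := by
  unfold cnt
  exact (List.take_prefix_take_left (l := t) h).sublist.count_le _

/-- the points given by longer initial segments agree below the modulus -/
theorem pts_congr {t t' v v' : List Bool} {N : ℕ} (ht : t <+: t') (hN : N ≤ t.length)
    (hv : ∀ k < cnt t N, pd v' k = pd v k) : ∀ k < N, pts t' v' k = pts t v k := by
  intro k hk
  unfold pts
  rw [pd_prefix ht (hk.trans_le hN), cnt_prefix ht (hk.le.trans hN)]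
  by_cases h : pd t k = true
  · have h1 : cnt t k < cnt t (k + 1) := by
      have hk' : k < t.length := hk.trans_le hN
      unfold cnt
      rw [List.take_add_one, List.getElem?_eq_getElem hk', List.count_append]
      rw [pd_lt hk'] at h
      simp [h]
    rw [hv _ (h1.trans_le (cnt_mono t hk))]
  · simp [h]

/-! ### Monotonicity -/

theorem ev_mono {L : Cn → Cn → Prop} (tr : ∀ p q r, L p q → L q r → L p r) {x : Cd} {n : ℕ}
    {p q : Cn} (h : L p q) (hq : ev L x n q) : ev L x n p := by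
  obtain ⟨r, hr, h1⟩ := hq
  exact ⟨r, hr, tr _ _ _ h h1⟩

theorem Dec_mono {L : Cn → Cn → Prop} (tr : ∀ p q r, L p q → L q r → L p r) {x : Cd}
    {v : List Bool} {p q : Cn} (h : L p q) (hq : Dec L x v q) : Dec L x v p := by
  intro n hn
  obtain ⟨h1, h2⟩ := hq n hn
  exact ⟨fun h3 => ev_mono tr h (h1 h3), fun h3 r hr => h2 h3 r (tr _ _ _ hr h)⟩

theorem Din_mono {L : Cn → Cn → Prop} (tr : ∀ p q r, L p q → L q r → L p r) {δ : W} {x : Cd}
    {m : ℕ} {p q : Cn} (h : L p q) (ht : q.t δ <+: p.t δ) (hq : Din L δ x m q) :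
    Din L δ x m p := by
  obtain ⟨h1, v, h2, h3, h4⟩ := hq
  refine ⟨h1.trans ht.length_le, v, ?_, Dec_mono tr h h3, ?_⟩
  · rw [cnt_prefix ht h1]; exact h2
  · exact (cl_congr (pts_congr ht h1 fun k _ => rfl)).2 h4

theorem Kin_mono {t t' w : List Bool} {m : ℕ} (ht : t <+: t') (h : Kin t w m) : Kin t' w m := by
  obtain ⟨h1, h2⟩ := h
  refine ⟨h1.trans ht.length_le, fun y h3 h4 => ?_⟩
  have h5 := h2 (fun k => if k < w.length ∨ k < md m then y k else false)
    (fun k hk => by rw [if_pos (Or.inl hk)]; exact h3 k hk)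
    (fun k hk hy => by
      by_cases hkm : k < md m
      · rw [if_pos (Or.inr hkm)] at hy
        rw [← pd_prefix ht (hkm.trans_le h1)]
        exact h4 k hk hy
      · rw [if_neg (by omega)] at hy
        exact absurd hy (by simp))
  refine (cl_congr fun k hk => ?_).1 h5
  rw [if_pos (Or.inr hk)]

theorem Okk_congr {L L' : W → Cn → Cn → Prop} {β : W} (h : ∀ δ, δ ≤ β → L δ = L' δ) (U : Cd)
    (m : ℕ) (p : Cn) (a : Sd Cd) : Okk L β U m p a ↔ Okk L' β U m p a := by
  cases a with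
  | pt δ x =>
    unfold Okk
    rw [h β le_rfl]
    refine and_congr_right fun _ => forall_congr' fun hδ => ?_
    rw [h δ hδ.le]
  | wd w =>
    unfold Okk
    rw [h β le_rfl]

theorem coe_lt_of {γ : WithTop W} {δ β : W} (h : δ ≤ β) (hβ : (β : WithTop W) < γ) :
    (δ : WithTop W) < γ := lt_of_le_of_lt (WithTop.coe_le_coe.2 h) hβ

theorem Body_congr {L L' : W → Cn → Cn → Prop} {γ : WithTop W}
    (h : ∀ β : W, (β : WithTop W) < γ → L β = L' β) {p q : Cn} (H : Body L γ p q) :
    Body L' γ p q :=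
  ⟨H.c, H.t, H.tw, H.s, H.d, fun β U m a hβ h1 h2 h3 =>
    (Okk_congr (fun δ hδ => h δ (coe_lt_of hδ hβ)) U m p a).1 (H.ok β U m a hβ h1 h2 h3)⟩

theorem Le_iff {γ : WithTop W} {p q : Cn} : Le γ p q ↔ Body (fun β => Le β) γ p q := by
  have h := (wellFounded_lt (α := WithTop W)).fix_eq (C := fun _ => Cn → Cn → Prop)
    (fun γ ih p q => Body (fun β p' q' => ∃ h : (β : WithTop W) < γ, ih β h p' q') γ p q) γ
  have h' : Le γ p q ↔ Body (fun β p' q' => ∃ h : (β : WithTop W) < γ, Le β p' q') γ p q := by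
    unfold Le
    rw [h]
  rw [h']
  have h2 : ∀ β : W, (β : WithTop W) < γ →
      (fun p' q' => ∃ h : (β : WithTop W) < γ, Le β p' q') = Le β := by
    intro β hβ
    funext p' q'
    exact propext ⟨fun ⟨_, h⟩ => h, fun h => ⟨hβ, h⟩⟩
  exact ⟨Body_congr h2, Body_congr fun β hβ => (h2 β hβ).symm⟩

theorem Le.body {γ : WithTop W} {p q : Cn} (h : Le γ p q) : Body (fun β => Le β) γ p q :=
  Le_iff.1 h

/-- `p` and `q` have the same Cohen reals and the same data at the levels below `γ` -/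
structure Eqv (γ : WithTop W) (p q : Cn) : Prop where
  c : p.c = q.c
  t : ∀ β : W, (β : WithTop W) < γ → p.t β = q.t β
  s : ∀ (β : W) (U : Cd) (m : ℕ), (β : WithTop W) < γ → ((β, U, m) ∈ p.s ↔ (β, U, m) ∈ q.s)
  d : ∀ (β : W) (U : Cd) (a : Sd Cd), (β : WithTop W) < γ →
    ((β, U, a) ∈ p.d ↔ (β, U, a) ∈ q.d)

theorem Eqv.symm {γ : WithTop W} {p q : Cn} (h : Eqv γ p q) : Eqv γ q p :=
  ⟨h.c.symm, fun β hβ => (h.t β hβ).symm, fun β U m hβ => (h.s β U m hβ).symm,
    fun β U a hβ => (h.d β U a hβ).symm⟩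

theorem Eqv.le {γ : WithTop W} {p q : Cn} (h : Eqv γ p q) : Le γ p q := by
  refine Le_iff.2 ⟨fun ξ => by rw [h.c], fun β hβ => by rw [h.t β hβ], ?_,
    fun β U m hβ hm => (h.s β U m hβ).2 hm, fun β U a hβ ha => (h.d β U a hβ).2 ha,
    fun β U m a hβ h1 h2 _ => absurd ((h.s β U m hβ).1 h1) h2⟩
  intro β hβ _ m hm hp
  rw [h.t β hβ, pd_ge hm] at hp
  exact absurd hp (by simp)

theorem Le_refl (γ : WithTop W) (p : Cn) : Le γ p p :=
  Eqv.le ⟨rfl, fun _ _ => rfl, fun _ _ _ _ => Iff.rfl, fun _ _ _ _ => Iff.rfl⟩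

theorem Le_mono {β γ : WithTop W} (h : β ≤ γ) {p q : Cn} (H : Le γ p q) : Le β p q := by
  have H := H.body
  exact Le_iff.2 ⟨H.c, fun δ hδ => H.t δ (hδ.trans_le h), fun δ hδ => H.tw δ (hδ.trans_le h),
    fun δ U m hδ => H.s δ U m (hδ.trans_le h), fun δ U a hδ => H.d δ U a (hδ.trans_le h),
    fun δ U m a hδ => H.ok δ U m a (hδ.trans_le h)⟩

theorem Okk_mono_aux {γ : WithTop W}
    (tr : ∀ β < γ, ∀ p q r, Le β p q → Le β q r → Le β p r) {β : W} (hβ : (β : WithTop W) < γ)
    {U : Cd} {m : ℕ} {p q : Cn} {a : Sd Cd} (h : Le γ p q)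
    (hq : Okk (fun β => Le β) β U m q a) : Okk (fun β => Le β) β U m p a := by
  cases a with
  | pt δ x =>
    obtain ⟨h1, h2⟩ := hq
    refine ⟨ev_mono (tr β hβ) (Le_mono hβ.le h) h1, fun hδ => ?_⟩
    have hδγ : (δ : WithTop W) < γ := coe_lt_of hδ.le hβ
    exact Din_mono (tr δ hδγ) (Le_mono hδγ.le h) (h.body.t δ hδγ) (h2 hδ)
  | wd w =>
    obtain ⟨h1, h2⟩ := hq
    exact ⟨ev_mono (tr β hβ) (Le_mono hβ.le h) h1, Kin_mono (h.body.t β hβ) h2⟩

theorem Le_trans {γ : WithTop W} {p q r : Cn} (h1 : Le γ p q) (h2 : Le γ q r) : Le γ p r := by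
  induction γ using WellFoundedLT.induction generalizing p q r with
  | ind γ ih =>
  have tr : ∀ β < γ, ∀ p q r, Le β p q → Le β q r → Le β p r :=
    fun β hβ p q r h h' => ih β hβ h h'
  have H1 := h1.body
  have H2 := h2.body
  refine Le_iff.2 ⟨fun ξ => (H2.c ξ).trans (H1.c ξ), fun β hβ => (H2.t β hβ).trans (H1.t β hβ),
    ?_, fun β U m hβ h => H1.s β U m hβ (H2.s β U m hβ h),
    fun β U a hβ h => H1.d β U a hβ (H2.d β U a hβ h), ?_⟩
  · intro β hβ hne m hm hp δ hδ hδne
    have hδγ : (δ : WithTop W) < γ := coe_lt_of hδ.le hβ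
    by_cases hmq : m < (q.t β).length
    · have h3 : pd (q.t β) m = true := by rw [← pd_prefix (H1.t β hβ) hmq]; exact hp
      have h4 := H2.tw β hβ hne m hm h3 δ hδ hδne
      rw [pd_prefix (H1.t δ hδγ) (lt_of_pd h4)]
      exact h4
    · refine H1.tw β hβ ?_ m (not_lt.1 hmq) hp δ hδ ?_
      · intro h0
        have := H2.t β hβ
        rw [h0] at this
        exact hne (List.prefix_nil.1 this)
      · intro h0
        have := H2.t δ hδγ
        rw [h0] at this
        exact hδne (List.prefix_nil.1 this)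
  · intro β U m a hβ h3 h4 h5
    by_cases h6 : (β, U, m) ∈ q.s
    · exact Okk_mono_aux tr hβ h1 (H2.ok β U m a hβ h6 h4 h5)
    · exact H1.ok β U m a hβ h3 h6 (H2.d β U a hβ h5)

theorem Okk_mono {γ : WithTop W} {β : W} (hβ : (β : WithTop W) < γ) {U : Cd} {m : ℕ} {p q : Cn}
    {a : Sd Cd} (h : Le γ p q) (hq : Okk (fun β => Le β) β U m q a) :
    Okk (fun β => Le β) β U m p a :=
  Okk_mono_aux (fun _ _ _ _ _ h h' => Le_trans h h') hβ h hq

theorem Okk.ev {β : W} {U : Cd} {m : ℕ} {p : Cn} {a : Sd Cd}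
    (h : Okk (fun β => Le β) β U m p a) : ev (Le β) U m p := by
  cases a with
  | pt δ x => exact h.1
  | wd w => exact h.1

theorem Le.ev {γ : WithTop W} {x : Cd} {n : ℕ} {p q : Cn} (h : Le γ p q)
    (hq : B820.ev (Le γ) x n q) : B820.ev (Le γ) x n p :=
  ev_mono (L := Le γ) (fun _ _ _ h1 h2 => Le_trans h1 h2) h hq

theorem Le.dec {γ : WithTop W} {x : Cd} {v : List Bool} {p q : Cn} (h : Le γ p q)
    (hq : Dec (Le γ) x v q) : Dec (Le γ) x v p :=
  Dec_mono (L := Le γ) (fun _ _ _ h1 h2 => Le_trans h1 h2) h hq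

theorem Le.decs {γ : WithTop W} {ι : Type} {b : ι → W} (hb : ∀ i, (b i : WithTop W) ≤ γ)
    {x : ι → Cd} {v : ι → List Bool} {p q : Cn} (h : Le γ p q) (hq : Decs b x v q) :
    Decs b x v p := fun i => (Le_mono (hb i) h).dec (hq i)

/-- two initial segments of the same real agree -/
theorem Dec_unique {γ : WithTop W} {x : Cd} {v v' : List Bool} {p : Cn} (h : Dec (Le γ) x v p)
    (h' : Dec (Le γ) x v' p) {n : ℕ} (hn : n < v.length) (hn' : n < v'.length) :
    pd v n = pd v' n := by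
  obtain ⟨h1, h2⟩ := h n hn
  obtain ⟨h3, h4⟩ := h' n hn'
  cases hv : pd v n <;> cases hv' : pd v' n
  · rfl
  · exact absurd (h3 hv') (h2 hv p (Le_refl _ _))
  · exact absurd (h1 hv) (h4 hv' p (Le_refl _ _))
  · rfl

/-- initial segments can be decided -/
theorem exists_dec (γ : WithTop W) (x : Cd) (N : ℕ) (p : Cn) :
    ∃ q, Le γ q p ∧ ∃ v : List Bool, v.length = N ∧ Dec (Le γ) x v q := by
  induction N with
  | zero => exact ⟨p, Le_refl _ _, [], rfl, fun n hn => absurd hn (by simp)⟩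
  | succ N ih =>
    obtain ⟨q, hq, v, hv, hd⟩ := ih
    by_cases h : ∃ r, Le γ r q ∧ ev (Le γ) x N r
    · obtain ⟨r, hr, he⟩ := h
      refine ⟨r, Le_trans hr hq, v ++ [true], by simp [hv], fun n hn => ?_⟩
      rw [List.length_append, hv] at hn
      simp only [List.length_cons, List.length_nil, zero_add] at hn
      by_cases hnN : n < N
      · rw [pd_append_left (by omega)]
        exact hr.dec hd n (by omega)
      · have : n = N := by omega
        subst this
        have h1 : pd (v ++ [true]) n = true := by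
          unfold pd
          rw [List.getD_eq_getElem?_getD, List.getElem?_append_right (by omega)]
          simp [hv]
        exact ⟨fun _ => he, fun h2 => by rw [h1] at h2; exact absurd h2 (by simp)⟩
    · refine ⟨q, hq, v ++ [false], by simp [hv], fun n hn => ?_⟩
      rw [List.length_append, hv] at hn
      simp only [List.length_cons, List.length_nil, zero_add] at hn
      by_cases hnN : n < N
      · rw [pd_append_left (by omega)]
        exact hd n (by omega)
      · have : n = N := by omega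
        subst this
        have h1 : pd (v ++ [false]) n = false := by
          unfold pd
          rw [List.getD_eq_getElem?_getD, List.getElem?_append_right (by omega)]
          simp [hv]
        refine ⟨fun h2 => by rw [h1] at h2; exact absurd h2 (by simp), fun _ r hr he => h ⟨r, hr, he⟩⟩

/-! ### Grafting -/

theorem coe_lt' {β γ : W} : ((β : WithTop W) < (γ : WithTop W)) ↔ β < γ := WithTop.coe_lt_coe

theorem graft_eqv (γ : W) (q r : Cn) : Eqv γ (graft γ q r) q := by
  refine ⟨rfl, fun β hβ => if_pos (coe_lt'.1 hβ), fun β U m hβ => ?_, fun β U a hβ => ?_⟩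
  · have h := coe_lt'.1 hβ
    exact ⟨fun h1 => h1.elim (fun h2 => h2.1) fun h2 => absurd h (not_lt.2 h2.2),
      fun h1 => Or.inl ⟨h1, h⟩⟩
  · have h := coe_lt'.1 hβ
    exact ⟨fun h1 => h1.elim (fun h2 => h2.1) fun h2 => absurd h (not_lt.2 h2.2),
      fun h1 => Or.inl ⟨h1, h⟩⟩

/-- projection: a condition that is stronger than `p` below `γ` and equal to `p` from `γ` on is
stronger than `p` -/
theorem graft_le {γ : W} {q p : Cn} (h : Le γ q p) (γ' : WithTop W) :
    Le γ' (graft γ q p) p := by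
  have H := h.body
  have hg : Le γ (graft γ q p) q := (graft_eqv γ q p).le
  refine Le_iff.2 ⟨H.c, fun β _ => ?_, fun β _ hne m hm hp δ hδ hδne => ?_,
    fun β U m _ hm => ?_, fun β U a _ ha => ?_, fun β U m a _ h1 h2 h3 => ?_⟩
  · change _ <+: (if β < γ then q.t β else p.t β)
    by_cases hβ : β < γ
    · rw [if_pos hβ]; exact H.t β (coe_lt'.2 hβ)
    · rw [if_neg hβ]
  · change pd (if β < γ then q.t β else p.t β) m = true at hp
    change pd (if δ < γ then q.t δ else p.t δ) m = true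
    by_cases hβ : β < γ
    · rw [if_pos hβ] at hp
      rw [if_pos (hδ.trans hβ)]
      exact H.tw β (coe_lt'.2 hβ) hne m hm hp δ hδ hδne
    · rw [if_neg hβ, pd_ge hm] at hp
      exact absurd hp (by simp)
  · by_cases hβ : β < γ
    · exact Or.inl ⟨H.s β U m (coe_lt'.2 hβ) hm, hβ⟩
    · exact Or.inr ⟨hm, not_lt.1 hβ⟩
  · by_cases hβ : β < γ
    · exact Or.inl ⟨H.d β U a (coe_lt'.2 hβ) ha, hβ⟩
    · exact Or.inr ⟨ha, not_lt.1 hβ⟩
  · rcases h1 with ⟨h1, hβ⟩ | ⟨h1, _⟩
    · exact Okk_mono (coe_lt'.2 hβ) hg (H.ok β U m a (coe_lt'.2 hβ) h1 h2 h3)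
    · exact absurd h1 h2

/-- a condition whose data are below `β` is compared below `β` -/
theorem Le_of_supp {β : W} {p q : Cn} (hq : Supp β q) (h : Le β p q) (γ : WithTop W) :
    Le γ p q := by
  have H := h.body
  obtain ⟨h1, h2, h3⟩ := hq
  refine Le_iff.2 ⟨H.c, fun δ _ => ?_, fun δ _ hne => ?_, fun δ U m _ hm => ?_,
    fun δ U a _ ha => ?_, fun δ U m a _ h4 h5 h6 => ?_⟩
  · by_cases hδ : δ < β
    · exact H.t δ (coe_lt'.2 hδ)
    · rw [h1 δ (not_lt.1 hδ)]; exact List.nil_prefix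
  · have hδ : δ < β := by
      by_contra hc
      exact hne (h1 δ (not_lt.1 hc))
    exact H.tw δ (coe_lt'.2 hδ) hne
  · exact H.s δ U m (coe_lt'.2 (h2 δ U m hm)) hm
  · exact H.d δ U a (coe_lt'.2 (h3 δ U a ha)) ha
  · exact H.ok δ U m a (coe_lt'.2 (h3 δ U a h6)) h4 h5 h6

theorem Supp.mono {β γ : W} (h : β ≤ γ) {p : Cn} (hp : Supp β p) : Supp γ p :=
  ⟨fun δ hδ => hp.1 δ (h.trans hδ), fun δ U m hm => (hp.2.1 δ U m hm).trans_le h,
    fun δ U a ha => (hp.2.2 δ U a ha).trans_le h⟩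

/-- the data of `p` below `γ` -/
noncomputable def trunc (γ : W) (p : Cn) : Cn := graft γ p Cond.one

theorem trunc_supp (γ : W) (p : Cn) : Supp γ (trunc γ p) := by
  refine ⟨fun β hβ => ?_, fun β U m hm => ?_, fun β U a ha => ?_⟩
  · change (if β < γ then p.t β else []) = []
    rw [if_neg (not_lt.2 hβ)]
  · rcases hm with ⟨_, h⟩ | ⟨h, _⟩
    · exact h
    · exact absurd h (by simp [Cond.one])
  · rcases ha with ⟨_, h⟩ | ⟨h, _⟩
    · exact h
    · exact absurd h (by simp [Cond.one])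

theorem trunc_eqv (γ : W) (p : Cn) : Eqv γ (trunc γ p) p := graft_eqv γ p _

theorem le_trunc (γ : W) (p : Cn) (γ' : WithTop W) : Le γ' p (trunc γ p) :=
  Le_of_supp (trunc_supp γ p) (trunc_eqv γ p).symm.le γ'

theorem Le_one (γ : WithTop W) (p : Cn) : Le γ p Cond.one := by
  refine Le_iff.2 ⟨fun _ => List.nil_prefix, fun _ _ => List.nil_prefix,
    fun β _ h => absurd rfl h, fun _ _ _ _ h => absurd h (by simp [Cond.one]),
    fun _ _ _ _ h => absurd h (by simp [Cond.one]),
    fun _ _ _ _ _ _ _ h => absurd h (by simp [Cond.one])⟩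

theorem Le_antisymm {p q : Cn} (h1 : Le ⊤ p q) (h2 : Le ⊤ q p) : p = q := by
  have H1 := h1.body
  have H2 := h2.body
  have ht : ∀ β : W, (β : WithTop W) < ⊤ := fun β => WithTop.coe_lt_top β
  refine Cond.ext ?_ ?_ ?_ ?_
  · funext ξ
    exact (H2.c ξ).eq_of_length_le (H1.c ξ).length_le
  · funext β
    exact (H2.t β (ht β)).eq_of_length_le (H1.t β (ht β)).length_le
  · ext ⟨β, U, m⟩
    exact ⟨fun h => H2.s β U m (ht β) h, fun h => H1.s β U m (ht β) h⟩
  · ext ⟨β, U, a⟩
    exact ⟨fun h => H2.d β U a (ht β) h, fun h => H1.d β U a (ht β) h⟩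

/-- the data of countably many conditions are below some level -/
theorem exists_supp {A : Set Cn} (hA : A.Countable) : ∃ β : W, ∀ p ∈ A, Supp β p := by
  have h : (⋃ p ∈ A, ({β | p.t β ≠ []} ∪ (fun z => z.1) '' p.s ∪
      (fun z => z.1) '' p.d : Set W)).Countable :=
    hA.biUnion fun p _ => ((p.ft.countable.union (p.fs.image _).countable).union
      (p.fd.image _).countable)
  obtain ⟨β, hβ⟩ := W_bdd h
  refine ⟨β, fun p hp => ⟨fun δ hδ => ?_, fun δ U m hm => ?_, fun δ U a ha => ?_⟩⟩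
  · by_contra hne
    exact absurd (hβ δ (mem_biUnion hp (Or.inl (Or.inl hne)))) (not_lt.2 hδ)
  · exact hβ δ (mem_biUnion hp (Or.inl (Or.inr ⟨_, hm, rfl⟩)))
  · exact hβ δ (mem_biUnion hp (Or.inr ⟨_, ha, rfl⟩))

theorem exists_supp_one (p : Cn) : ∃ β : W, Supp β p := by
  obtain ⟨β, h⟩ := exists_supp (countable_singleton p)
  exact ⟨β, h p rfl⟩

end Pool.Agent.B820
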