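import Pool.Agent.Lib.MP_820b44_gt.Spec

/-!
# Pad: one can append zeros to `t β`
-/

set_option autoImplicit false
set_option linter.unusedSectionVars false
set_option linter.unusedVariables false

open Set

namespace Pool.Agent.B820

open Pool.Agent.SymExt
open Pool.Agent.Lib.MP_e6371f_lc (W b0 nx)
open Pool.Agent.Lib.MP_820b44_gt (Cl InC)

private theorem pd_app (v : List Bool) (N k : ℕ) : pd (v ++ List.replicate N false) k = pd v k := by
  by_cases h : k < v.length
  · exact pd_append_left h
  · rw [pd_ge (not_lt.1 h)]
    unfold pd
    rw [List.getD_eq_getElem?_getD, List.getElem?_append_right (not_lt.1 h), List.getElem?_replicate]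
    split_ifs <;> rfl

open Classical in
/-- `p` with `t β` replaced -/
private noncomputable def padd (p : Cn) (β : W) (N : ℕ) : Cn where
  c := p.c
  t := Function.update p.t β (p.t β ++ List.replicate N false)
  s := p.s
  d := p.d
  fc := p.fc
  ft := (p.ft.insert β).subset fun δ hδ => by
    by_cases h : δ = β
    · exact Or.inl h
    · right
      simp only [mem_ofPred_eq] at hδ ⊢
      rwa [Function.update_of_ne h] at hδ
  fs := p.fs
  fd := p.fd

theorem tPad : S_Pad := by
  intro p β N
  have ht : (padd p β (N + 1)).t β = p.t β ++ List.replicate (N + 1) false := by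
    change Function.update p.t β (p.t β ++ List.replicate (N + 1) false) β = _
    exact Function.update_self _ _ _
  have ht' : ∀ δ, δ ≠ β → (padd p β (N + 1)).t δ = p.t δ := by
    intro δ h
    change Function.update p.t β (p.t β ++ List.replicate (N + 1) false) δ = _
    exact Function.update_of_ne h _ _
  have hpd : ∀ δ k, pd ((padd p β (N + 1)).t δ) k = pd (p.t δ) k := by
    intro δ k
    by_cases h : δ = β
    · subst h
      rw [ht, pd_app]
    · rw [ht' δ h]
  refine ⟨padd p β (N + 1), ?_, ?_, ?_, fun k => hpd β k, ht', rfl, rfl, rfl⟩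
  · refine le_def.2 (Le_iff.2 ⟨fun ξ => List.prefix_refl _, fun δ _ => ?_, fun δ _ hne m hm hp => ?_,
      fun _ _ _ _ h => h, fun _ _ _ _ h => h, fun _ _ _ _ _ h1 h2 => absurd h1 h2⟩)
    · by_cases h : δ = β
      · subst h
        rw [ht]
        exact List.prefix_append _ _
      · rw [ht' δ h]
    · rw [hpd, pd_ge hm] at hp
      exact absurd hp (by simp)
  · rw [ht, List.length_append, List.length_replicate]
    omega
  · rw [ht]
    simp

end Pool.Agent.B820
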