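import Pool.Agent.Lib.MP_820b44_gt.Ord

/-!
# The poset and the names of the points
-/

set_option autoImplicit false
set_option linter.unusedSectionVars false
set_option linter.unusedVariables false

open Set

namespace Pool.Agent.B820

open Pool.Agent.SymExt
open Pool.Agent.Lib.MP_e6371f_lc (W W_bdd)
open Pool.Agent.Lib.MP_820b44_gt (Cl InC)

/-- the order of the set of conditions -/
noncomputable instance : PartialOrder Cn where
  le p q := Le ⊤ p q
  le_refl p := Le_refl ⊤ p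
  le_trans _ _ _ h h' := Le_trans h h'
  le_antisymm _ _ h h' := Le_antisymm h h'

noncomputable instance : OrderTop Cn where
  top := Cond.one
  le_top p := Le_one ⊤ p

theorem le_def {p q : Cn} : p ≤ q ↔ Le ⊤ p q := Iff.rfl

theorem le_Le {p q : Cn} (h : p ≤ q) (γ : WithTop W) : Le γ p q := Le_mono le_top h

/-! ### Truth values -/

section gen

variable {P : Type} [Preorder P]

/-- the truth value generated by a property of conditions -/
def hl (S : P → Prop) : RO P where
  ok p := ∀ q ≤ p, ∃ r ≤ q, ∀ s ≤ r, S s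
  mono h hp q hq := hp q (hq.trans h)
  dense {p} h q hq := by
    obtain ⟨r, hr, h1⟩ := h q hq
    obtain ⟨s, hs, h2⟩ := h1 r le_rfl
    exact ⟨s, hs.trans hr, h2⟩

theorem hl_iff {S : P → Prop} (hS : ∀ p q, q ≤ p → S p → S q) {p : P} :
    hl S p ↔ ∀ q ≤ p, ∃ r ≤ q, S r :=
  ⟨fun h q hq => by
    obtain ⟨r, hr, h1⟩ := h q hq
    exact ⟨r, hr, h1 r le_rfl⟩,
   fun h q hq => by
    obtain ⟨r, hr, h1⟩ := h q hq
    exact ⟨r, hr, fun s hs => hS _ _ hs h1⟩⟩

theorem hl_of {S : P → Prop} (hS : ∀ p q, q ≤ p → S p → S q) {p : P} (h : S p) : hl S p :=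
  (hl_iff hS).2 fun q hq => ⟨q, le_rfl, hS _ _ hq h⟩

/-- `p` decides that `v` is an initial segment of the real `x` -/
def DecR (x : ℕ → RO P) (v : List Bool) (p : P) : Prop :=
  ∀ n < v.length, (pd v n = true → x n p) ∧ (pd v n = false → ∀ q ≤ p, ¬ x n q)

theorem DecR.mono {x : ℕ → RO P} {v : List Bool} {p q : P} (h : q ≤ p) (hp : DecR x v p) :
    DecR x v q := fun n hn => ⟨fun h1 => (x n).mono h ((hp n hn).1 h1),
      fun h1 r hr => (hp n hn).2 h1 r (hr.trans h)⟩

theorem DecR.eq {x : ℕ → RO P} {v v' : List Bool} {p : P} (h : DecR x v p) (h' : DecR x v' p)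
    {n : ℕ} (hn : n < v.length) (hn' : n < v'.length) : pd v n = pd v' n := by
  obtain ⟨h1, h2⟩ := h n hn
  obtain ⟨h3, h4⟩ := h' n hn'
  cases hv : pd v n <;> cases hv' : pd v' n
  · rfl
  · exact absurd (h3 hv') (h2 hv p le_rfl)
  · exact absurd (h1 hv) (h4 hv' p le_rfl)
  · rfl

theorem pd_snoc (v : List Bool) (b : Bool) : pd (v ++ [b]) v.length = b := by
  unfold pd
  rw [List.getD_eq_getElem?_getD, List.getElem?_append_right le_rfl]
  simp

theorem exists_decR (x : ℕ → RO P) (N : ℕ) (p : P) :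
    ∃ q ≤ p, ∃ v : List Bool, v.length = N ∧ DecR x v q := by
  induction N with
  | zero => exact ⟨p, le_rfl, [], rfl, fun n hn => absurd hn (by simp)⟩
  | succ N ih =>
    obtain ⟨q, hq, v, hv, hd⟩ := ih
    have key : ∀ (b : Bool) (r : P), r ≤ q → (b = true → x N r) →
        (b = false → ∀ s ≤ r, ¬ x N s) → DecR x (v ++ [b]) r := by
      intro b r hr h1 h2 n hn
      rw [List.length_append, hv] at hn
      simp only [List.length_cons, List.length_nil, zero_add] at hn
      by_cases hnN : n < N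
      · rw [pd_append_left (by omega)]
        exact hd.mono hr n (by omega)
      · have : n = v.length := by omega
        subst this
        rw [pd_snoc, hv]
        exact ⟨h1, h2⟩
    by_cases h : ∃ r ≤ q, x N r
    · obtain ⟨r, hr, he⟩ := h
      exact ⟨r, hr.trans hq, v ++ [true], by simp [hv],
        key true r hr (fun _ => he) (fun h => absurd h (by simp))⟩
    · push Not at h
      exact ⟨q, hq, v ++ [false], by simp [hv],
        key false q le_rfl (fun h => absurd h (by simp)) (fun _ => h)⟩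

/-- `p` forces that the real is in the clopen set -/
theorem InC_iff {x : ℕ → RO P} {m : ℕ} {p : P} : InC x m p ↔
    ∀ q ≤ p, ∃ r ≤ q, ∃ v : List Bool, md m ≤ v.length ∧ DecR x v r ∧ pd v ∈ cl m := by
  unfold InC
  refine forall_congr' fun q => forall_congr' fun hq => ?_
  constructor
  · rintro ⟨r, hr, s, hs, hd⟩
    obtain ⟨r', hr', v, hv, hd'⟩ := exists_decR x (md m) r
    refine ⟨r', hr'.trans hr, v, hv.ge, hd', s, hs, fun i hi => ?_⟩
    obtain ⟨h1, h2⟩ := hd i hi
    obtain ⟨h3, h4⟩ := hd' i (by omega)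
    constructor
    · intro h
      by_contra hc
      exact h2 hc r' hr' (h3 h)
    · intro h
      by_contra hc
      rw [Bool.not_eq_true] at hc
      exact h4 hc r' le_rfl ((x i).mono hr' (h1 h))
  · rintro ⟨r, hr, v, hv, hd, s, hs, h⟩
    refine ⟨r, hr, s, hs, fun i hi => ⟨fun h1 => (hd i (hi.trans_le hv)).1 ((h i hi).2 h1),
      fun h1 => (hd i (hi.trans_le hv)).2 ?_⟩⟩
    rw [← Bool.not_eq_true]
    exact fun h2 => h1 ((h i hi).1 h2)

theorem InC_mono {x : ℕ → RO P} {m : ℕ} {p q : P} (h : q ≤ p) (hp : InC x m p) : InC x m q :=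
  fun r hr => hp r (hr.trans h)

theorem InC_dense {x : ℕ → RO P} {m : ℕ} {p : P} (h : ∀ q ≤ p, ∃ r ≤ q, InC x m r) :
    InC x m p := fun q hq => by
  obtain ⟨r, hr, h1⟩ := h q hq
  obtain ⟨s, hs, h2⟩ := h1 r le_rfl
  exact ⟨s, hs.trans hr, h2⟩

theorem InC_of_dec {x : ℕ → RO P} {m : ℕ} {p : P} {v : List Bool} (hv : md m ≤ v.length)
    (h : DecR x v p) (hc : pd v ∈ cl m) : InC x m p :=
  InC_iff.2 fun q hq => ⟨q, le_rfl, v, hv, h.mono hq, hc⟩

/-- the initial segment of a real in the clopen set is in the clopen set -/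
theorem InC_dec {x : ℕ → RO P} {m : ℕ} {p : P} {v : List Bool} (hv : md m ≤ v.length)
    (h : DecR x v p) (hc : InC x m p) : pd v ∈ cl m := by
  obtain ⟨r, hr, v', hv', h', hc'⟩ := InC_iff.1 hc p le_rfl
  exact (cl_congr fun k hk => h'.eq (h.mono hr) (hk.trans_le hv') (hk.trans_le hv)).1 hc'

/-- the truth value of a proposition -/
def cst (a : Prop) : RO P := ⟨fun _ => a, fun _ h => h, fun {p} h => by
  obtain ⟨_, _, h⟩ := h p le_rfl; exact h⟩

end gen

/-! ### Names -/

/-- the indices of the points of `Y`: finite sets, and the points `a δ [x]` -/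
abbrev Ix : Type := Finset ℕ ⊕ (W × Cd)

/-- `k` is in the element `a β` of the tower -/
noncomputable def aN (β : W) (k : ℕ) : RO Cn := hl fun p => pd (p.t β) k = true

/-- `k` is in the point with index `j` -/
noncomputable def yN : Ix → ℕ → RO Cn
  | .inl F, k => cst (k ∈ F)
  | .inr (δ, x), k => hl fun p => pd (p.t δ) k = true ∧ ev (Le δ) x (cnt (p.t δ) k) p

/-- the `n`-th element of `a β` is in the point with index `j` -/
noncomputable def DN (β : W) (j : Ix) (n : ℕ) : RO Cn :=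
  hl fun p => ∃ k, pd (p.t β) k = true ∧ cnt (p.t β) k = n ∧ yN j k p

/-- the value at `n` of the Cohen real `c ξ` is `k` -/
noncomputable def cN (ξ : Om) (n k : ℕ) : RO Cn :=
  hl fun p => ∃ h : n < (p.c ξ).length, (p.c ξ)[n] = k

theorem le_t {p q : Cn} (h : q ≤ p) (β : W) : p.t β <+: q.t β :=
  h.body.t β (WithTop.coe_lt_top β)

theorem le_s {p q : Cn} (h : q ≤ p) {β : W} {U : Cd} {m : ℕ} (hm : (β, U, m) ∈ p.s) :
    (β, U, m) ∈ q.s := h.body.s β U m (WithTop.coe_lt_top β) hm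

theorem le_d {p q : Cn} (h : q ≤ p) {β : W} {U : Cd} {a : Sd Cd} (ha : (β, U, a) ∈ p.d) :
    (β, U, a) ∈ q.d := h.body.d β U a (WithTop.coe_lt_top β) ha

theorem le_ok {p q : Cn} (h : q ≤ p) {β : W} {U : Cd} {m : ℕ} {a : Sd Cd}
    (h1 : (β, U, m) ∈ q.s) (h2 : (β, U, m) ∉ p.s) (h3 : (β, U, a) ∈ p.d) :
    Okk (fun β => Le β) β U m q a := h.body.ok β U m a (WithTop.coe_lt_top β) h1 h2 h3

theorem pd_down (β : W) (k : ℕ) : ∀ p q : Cn, q ≤ p → pd (p.t β) k = true →
    pd (q.t β) k = true := fun p q h h1 => by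
  rw [pd_prefix (le_t h β) (lt_of_pd h1)]
  exact h1

theorem yb_down (δ : W) (x : Cd) (k : ℕ) : ∀ p q : Cn, q ≤ p →
    (pd (p.t δ) k = true ∧ ev (Le δ) x (cnt (p.t δ) k) p) →
    (pd (q.t δ) k = true ∧ ev (Le δ) x (cnt (q.t δ) k) q) := fun p q h h1 => by
  refine ⟨pd_down δ k p q h h1.1, ?_⟩
  rw [cnt_prefix (le_t h δ) (lt_of_pd h1.1).le]
  exact (le_Le h δ).ev h1.2

theorem aN_of {β : W} {k : ℕ} {p : Cn} (h : pd (p.t β) k = true) : aN β k p :=
  hl_of (pd_down β k) h

theorem yN_of {δ : W} {x : Cd} {k : ℕ} {p : Cn} (h : pd (p.t δ) k = true)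
    (h' : ev (Le δ) x (cnt (p.t δ) k) p) : yN (.inr (δ, x)) k p :=
  hl_of (yb_down δ x k) ⟨h, h'⟩

theorem DN_down (β : W) (j : Ix) (n : ℕ) : ∀ p q : Cn, q ≤ p →
    (∃ k, pd (p.t β) k = true ∧ cnt (p.t β) k = n ∧ yN j k p) →
    ∃ k, pd (q.t β) k = true ∧ cnt (q.t β) k = n ∧ yN j k q := by
  rintro p q h ⟨k, h1, h2, h3⟩
  refine ⟨k, pd_down β k p q h h1, ?_, (yN j k).mono h h3⟩
  rw [cnt_prefix (le_t h β) (lt_of_pd h1).le]
  exact h2

theorem cN_down (ξ : Om) (n k : ℕ) : ∀ p q : Cn, q ≤ p →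
    (∃ h : n < (p.c ξ).length, (p.c ξ)[n] = k) → ∃ h : n < (q.c ξ).length, (q.c ξ)[n] = k := by
  rintro p q h ⟨h1, h2⟩
  have h3 := h.body.c ξ
  refine ⟨h1.trans_le h3.length_le, ?_⟩
  rw [← h2]
  exact (h3.getElem h1).symm

/-- a decided place of `a β` -/
theorem aN_iff {β : W} {k : ℕ} {p : Cn} (hk : k < (p.t β).length) :
    aN β k p ↔ pd (p.t β) k = true := by
  refine ⟨fun h => ?_, aN_of⟩
  obtain ⟨r, hr, h1⟩ := h p le_rfl
  rw [← pd_prefix (le_t hr β) hk]
  exact h1 r le_rfl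

theorem aN_dec {β : W} {p : Cn} : DecR (aN β) (p.t β) p := by
  refine fun n hn => ⟨fun h => aN_of h, fun h q hq h1 => ?_⟩
  have h2 := (aN_iff (hn.trans_le (le_t hq β).length_le)).1 h1
  rw [pd_prefix (le_t hq β) hn, h] at h2
  exact absurd h2 (by simp)

theorem DecR_fin (F : Finset ℕ) (N : ℕ) (p : Cn) :
    DecR (yN (.inl F)) ((List.range N).map fun k => decide (k ∈ F)) p := by
  intro n hn
  simp only [List.length_map, List.length_range] at hn
  rw [pd_lt (by simpa using hn)]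
  simp only [List.getElem_map, List.getElem_range]
  exact ⟨fun h => (show n ∈ F by simpa using h), fun h q _ h1 => by
    simp only [decide_eq_false_iff_not] at h
    exact h h1⟩

/-- initial segments of `a δ` and of the real with code `x` decide an initial segment of the point
`a δ [x]` -/
theorem DecR_pts {δ : W} {x : Cd} {v w : List Bool} {p : Cn} {N : ℕ} (hN : N ≤ (p.t δ).length)
    (hv : cnt (p.t δ) N ≤ v.length) (hd : Dec (Le δ) x v p) (hw : w.length = N)
    (hwv : ∀ k < N, pd w k = pts (p.t δ) v k) : DecR (yN (.inr (δ, x))) w p := by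
  intro k hk
  rw [hw] at hk
  rw [hwv k hk]
  have hk' : k < (p.t δ).length := hk.trans_le hN
  have hcnt : pd (p.t δ) k = true → cnt (p.t δ) k < v.length := by
    intro h
    have h1 : cnt (p.t δ) k < cnt (p.t δ) (k + 1) := by
      unfold cnt
      rw [List.take_add_one, List.getElem?_eq_getElem hk', List.count_append]
      rw [pd_lt hk'] at h
      simp [h]
    exact (h1.trans_le (cnt_mono _ hk)).trans_le hv
  unfold pts
  constructor
  · intro h
    rw [Bool.and_eq_true] at h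
    exact yN_of h.1 ((hd _ (hcnt h.1)).1 h.2)
  · intro h q hq h1
    obtain ⟨r, hr, h2⟩ := h1 q le_rfl
    obtain ⟨h3, h4⟩ := h2 r le_rfl
    have hrp : r ≤ p := hr.trans hq
    rw [pd_prefix (le_t hrp δ) hk'] at h3
    rw [cnt_prefix (le_t hrp δ) hk'.le] at h4
    rw [h3, Bool.true_and] at h
    exact (hd _ (hcnt h3)).2 h r (le_Le hrp δ) h4

theorem InC_of_Din {δ : W} {x : Cd} {m : ℕ} {p : Cn} (h : Din (Le δ) δ x m p) :
    InC (yN (.inr (δ, x))) m p := by
  obtain ⟨h1, v, h2, h3, h4⟩ := h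
  refine InC_of_dec (v := (List.range (md m)).map (pts (p.t δ) v)) (by simp)
    (DecR_pts h1 h2 h3 (by simp) fun k hk => ?_) ?_
  · rw [pd_lt (by simpa using hk)]
    simp
  · refine (cl_congr fun k hk => ?_).1 h4
    rw [pd_lt (by simpa using hk)]
    simp

end Pool.Agent.B820
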