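import Pool.Agent.Lib.MP_820b44_gt.Pos

/-!
# Statements of the modules

Every `S_Xyz` is proved in its own file `Xyz.lean` as `theorem tXyz : (... →) S_Xyz`.
-/

set_option autoImplicit false
set_option linter.unusedSectionVars false
set_option linter.unusedVariables false

open Set

namespace Pool.Agent.B820

open Pool.Agent.SymExt
open Pool.Agent.Lib.MP_e6371f_lc (W b0 nx)
open Pool.Agent.Lib.MP_820b44_gt (Cl InC)

/-- CODE (about 70 lines).  Every sequence of countable sets of conditions is the sequence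
`x.gen 0, x.gen 1, ...` of a code `x`.
PROOF.  Let `K` be the set of all codes `U` for which some condition of some `A n` has an element
`(β, U, m)` in `s`, or an element `(β, U, a)` in `d`, or an element `(β, V, .pt δ U)` in `d`.  `K`
is countable (countably many conditions, each with finite `s` and `d`).  Choose `ch : ℕ → Cd` whose
range contains `K` (e.g. from `(K.insert .nil).Countable.exists_eq_range`) and `g : Cd → ℕ` with
`ch (g U) = U` for `U ∈ K` (`Function.invFun` or choice).  Then `(p.map g).map ch = p` for all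
`p ∈ A n`: `c` and `t` are not changed, and for the sets `s`, `d` use `Set.image_image` and
`Set.image_congr` (on elements of `p.s`, `p.d` the composition is the identity), `Sd.map`
likewise.  For each `n`, if `A n` is empty let `sh n i = none`, otherwise let `e n : ℕ → Cn` be a
surjection onto `A n` (`Set.Countable.exists_eq_range`) and `sh n i = some ((e n i).map g)`.
Then `x = .mk sh ch`. -/
def S_Code : Prop :=
  ∀ A : ℕ → Set Cn, (∀ n, (A n).Countable) → ∃ x : Cd, ∀ n, x.gen n = A n

/-- FPF (about 80 lines).  Uncountably many finite partial functions with values in `ℕ` contain two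
compatible ones with different indices.
PROOF.  By induction on `k`: the statement for all families with `(D i).card ≤ k` (first reduce to
this case: the sets `{i | (D i).card = k}` are countably many, so one of them is uncountable; use
the type `{i // (D i).card = k}`).  If `k = 0`: any two different indices.  Step: if there are
`i ≠ j` with disjoint `D i`, `D j`, we are done.  Otherwise fix `i₀`; all `D i`, `i ≠ i₀`, meet the
finite set `D i₀`; so for some `x ∈ D i₀` and some value `v` the set of the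
`i ≠ i₀` with `x ∈ D i`, `f i x = v` is uncountable (it is one of countably many sets whose union
is `{i | i ≠ i₀}`).  Apply the induction hypothesis to the family of these `i` with
`D' i = (D i).erase x`. -/
def S_Fpf : Prop :=
  ∀ (X ι : Type) [DecidableEq X], Uncountable ι → ∀ (D : ι → Finset X) (f : ι → X → ℕ),
    ∃ i j, i ≠ j ∧ ∀ x ∈ D i, x ∈ D j → f i x = f j x

/-- PRED (about 130 lines, from `S_Fpf`).  Every set `A` of conditions has a countable subset `B`
such that every element of `A` is compatible with an element of `B`, for the order of level `γ`.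
PROOF.  (1) MERGE: suppose `p`, `q` satisfy: for all `ξ`: `p.c ξ = []` or `q.c ξ = []` or
`p.c ξ = q.c ξ`; the same for `t`; and for each KEY `(β, U)` of both (a key of `p` is a pair
`(β, U)` with some `(β, U, m) ∈ p.s` or some `(β, U, a) ∈ p.d`): for all `m`,
`(β, U, m) ∈ p.s ↔ (β, U, m) ∈ q.s`.  Let `r` be the condition with
`r.c ξ = if p.c ξ = [] then q.c ξ else p.c ξ`, the same for `t`, `r.s = p.s ∪ q.s`,
`r.d = p.d ∪ q.d`.  Then `Le γ r p` and `Le γ r q` by `Le_iff`: if `q.t β ≠ []` then
`r.t β = q.t β`, so there is no new one at `β` (`pd_ge`); if `(β, U, m) ∈ r.s`, not in `q.s`, and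
`(β, U, a) ∈ q.d`, then `(β, U, m) ∈ p.s`, so `(β, U)` is a key of both and `(β, U, m) ∈ q.s`,
contradiction.
(2) CCC: if `C` is a set of pairwise `Le γ`-incompatible conditions (no `r` with `Le γ r p`,
`Le γ r q` for `p ≠ q` in `C`) then `C` is countable: otherwise apply `S_Fpf` with `ι = C`,
`X = Om ⊕ W ⊕ (W × Cd)` (classical decidability), `D p` the supports and the keys of `p`, `f p` the
code in `ℕ` (`Encodable` of `List ℕ`, `List Bool`, `Finset ℕ`; for the key `(β, U)` the finite set
of the `m` with `(β, U, m) ∈ p.s`) of the value; the two members with equal values on the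
intersection satisfy (1).
(3) Zorn (`zorn_subset` for the subsets of `A` that are pairwise incompatible): a maximal one `B` is
countable by (2); if `p ∈ A` is compatible with no element of `B` then `insert p B` is larger. -/
def S_Pred : Prop :=
  ∀ (γ : WithTop W) (A : Set Cn), ∃ B ⊆ A, B.Countable ∧
    ∀ p ∈ A, ∃ q ∈ B, ∃ r, Le γ r p ∧ Le γ r q

/-- CODEP (about 20 lines, from `S_Code`, `S_Pred`).  A sequence of sets of conditions that are
closed downwards at level `γ` has a code of level `γ`.
PROOF.  Let `B n ⊆ ν n` be given by `S_Pred` and `x` the code with `x.gen n = B n`. -/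
def S_CodeP : Prop :=
  ∀ (γ : WithTop W) (ν : ℕ → Set Cn), (∀ n p q, Le γ q p → p ∈ ν n → q ∈ ν n) →
    ∃ x : Cd, (∀ n q, ev (Le γ) x n q → q ∈ ν n) ∧
      ∀ n q, q ∈ ν n → ∃ r, Le γ r q ∧ ev (Le γ) x n r

/-- CODET (about 35 lines, from `S_Code`, `S_Pred`).  Every real of the extension has a code of
some level `β`.
PROOF.  `B n ⊆ {p | ν n p}` from `S_Pred ⊤`, `x` with `x.gen n = B n`, and `β` from `exists_supp`
for the countable set `⋃ n, B n`.  If `ev (Le β) x n q`, say `a ∈ B n` and `Le β q a`, then `q ≤ a`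
by `Le_of_supp`, so `ν n q` by monotonicity.  If `ν n q`, then there are `a ∈ B n` and `r ≤ q` with
`r ≤ a`; `ev (Le β) x n r` by `le_Le`. -/
def S_CodeT : Prop :=
  ∀ ν : ℕ → RO Cn, ∃ (β : W) (x : Cd), (∀ n q, ev (Le β) x n q → ν n q) ∧
    ∀ n q, ν n q → ∃ r ≤ q, ev (Le β) x n r

/-- ZERO (about 90 lines, from `S_Pred`).  The invariant at the least level.
PROOF.  There is no `i : ι` (`b i < b0` is impossible), so `ι` is empty and there is only one
`v : ι → List Bool`, `v₀ = isEmptyElim` (`Subsingleton.elim`).  For each `n` let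
`B n ⊆ ⋃ j, O n j v₀` be countable by `S_Pred (γ = b0)`, and let `S = ⋃ n, ⋃ a ∈ B n,
{ξ | a.c ξ ≠ []}`, a countable set.  Let `ξ ∉ S`, `x`, `N`, `p` be given and
`n = max N (p.c ξ).length`.  By `Cov` there is `q` with `Le b0 q p` and `q ∈ O n j v₀`; so there
are `a ∈ B n` and `r₀` with `Le b0 r₀ q` and `Le b0 r₀ a`; say `a ∈ O n j' v₀`.  Let `r` be `r₀`
with `c ξ` replaced by `p.c ξ` followed by `j'`s: `p.c ξ ++ List.replicate (n + 1 - len) j'`.
Then `Le b0 r a` and `Le b0 r p` (by `Le_iff`: all clauses except `c` are empty, because no level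
is below `b0` (`not_lt_b0`); at `ξ`: `a.c ξ = []`; at `ζ ≠ ξ` the prefix relations of `r₀`).  So
`r ∈ O n j' v₀` by `Fam.down`, `n < (r.c ξ).length` and `(r.c ξ)[n] = j'`. -/
def S_Zero : Prop := Inv b0

/-- LIM (about 90 lines).  The limit step.
PROOF.  Let `b i < γ`, `O`, `Fam γ O`, `Cov γ b O` be given.  For `g < γ` let
`O' g n j v = {q | ∃ r ∈ O n j v, Le g q r}`.  `Fam g (O' g)`: clear (`Le_trans`).  If
`∀ i, b i < g`, then `Cov g b (O' g)`: given `x`, `n`, `p`, take `q` with `Le γ q (trunc g p)` from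
`Cov γ b O`; then `Le g q p` by `Le_mono` and `(trunc_eqv g p).le`, and `q ∈ O' g n j v` by
`Le_refl`.  So for each `g < γ` with `∀ i, b i < g` there is a countable set `S g` by `Inv g`; let
`S` be the union over all `g < γ` (`W_cnt γ : (Iio γ).Countable`; use `if`/choice for the others).
Let `ξ ∉ S`, `x`, `N`, `p`.  Let `p' = trunc γ p` (so that `Le γ p p'`, `Le γ p' p`).  There is
`g < γ` with `Supp g p'` and `∀ i, b i < g`: the data of `p'` are finitely many levels `< γ`, and
`γ` is a limit (a finite set of elements of `Iio γ` has an upper bound `β < γ`; take `nx β`; if the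
set is empty take any `β < γ`).  By `Hit g` for `S g` there are `q`, `n`, `j`, `v` with `Le g q p'`
and `q ∈ O' g n j v`, say `r ∈ O n j v` with `Le g q r`.  Let `r' = graft g q r`.  `Le γ r' r` by
`graft_le`, so `r' ∈ O n j v`.  `Le g r' p'` (by `(graft_eqv g q r).le` and transitivity), so
`Le γ r' p'` by `Le_of_supp`, so `Le γ r' p`.  `Decs b x v r'`: `Le.decs` at level `g`.  `r'.c = q.c`
by definition. -/
def S_Lim : Prop :=
  ∀ γ : W, (∀ β < γ, nx β < γ) → (∃ β, β < γ) → (∀ β < γ, Inv β) → Inv γ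

/-- TUBE (about 200 lines, from `S_CodeP`).  Reals of level `γ` form a compact space at level `γ`.
PROOF.  It is enough to prove (T1): for `b : ι → W`, if the conclusion `C(ι, b)` of `Inv` (for all
`O` with `Fam γ O` and `Cov γ b O` there is a countable `S` ...) holds then `C(Option ι, b')` holds
for `b' (some i) = b i`, `b' none = γ`.  (Then induct on the number of `i` with `b i = γ`, removing
one coordinate at a time along an equivalence `ι ≃ Option ι'`, or prove `C` for sums
`ι₀ ⊕ Fin k`; the passage along an equivalence of index types is routine.)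
(T1): write `(v, u)` for an element of `Option ι → List Bool` (`u` at `none`).  Let
`O' n j v = {q | ∃ l, ∀ u : List Bool, u.length = l → ∃ u' v', u' <+: u ∧ (∀ i, v' i <+: v i) ∧
q ∈ O n j (v', u')}`.  `Fam γ O'`: clear.  Claim `Cov γ b O'`.  Let `x`, `n`, `p` be given and
suppose that there are no `q`, `j`, `v` with `Le γ q p`, `Decs b x v q`, `q ∈ O' n j v`.  Say that
`q` KILLS `u` if there are `u' <+: u`, `j`, `v'` with `Decs b x v' q` and `q ∈ O n j (v', u')`;
killing is inherited by stronger conditions and by longer `u`.  Say that `(q, u)` is GOOD if for no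
`q'` with `Le γ q' q` and no `l` does `q'` kill all extensions of `u` of length `l ≥ u.length`.
 (a) `(p, [])` is good: if `q' ` kills all `u` of length `l`, take `j` larger than the finitely
 many `j`s (`Fam.mono`), extend `q'` to decide all `x i` up to a common length
 (`exists_dec` with `Le_mono`; a `v` with `Decs b x v q''` and all `v'` prefixes of `v`, by
 `Dec_unique`), so `q'' ∈ O' n j v`: contradiction.
 (b) if `(q, u)` is good, then there are `q'`, `Le γ q' q`, and a bit `e` with `(q', u ++ [e])` good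
 (otherwise `q₁` kills all extensions of `u0` of length `l₀` and `q₂` below `q₁` all extensions of
 `u1` of length `l₁`, so `q₂` kills all extensions of `u` of length `max l₀ l₁`).
 (c) if `(q, u ++ [e])` is good then `(q, u)` is good; good is inherited by stronger `q`.
Order the sequences of length `k` lexicographically (or by the natural number they code: any
well-order `<` of the sequences of length `k` such that `u < u'` implies `u e < u' e'`).  Let
`L k = {(q, u) | u.length = k, (q, u) good, and for all u' < u of length k and all q' with Le γ q' q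
not (q', u') good}`.  Facts: `L` is inherited by stronger `q`; for `q` below `p` and each `k` there
are `q'` below `q` and `u` with `(q', u) ∈ L k` (take the least `u` of length `k` such that some
`q'` below `q` is good for `u`; exists by (a), (b)); if `(q, u) ∈ L k` and `(q, u') ∈ L k` then
`u = u'`; if `(q, u ++ [e]) ∈ L (k+1)` then `(q, u) ∈ L k` (by (b), (c)).
Let `ν k = {q | ∃ u, (q, u ++ [true]) ∈ L (k + 1)}` and let `y` be the code of `ν` from `S_CodeP γ`.
By `Cov γ b' O` for `(x, y)`, `n`, `p`: there are `q`, `Le γ q p`, `j`, `(v, u)` with `Decs b x v q`,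
`Dec (Le γ) y u q`, `q ∈ O n j (v, u)`; so `q` kills `u`.  Let `q'` be below `q` with
`(q', u') ∈ L u.length`.  Then `u' = u`: for `k < u.length` the beginning of `u'` of length `k + 1`
is in `L (k+1)` for `q'`; if its last bit is `1` then `q' ∈ ν k`, so some `q''` below `q'` has
`ev (Le γ) y k q''`, so the bit `k` of `u` is not `0`; if the last bit is `0` and the bit `k` of `u`
is `1` then `ev (Le γ) y k q`, so `q ∈ ν k`, so `(q', u'' ++ [true]) ∈ L (k+1)` for some `u''`,
contradiction to the uniqueness.  So `(q', u)` is good, but `q'` kills `u`: contradiction (`l =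
u.length`).
(T1) now follows: `S` from `C(ι, b)` for `O'`.  Let `ξ ∉ S`, `(x, y)`, `N`, `p` be given: there are
`q`, `n`, `j`, `v`, `l` with `Le γ q p`, `Decs b x v q`, `q ∈ O' n j v`, `j ≤ (q.c ξ)[n]`.  Extend
`q` to `q'` that decides `y` up to length `l`: `Dec (Le γ) y u q'`, `u.length = l` (`exists_dec`).
Then `q' ∈ O n j (v', u')` for some prefixes, and prefixes of decided initial segments are
decided. -/
def S_Tube : Prop := ∀ γ : W, Inv γ → Inw γ

/-- SUCC (about 350 lines, from `S_Pred`).  The successor step: assigned to helper50. -/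
def S_Succ : Prop := ∀ γ : W, Inw γ → Inv (nx γ)

/-- INVA (about 25 lines, from `S_Zero`, `S_Lim`, `S_Tube`, `S_Succ`).
PROOF.  Induction on `γ` (`WellFoundedLT.induction`): `γ = b0`; or `γ = nx β` for some `β < γ`; or
`nx β < γ` for all `β < γ` (by `nx_le`) and `b0 < γ`. -/
def S_Inva : Prop := ∀ γ : W, Inv γ

/-- DOM (about 130 lines, from `S_Pred`, `S_Inva`).  The field `dom` of `Core`, with `h = cN ξ`.
PROOF.  `p' = p`.  Fix `i`.  For `n : ℕ` let
`A n = {q | (∃ k, g i n k q) ∨ ∀ r ≤ q, ∀ k, ¬ g i n k r}`; every condition has an extension in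
`A n`.  Let `B n ⊆ A n` be countable by `S_Pred ⊤` and let `β` be a level with `Supp β a` for all
`a ∈ ⋃ n, B n` (`exists_supp`).  For `ι = Empty` let
`O n j v = {q | ∃ a ∈ B n, Le β q a ∧ ((∃ k < j, g i n k a) ∨ ∀ r ≤ a, ∀ k, ¬ g i n k r)}`.
`Fam β O`: `Le_trans`.  `Cov β b O`: given `n`, `p`, take `q ≤ trunc β p` in `A n`, then `a ∈ B n`
and `r` with `r ≤ q`, `r ≤ a`; `Le β r p` by `(trunc_eqv β p).le`, and `r ∈ O n j v` for
`j = k + 1` resp. `j = 0`.  By `Inv β` there is a countable set `S i` of `ξ`.  The union of all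
`S i`, `i : W`, has cardinality at most `ℵ₁ < 2 ^ ℵ₁ = #Om` (`W_card`, `Cardinal.mk_set`,
`Cardinal.mk_iUnion_le`, `Cardinal.cantor`); choose `ξ` outside.  `h = cN ξ`: the functional
property: `cN_down`, `hl_iff` (two values of `(q.c ξ)[n]` are equal in a common extension);
totality: extend `q.c ξ` by zeros beyond `n` (a condition `r` that differs from `q` only in `c ξ`,
`Le_iff`: all clauses except `c` are trivial as in `Eqv.le`).  Last clause: suppose `q ≤ p` and for
all `n ≥ N`, `r ≤ q` there are `s ≤ r`, `k`, `l` with `g i n k s`, `h n l s`, `l ≤ k`.  By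
`Hit β b O ξ` there are `q₁`, `Le β q₁ q`, `n ≥ N`, `j`, `q₁ ∈ O n j v` (witness `a`),
`j ≤ (q₁.c ξ)[n]`.  Let `r = graft β q₁ q`: `r ≤ q` (`graft_le`), `Le β r a`, so `r ≤ a`
(`Le_of_supp`), `r.c = q₁.c`.  Take `s ≤ r`, `k`, `l` as above.  If `g i n` is undefined below `a`:
contradiction.  Otherwise `g i n k₀ a` with `k₀ < j`; `k = k₀` by the functional hypothesis (`s ≤ p`).
From `cN ξ n l s` some `s' ≤ s` has `(s'.c ξ)[n] = l`, and `(s'.c ξ)[n] = (q₁.c ξ)[n] ≥ j > k₀ = k ≥
l`: contradiction. -/
def S_Dom : Prop :=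
  ∀ (p : Cn) (g : W → ℕ → ℕ → RO Cn),
    (∀ i n k k', ∀ q ≤ p, g i n k q → g i n k' q → k = k') →
    ∃ p' ≤ p, ∃ h : ℕ → ℕ → RO Cn,
      (∀ n k k', ∀ q ≤ p', h n k q → h n k' q → k = k') ∧
      (∀ n, ∀ q ≤ p', ∃ r ≤ q, ∃ k, h n k r) ∧
      ∀ i N, ∀ q ≤ p', ¬ ∀ n ≥ N, ∀ r ≤ q, ∃ s ≤ r, ∃ k l, g i n k s ∧ h n l s ∧ l ≤ k

/-- PAD (about 50 lines).  One can append zeros to `t β`.
PROOF.  `q` is `p` with `t β` replaced by `p.t β ++ List.replicate (N + 1) false`
(`Function.update`).  `q ≤ p` by `Le_iff`: no new ones (`pd` of the longer sequence equals `pd` of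
the shorter one everywhere), `s`, `d` unchanged. -/
def S_Pad : Prop :=
  ∀ (p : Cn) (β : W) (N : ℕ), ∃ q ≤ p, N < (q.t β).length ∧ q.t β ≠ [] ∧
    (∀ k, pd (q.t β) k = pd (p.t β) k) ∧ (∀ δ, δ ≠ β → q.t δ = p.t δ) ∧ q.c = p.c ∧ q.s = p.s ∧
    q.d = p.d

/-- ONES (about 70 lines, from `S_Pad`).  The sets `a β` are infinite.
PROOF.  By `S_Pad` we may assume `p.t β ≠ []`.  Let `L > N` be larger than the lengths of all `p.t δ`
(finitely many are nonempty) and let `q` be `p` with `t δ` replaced by
`p.t δ ++ List.replicate (L - (p.t δ).length) false ++ [true]` for all `δ ≤ β` with `p.t δ ≠ []`.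
The only new ones are at the place `L` and there all `δ ≤ β` with `p.t δ ≠ []` have a one, so
`q ≤ p`; `k = L`. -/
def S_Ones : Prop :=
  ∀ (p : Cn) (β : W) (N : ℕ), ∃ q ≤ p, ∃ k > N, pd (q.t β) k = true

/-- CONT (about 100 lines, from `S_Ones`, `S_Pad`).  The field `cont` of `Core`.
PROOF.  First a lemma: if `pd (p.t i) k = true` and `cnt (p.t i) k = n` then
`DN i j n p ↔ yN j k p` (the `n`-th element is unique: `cnt` is strictly increasing at ones).
By `S_Ones` (repeatedly) extend `p` to `q` such that `q.t i` has more than `n` ones; let `k` be the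
place of the `n`-th one (`pd (q.t i) k = true`, `cnt (q.t i) k = n`), `l = k + 1`.  Let `i'`, `j'`,
`r ≤ q` be as in the statement, `s ≤ r`.  `DN i j n s ↔ yN j k s ↔ yN j' k s` and it remains to see
`DN i' j' n s ↔ yN j' k s`.  Both sides are regular, so it is enough to show it for all `s' ≤ s` in a
dense set (if `∀ s ≤ r, ∃ s' ≤ s, ∀ s'' ≤ s', (a s'' ↔ b s'')` then `∀ s ≤ r, (a s ↔ b s)`): by
`S_Pad` extend `s` to `s'` with `(s'.t i').length > l`.  By `aN_iff` for `i` and `i'` and the
hypothesis, `pd (s'.t i') k' = pd (s'.t i) k' = pd (q.t i) k'` for `k' < l`, so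
`pd (s'.t i') k = true` and `cnt (s'.t i') k = n` (`cnt t k` depends only on the `pd t k'`,
`k' < k`); conclude with the lemma. -/
def S_Cont : Prop :=
  ∀ (i : W) (j : Ix) (n : ℕ) (p : Cn), ∃ q ≤ p, ∃ l, ∀ (i' : W) (j' : Ix), ∀ r ≤ q,
    (∀ k < l, ∀ s ≤ r, (aN i k s ↔ aN i' k s)) → (∀ k < l, ∀ s ≤ r, (yN j k s ↔ yN j' k s)) →
      ∀ s ≤ r, (DN i j n s ↔ DN i' j' n s)

/-- SURJ (about 60 lines, from `S_CodeT`, `S_Ones`).  The field `surj` of `Core`.
PROOF.  `q = p`, `β` and `X` from `S_CodeT` for `x`, `i = β`, `j = .inr (β, X)`.  If `DN β j n r`: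
densely (below `r`) there is `k` with `pd (r'.t β) k = true`, `cnt (r'.t β) k = n`,
`yN (.inr (β, X)) k r'`; so densely `ev (Le β) X n r''` (`cnt` of the longer sequence is the same,
`cnt_prefix`), so `x n r''`; so `x n r` (`RO.dense`).  Conversely let `x n r`; given `r₁ ≤ r` extend
it by `S_Ones` until `t β` has more than `n` ones, let `k` be the place of the `n`-th one, and extend
to `r₂` with `ev (Le β) X n r₂`; then `yN_of`, and `hl_iff` with `DN_down`. -/
def S_Surj : Prop :=
  ∀ (x : ℕ → RO Cn) (p : Cn), ∃ q ≤ p, ∃ (i : W) (j : Ix), ∀ n, ∀ r ≤ q, (DN i j n r ↔ x n r)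

/-- ADD (about 110 lines).  One can add a new element `m` to `B (β, X)`.
PROOF.  Let `q'` be the condition with `c = r.c`; `t δ = r.t δ` for `δ < β`,
`t β = q.t β ++ List.replicate (md m + 1) false`, `t δ = q.t δ` for `δ > β`; `s` = the set of the
elements of `r.s` of levels `< β`, those of `q.s` of levels `≥ β`, and `(β, X, m)`; `d` = the
elements of `r.d` of levels `< β` and those of `q.d` of levels `≥ β`.  `Eqv β q' r`, so
`Le β q' r`.  `q' ≤ q` by `Le_iff`: below `β` as in `graft_le`; `t β` has no new ones; the new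
element `m` of `B (β, X)`: `ev (Le β) X m q'` by `Le.ev`; for `a = .pt δ x` with `δ < β`: `Din` of
`r` is inherited by `q'` (`Din_mono`, `q'.t δ = r.t δ`); for `a = .wd w`:
`Kin (q'.t β) w m`, because `md m ≤ (q'.t β).length` and `pd (q'.t β) = pd (q.t β)`. -/
def S_Add : Prop :=
  ∀ (β : W) (X : Cd) (m : ℕ) (q r : Cn), Le β r q → ev (Le β) X m r →
    (∀ δ x, (β, X, Sd.pt δ x) ∈ q.d → δ < β → Din (Le δ) δ x m r) →
    (∀ w : List Bool, (β, X, Sd.wd w) ∈ q.d → ∀ y : ℕ → Bool, (∀ k < w.length, y k = pd w k) →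
      (∀ k, w.length ≤ k → y k = true → pd (q.t β) k = true) → y ∈ cl m) →
    ∃ q' ≤ q, (β, X, m) ∈ q'.s ∧ Le β q' r

/-- GAMA (about 150 lines, from `S_Add`, `S_Pad`).  `B (β, X)` is infinite if `X` is the code of an
`ω`-cover.
PROOF.  Let `n`, `q` be given.  Let `F` be the finite set of the indices `.inr (δ, x)` with
`(β, X, .pt δ x) ∈ q.d` and of the indices `.inl G` for `(β, X, .wd w) ∈ q.d` and
`G = {k | k < w.length, pd w k = true} ∪ H`, `H ⊆ {k | w.length ≤ k, pd (q.t β) k = true}`
(finitely many; `q.fd`, `Set.Finite.toFinset`, `Finset.powerset`).  There are `r ≤ q`, `m > n` with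
`U m r` and `InC (yN j) m r` for `j ∈ F`.  Extend `r` to `r₁ ≤ r` with `ev (Le β) X m r₁`.  Extend
`r₁` to `r₂` such that `Din (Le δ) δ x m r₂` for all the finitely many side points
(`Din` is inherited by stronger conditions: `Din_mono`); for one point: `S_Pad` gives
`md m ≤ (t δ).length`, `exists_dec` (level `δ`; then `graft_le` to have a stronger condition in the
full order, `graft_eqv` to keep `Dec`) gives `v` with `Dec (Le δ) x v` and
`cnt (t δ) (md m) ≤ v.length`; `pts (t δ) v ∈ cl m` by `DecR_pts` and `InC_dec`.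
Apply `S_Add` (`Le β r₂ q`; the hypothesis for `w`: the sequence `y` is the indicator of a set
`G` as above, `InC (yN (.inl G)) m r`, `DecR_fin`, `InC_dec`, `cl_congr`).  We get `q' ≤ q` with
`(β, X, m) ∈ q'.s` and `Le β q' r₂`, so `ev (Le β) X m q'`, so `U m q'`. -/
def S_Gama : Prop :=
  ∀ (β : W) (X : Cd) (U : ℕ → RO Cn), (∀ m q, ev (Le β) X m q → U m q) →
    (∀ m q, U m q → ∃ r ≤ q, ev (Le β) X m r) →
    (∀ (F : Finset Ix) (n : ℕ) (q : Cn), ∃ r ≤ q, ∃ m > n, U m r ∧ ∀ j ∈ F, InC (yN j) m r) →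
    ∀ (n : ℕ) (q : Cn), ∃ r ≤ q, ∃ m > n, (β, X, m) ∈ r.s ∧ U m r

/-- GAMB (about 120 lines, from `S_Pad`).  Every point of `Y` is in almost all clopen sets with
numbers in `B (β, X)`.
PROOF.  Let `addd p a` be `p` with `(β, X, a)` added to `d`: `addd p a ≤ p` (`Le_iff`).  If
`s ≤ r = addd q a`, `n` is larger than all `m` with `(β, X, m) ∈ r.s` (finitely many) and `m ≥ n`,
`(β, X, m) ∈ s.s`, then `Okk (fun β => Le β) β X m s a` (`le_ok`).
Case `j = .inr (δ, x)`, `δ < β`: `a = .pt δ x`; `Din (Le δ) δ x m s`, so `InC_of_Din`.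
Case `j = .inr (δ, x)`, `β ≤ δ`: by `S_Pad` we may assume `q.t β ≠ []`, `q.t δ ≠ []`.  By
`exists_decR` extend `q` to `q₁` with `DecR (yN j) w q₁`, `w.length = (q.t δ).length`.  Let
`r = addd q₁ (.wd w)`.  For `s` as above: `Kin (s.t β) w m`.  To see `InC (yN j) m s` take
`q₂ ≤ s`, by `exists_decR` `r₂ ≤ q₂` with `DecR (yN j) u r₂`, `u.length = max (md m) w.length`.
`pd u ∈ cl m` by `Kin` of `r₂.t β` (`Kin_mono`): `pd u k = pd w k` for `k < w.length`
(`DecR.eq`), and if `w.length ≤ k` and `pd u k = true` then `yN j k r₂`, so some `r₃ ≤ r₂` has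
`pd (r₃.t δ) k = true`; if `δ = β` or by the clause `tw` for `r₃ ≤ q` (`β < δ`, both nonempty in
`q`, `k ≥ (q.t δ).length`): `pd (r₃.t β) k = true`.  (Work with a common `r₃` for the finitely many
`k < u.length`, or note that `y = pd u` restricted to one `k` suffices: first pad `r₂` so that
`(r₂.t δ).length` and `(r₂.t β).length` are `≥ u.length`; then `pd (r₃.t δ) k = pd (r₂.t δ) k`.)
Case `j = .inl F`: `a = .wd w` with `w = (List.range N).map (fun k => decide (k ∈ F))`, `N` larger
than all elements of `F`; `Kin (s.t β) w m` applied to `y = fun k => decide (k ∈ F)`; `DecR_fin`,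
`InC_of_dec`. -/
def S_Gamb : Prop :=
  ∀ (β : W) (X : Cd) (j : Ix) (q : Cn), ∃ r ≤ q, ∃ n, ∀ m ≥ n, ∀ s ≤ r,
    (β, X, m) ∈ s.s → InC (yN j) m s

/-- GAM (about 80 lines, from `S_CodeT`, `S_Gama`, `S_Gamb`).  The field `gam` of `Core`.
PROOF.  Let `U' m = hl fun q => U m q ∨ ∀ r ≤ q, ¬ r ≤ p` (the property is inherited by stronger
conditions).  `U'` satisfies the hypothesis of `S_Gama` for all `q`: if some `q₁ ≤ q` is `≤ p`, use
the hypothesis for `U`; otherwise `U' m q` for all `m`, and by `Cl_surj (0, {∅}) n` there is `m > n`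
with `Cl m = (0, {∅})`, and every real is in this clopen set.  `β`, `X` from `S_CodeT` for `U'`.
`p' = p`, `B m` = the meet of `hl fun q => (β, X, m) ∈ q.s` and `U m`.  Infinite: for `q ≤ p` there
are `r ≤ q`, `m > n` with `(β, X, m) ∈ r.s`, `U' m r`, so some `r' ≤ r` has `U m r'` (as
`r' ≤ p`).  Cofinite: `S_Gamb` and `InC_dense`. -/
def S_Gam : Prop :=
  ∀ (p : Cn) (U : ℕ → RO Cn),
    (∀ (F : Finset Ix) (n : ℕ), ∀ q ≤ p, ∃ r ≤ q, ∃ m > n, U m r ∧ ∀ j ∈ F, InC (yN j) m r) →
    ∃ p' ≤ p, ∃ B : ℕ → RO Cn,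
      (∀ m, ∀ q ≤ p', B m q → U m q) ∧
      (∀ n, ∀ q ≤ p', ∃ r ≤ q, ∃ m > n, B m r) ∧
      ∀ j, ∀ q ≤ p', ∃ r ≤ q, ∃ n, ∀ m ≥ n, ∀ s ≤ r, B m s → InC (yN j) m s

end Pool.Agent.B820
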