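import Pool.Agent.Lib.MP_1ab623_gt.Statement

/-!
# Definitions for the statement: products of sets of reals in a model of `ZFC`

All notions are written out in terms of the membership relation `E` of the model.  Ordered pairs,
functions and natural numbers are those of `Pool.Agent.Lib.MP_1929a6_lc.Statement`; the axioms of
`ZFC`, subsets, the set of natural numbers and products are those of
`Pool.Agent.Lib.MP_1ab623_gt.Statement`.

In all definitions `w` is the set of natural numbers of the model; the natural numbers are von
Neumann numbers, so the elements of the natural number `n` are the smaller natural numbers.  A set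
of reals is a set of subsets of `w`, with the subspace topology of the Cantor space of all subsets
of `w`.
-/

universe u

namespace Pool.Agent.Lib.MP_820b44_gt

open Pool.Agent.ZF Pool.Agent.Lib.MP_1929a6_lc Pool.Agent.Lib.MP_1ab623_gt

variable {M : Type u} (E : M → M → Prop)

/-- Only finitely many sets have the property `P`: all of them are among the values of a function
`f` that is defined on a natural number `n`. -/
def FinitelyMany (w : M) (P : M → Prop) : Prop :=
  ∃ n f B, E n w ∧ IsFunction E f n B ∧ ∀ x, P x → ∃ k, Maps E f k x

/-- `S` is finite. -/
def FiniteSet (w S : M) : Prop := FinitelyMany E w fun x => E x S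

/-- `x` and `y` have the same elements among the natural numbers smaller than `n`. -/
def AgreeBelow (n x y : M) : Prop := ∀ k, E k n → (E k x ↔ E k y)

/-- `U` is an open subset of the set of reals `X` (in the subspace topology of the Cantor space):
for every `x` in `U` there is a natural number `n` such that `U` contains all `y` in `X` that agree
with `x` below `n`. -/
def IsOpenSubset (w X U : M) : Prop :=
  Sub E U X ∧ ∀ x, E x U → ∃ n, E n w ∧ ∀ y, E y X → AgreeBelow E n x y → E y U

/-- `U` is an open subset of the product `D = A × Y` of the sets of reals `A` and `Y` (in the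
product topology): for every `(a, y)` in `U` there is a natural number `n` such that `U` contains
all `(a', y')` in `A × Y` for which `a'` agrees with `a` below `n` and `y'` agrees with `y`
below `n`. -/
def IsOpenSubsetOfProduct (w A Y D U : M) : Prop :=
  Sub E U D ∧ ∀ a y, Maps E U a y → ∃ n, E n w ∧ ∀ a' y', E a' A → E y' Y →
    AgreeBelow E n a a' → AgreeBelow E n y y' → Maps E U a' y'

/-- `C` is an open cover of the space `X`; here `op U` says that `U` is an open subset of `X`.
The space `X` itself is not a member of `C`. -/
structure IsOpenCover (op : M → Prop) (X C : M) : Prop where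
  isOpen : ∀ U, E U C → op U
  proper : ¬ E X C
  covers : ∀ x, E x X → ∃ U, E U C ∧ E x U

/-- `C` is an open `ω`-cover of `X`: every finite subset of `X` is contained in some member
of `C`. -/
structure IsOmegaCover (w : M) (op : M → Prop) (X C : M) : Prop where
  isOpenCover : IsOpenCover E op X C
  finite : ∀ F, Sub E F X → FiniteSet E w F → ∃ U, E U C ∧ Sub E F U

/-- `C` is an open `γ`-cover of `X`: it is infinite, and every point of `X` is in all but finitely
many members of `C`. -/
structure IsGammaCover (w : M) (op : M → Prop) (X C : M) : Prop where
  isOpenCover : IsOpenCover E op X C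
  infinite : ¬ FiniteSet E w C
  cofinite : ∀ x, E x X → FinitelyMany E w fun U => E U C ∧ ¬ E x U

/-- `X` has the `γ`-property: every open `ω`-cover of `X` contains an open `γ`-cover of `X`. -/
def GammaProperty (w : M) (op : M → Prop) (X : M) : Prop :=
  ∀ C, IsOmegaCover E w op X C → ∃ V, Sub E V C ∧ IsGammaCover E w op X V

/-- `X` satisfies `S₁(Γ, O)`: for every sequence `u 0, u 1, ...` of open `γ`-covers of `X` one can
choose `s n` in `u n` for every `n` such that `s 0, s 1, ...` cover `X`. -/
def SelectionGammaO (w : M) (op : M → Prop) (X : M) : Prop :=
  ∀ u B, IsFunction E u w B → (∀ n C, Maps E u n C → IsGammaCover E w op X C) →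
    ∃ s T, IsFunction E s w T ∧ (∀ n C U, Maps E u n C → Maps E s n U → E U C) ∧
      ∀ x, E x X → ∃ n U, Maps E s n U ∧ E x U

/-- The function `g` from `w` to `w` dominates the function `h`: there is a natural number `N`
such that `h n ≤ g n` for all `n > N`. -/
def Dominates (w g h : M) : Prop :=
  ∃ N, E N w ∧ ∀ n i j, E n w → E N n → Maps E h n i → Maps E g n j → E i j ∨ i = j

/-- The cardinality of `A` is smaller than the dominating number `𝔡`: if `F` is a function from
`A` to the set of functions from `w` to `w`, then the set of its values is not a dominating
family, that is, some function `h` from `w` to `w` is not dominated by any value of `F`. -/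
def LessThanD (w A : M) : Prop :=
  ∀ F B, IsFunction E F A B → (∀ a g, Maps E F a g → IsFunction E g w w) →
    ∃ h, IsFunction E h w w ∧ ∀ a g, Maps E F a g → ¬ Dominates E w g h

/-- `A` is a set of infinite sets of natural numbers of cardinality smaller than `𝔡`, `Y` is a set
of reals with the `γ`-property, `D` is the product `A × Y`, and this product does not satisfy
`S₁(Γ, O)`. -/
structure IsCounterexample (w A Y D : M) : Prop where
  infinite : ∀ a, E a A → Sub E a w ∧ ¬ FiniteSet E w a
  small : LessThanD E w A
  reals : ∀ y, E y Y → Sub E y w
  gammaProperty : GammaProperty E w (IsOpenSubset E w Y) Y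
  product : IsProd E D A Y
  fails : ¬ SelectionGammaO E w (IsOpenSubsetOfProduct E w A Y D) D

/-- The final statement: some model of `ZFC` has a counterexample to Q2. -/
def Goal : Prop := ∃ (M : Type) (E : M → M → Prop), IsZFC E ∧
  ∃ w A Y D : M, IsOmega E w ∧ IsCounterexample E w A Y D

end Pool.Agent.Lib.MP_820b44_gt
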